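import Pool.Agent.Helper34.Bmo.JN

set_option autoImplicit false

namespace Pool.Agent.Helper34.Bmo

open MeasureTheory Set Filter Topology Metric

/-- mean oscillation controlled on all intervals of the line -/
structure RB (φ : ℝ → ℂ) (Ω : ℝ → ℝ) (M Ca : ℝ) : Prop where
  li : LI φ
  M0 : 0 < M
  Ca1 : 1 ≤ Ca
  pos : ∀ l, 0 < l → 0 < Ω l
  mono : ∀ s t, 0 < s → s ≤ t → Ω s ≤ Ω t
  grow : ∀ K l, 1 ≤ K → 0 < l → Ω (K * l) ≤ Ca * K * Ω l
  osc : ∀ a b, a < b → ∫ x in a..b, ‖φ x - mean φ a b‖ ≤ M * Ω (b - a) * (b - a)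

variable {φ : ℝ → ℂ} {Ω : ℝ → ℝ} {M Ca : ℝ}

lemma integral_subset_le {ψ : ℝ → ℝ} (hψ : ∀ a b, IntervalIntegrable ψ volume a b)
    (h0 : ∀ x, 0 ≤ ψ x) {a b c d : ℝ} (hac : a ≤ c) (hcd : c ≤ d) (hdb : d ≤ b) :
    ∫ x in c..d, ψ x ≤ ∫ x in a..b, ψ x := by
  rw [← intervalIntegral.integral_add_adjacent_intervals (hψ a c) (hψ c b),
    ← intervalIntegral.integral_add_adjacent_intervals (hψ c d) (hψ d b)]
  have h1 : 0 ≤ ∫ x in a..c, ψ x := intervalIntegral.integral_nonneg hac (fun x _ => h0 x)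
  have h2 : 0 ≤ ∫ x in d..b, ψ x := intervalIntegral.integral_nonneg hdb (fun x _ => h0 x)
  linarith

lemma RB.mean_growth (h : RB φ Ω M Ca) (x₀ : ℝ) {τ : ℝ} (hτ : 0 < τ) (k : ℕ) :
    ‖mean φ (x₀ - 2^k * τ) (x₀ + 2^k * τ) - mean φ (x₀ - τ) (x₀ + τ)‖ ≤
      4 * M * Ca * (2^k - 1) * Ω (2 * τ) := by
  have hM := h.M0
  have hCa := h.Ca1
  have hw := h.pos (2 * τ) (by linarith)
  induction k with
  | zero => simp
  | succ k ih =>
    have h2k : (0:ℝ) < 2^k := by positivity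
    have h2k1 : (1:ℝ) ≤ 2^k := one_le_pow₀ (by norm_num)
    have hlt : x₀ - 2^k * τ < x₀ + 2^k * τ := by nlinarith
    have hlt' : x₀ - 2^(k+1) * τ < x₀ + 2^(k+1) * τ := by
      have : (0:ℝ) < 2^(k+1) := by positivity
      nlinarith
    set μ' := mean φ (x₀ - 2^(k+1) * τ) (x₀ + 2^(k+1) * τ) with hμ'
    have e1 := mean_sub_le h.li hlt μ'
    have e2 : ∫ x in (x₀ - 2^k * τ)..(x₀ + 2^k * τ), ‖φ x - μ'‖ ≤
        ∫ x in (x₀ - 2^(k+1) * τ)..(x₀ + 2^(k+1) * τ), ‖φ x - μ'‖ := by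
      apply integral_subset_le (fun a b => h.li.sub_norm _ a b) (fun x => norm_nonneg _)
      · rw [pow_succ]; nlinarith
      · exact hlt.le
      · rw [pow_succ]; nlinarith
    have e3 := h.osc _ _ hlt'
    have e4 : x₀ + 2^(k+1) * τ - (x₀ - 2^(k+1) * τ) = 2^(k+1) * (2 * τ) := by ring
    rw [e4] at e3
    have e5 := h.grow (2^(k+1)) (2 * τ) (one_le_pow₀ (by norm_num)) (by linarith)
    have e6 : x₀ + 2^k * τ - (x₀ - 2^k * τ) = 2^k * (2 * τ) := by ring
    rw [e6] at e1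
    have e7 : ‖mean φ (x₀ - 2^k * τ) (x₀ + 2^k * τ) - μ'‖ ≤ 4 * M * Ca * 2^k * Ω (2 * τ) := by
      have e8 : ‖mean φ (x₀ - 2^k * τ) (x₀ + 2^k * τ) - μ'‖ * (2^k * (2 * τ)) ≤
          (4 * M * Ca * 2^k * Ω (2 * τ)) * (2^k * (2 * τ)) := by
        calc _ ≤ M * Ω (2^(k+1) * (2*τ)) * (2^(k+1) * (2 * τ)) := e1.trans (e2.trans e3)
          _ ≤ M * (Ca * 2^(k+1) * Ω (2 * τ)) * (2^(k+1) * (2 * τ)) := by
              apply mul_le_mul_of_nonneg_right _ (by positivity)
              exact mul_le_mul_of_nonneg_left e5 hM.le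
          _ = _ := by rw [pow_succ]; ring
      exact le_of_mul_le_mul_right e8 (by positivity)
    have e9 : ‖μ' - mean φ (x₀ - τ) (x₀ + τ)‖ ≤
        ‖mean φ (x₀ - 2^k * τ) (x₀ + 2^k * τ) - μ'‖ +
        ‖mean φ (x₀ - 2^k * τ) (x₀ + 2^k * τ) - mean φ (x₀ - τ) (x₀ + τ)‖ := by
      have : μ' - mean φ (x₀ - τ) (x₀ + τ) = -(mean φ (x₀ - 2^k * τ) (x₀ + 2^k * τ) - μ') +
        (mean φ (x₀ - 2^k * τ) (x₀ + 2^k * τ) - mean φ (x₀ - τ) (x₀ + τ)) := by ring
      rw [this]
      refine (norm_add_le _ _).trans ?_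
      rw [norm_neg]
    calc _ ≤ 4 * M * Ca * 2^k * Ω (2 * τ) + 4 * M * Ca * (2^k - 1) * Ω (2 * τ) :=
          e9.trans (add_le_add e7 ih)
      _ = _ := by rw [pow_succ]; ring

lemma RB.l1_growth (h : RB φ Ω M Ca) (x₀ : ℝ) {τ : ℝ} (hτ : 0 < τ) (k : ℕ) :
    ∫ x in (x₀ - 2^k * τ)..(x₀ + 2^k * τ), ‖φ x - mean φ (x₀ - τ) (x₀ + τ)‖ ≤
      10 * M * Ca * 4^k * τ * Ω (2 * τ) := by
  have hM := h.M0
  have hCa := h.Ca1
  have hw := h.pos (2 * τ) (by linarith)
  have h2k1 : (1:ℝ) ≤ 2^k := one_le_pow₀ (by norm_num)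
  have hlt : x₀ - 2^k * τ < x₀ + 2^k * τ := by nlinarith
  set μ := mean φ (x₀ - 2^k * τ) (x₀ + 2^k * τ) with hμ
  set c := mean φ (x₀ - τ) (x₀ + τ) with hc
  have h1 : ∫ x in (x₀ - 2^k * τ)..(x₀ + 2^k * τ), ‖φ x - c‖ ≤
      ∫ x in (x₀ - 2^k * τ)..(x₀ + 2^k * τ), (‖φ x - μ‖ + ‖μ - c‖) := by
    apply intervalIntegral.integral_mono_on hlt.le (h.li.sub_norm _ _ _)
      ((h.li.sub_norm _ _ _).add intervalIntegrable_const)
    intro x _
    have : φ x - c = (φ x - μ) + (μ - c) := by ring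
    rw [this]; exact norm_add_le _ _
  rw [intervalIntegral.integral_add (h.li.sub_norm _ _ _) intervalIntegrable_const,
    intervalIntegral.integral_const, smul_eq_mul] at h1
  have h2 := h.osc _ _ hlt
  have e6 : x₀ + 2^k * τ - (x₀ - 2^k * τ) = 2^k * (2 * τ) := by ring
  rw [e6] at h1 h2
  have h3 := h.grow (2^k) (2 * τ) h2k1 (by linarith)
  have h4 := h.mean_growth x₀ hτ k
  rw [← hμ, ← hc] at h4
  have h5 : 4 * M * Ca * (2^k - 1) * Ω (2 * τ) ≤ 4 * M * Ca * 2^k * Ω (2 * τ) := by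
    apply mul_le_mul_of_nonneg_right _ hw.le
    apply mul_le_mul_of_nonneg_left _ (by positivity)
    linarith
  calc _ ≤ M * (Ca * 2^k * Ω (2 * τ)) * (2^k * (2 * τ)) + 2^k * (2 * τ) *
        (4 * M * Ca * 2^k * Ω (2 * τ)) := by
        refine h1.trans (add_le_add (h2.trans ?_) ?_)
        · apply mul_le_mul_of_nonneg_right _ (by positivity)
          exact mul_le_mul_of_nonneg_left h3 hM.le
        · exact mul_le_mul_of_nonneg_left (h4.trans h5) (by positivity)
    _ = _ := by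
        have : (4:ℝ)^k = 2^k * 2^k := by rw [← mul_pow]; norm_num
        rw [this]; ring

lemma RB.l2_growth (h : RB φ Ω M Ca) (x₀ : ℝ) {τ : ℝ} (hτ : 0 < τ) (k : ℕ) :
    IntervalIntegrable (fun x => ‖φ x - mean φ (x₀ - τ) (x₀ + τ)‖^2) volume
      (x₀ - 2^k * τ) (x₀ + 2^k * τ) ∧
    ∫ x in (x₀ - 2^k * τ)..(x₀ + 2^k * τ), ‖φ x - mean φ (x₀ - τ) (x₀ + τ)‖^2 ≤
      448 * (M * Ca * Ω (2 * τ))^2 * 8^k * τ := by
  have hM := h.M0
  have hCa := h.Ca1
  have hw := h.pos (2 * τ) (by linarith)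
  have h2k1 : (1:ℝ) ≤ 2^k := one_le_pow₀ (by norm_num)
  have hlt : x₀ - 2^k * τ < x₀ + 2^k * τ := by nlinarith
  set m : ℝ := M * (Ca * 2^k * Ω (2 * τ)) with hm
  have hm0 : 0 < m := by positivity
  have e6 : x₀ + 2^k * τ - (x₀ - 2^k * τ) = 2^k * (2 * τ) := by ring
  obtain ⟨hI, hle⟩ := jn_l2 h.li hlt hm0 (by
    intro c d hc hcd hd
    refine (h.osc c d hcd).trans ?_
    apply mul_le_mul_of_nonneg_right _ (by linarith)
    apply mul_le_mul_of_nonneg_left _ hM.le
    refine le_trans (h.mono _ _ (by linarith) ?_) (h.grow (2^k) (2 * τ) h2k1 (by linarith))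
    rw [← e6]; linarith)
  set μ := mean φ (x₀ - 2^k * τ) (x₀ + 2^k * τ) with hμ
  set c := mean φ (x₀ - τ) (x₀ + τ) with hc
  have hpt : ∀ x, ‖φ x - c‖^2 ≤ 2 * ‖φ x - μ‖^2 + 2 * ‖μ - c‖^2 := by
    intro x
    have e : φ x - c = (φ x - μ) + (μ - c) := by ring
    have e2 : ‖φ x - c‖ ≤ ‖φ x - μ‖ + ‖μ - c‖ := by rw [e]; exact norm_add_le _ _
    have e3 := pow_le_pow_left₀ (norm_nonneg _) e2 2
    nlinarith [sq_nonneg (‖φ x - μ‖ - ‖μ - c‖)]
  have hI2 : IntervalIntegrable (fun x => 2 * ‖φ x - μ‖^2 + 2 * ‖μ - c‖^2) volume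
      (x₀ - 2^k * τ) (x₀ + 2^k * τ) := (hI.const_mul 2).add intervalIntegrable_const
  have hI3 : IntervalIntegrable (fun x => ‖φ x - c‖^2) volume
      (x₀ - 2^k * τ) (x₀ + 2^k * τ) := by
    apply hI2.mono_fun
    · have := (intervalIntegrable_iff.1 (h.li.sub_norm c (x₀ - 2^k * τ)
        (x₀ + 2^k * τ))).aestronglyMeasurable
      exact this.pow 2
    · filter_upwards with x
      rw [Real.norm_eq_abs, Real.norm_eq_abs, abs_of_nonneg (by positivity),
        abs_of_nonneg (by positivity)]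
      exact hpt x
  refine ⟨hI3, ?_⟩
  have h1 := intervalIntegral.integral_mono_on hlt.le hI3 hI2 (fun x _ => hpt x)
  rw [intervalIntegral.integral_add (hI.const_mul 2) intervalIntegrable_const,
    intervalIntegral.integral_const_mul, intervalIntegral.integral_const, smul_eq_mul, e6] at h1
  rw [e6] at hle
  have h4 := h.mean_growth x₀ hτ k
  rw [← hμ, ← hc] at h4
  have h5 : 4 * M * Ca * (2^k - 1) * Ω (2 * τ) ≤ 4 * m := by
    rw [hm]
    have : 4 * M * Ca * (2^k - 1) * Ω (2 * τ) = 4 * (M * (Ca * (2^k - 1) * Ω (2 * τ))) := by ring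
    rw [this]
    apply mul_le_mul_of_nonneg_left _ (by norm_num)
    apply mul_le_mul_of_nonneg_left _ hM.le
    apply mul_le_mul_of_nonneg_right _ hw.le
    apply mul_le_mul_of_nonneg_left _ (by linarith)
    linarith
  have h6 : ‖μ - c‖^2 ≤ (4 * m)^2 := pow_le_pow_left₀ (norm_nonneg _) (h4.trans h5) 2
  calc _ ≤ 2 * (96 * m^2 * (2^k * (2 * τ))) + 2^k * (2 * τ) * (2 * (4 * m)^2) := by
        refine h1.trans (add_le_add ?_ ?_)
        · linarith
        · apply mul_le_mul_of_nonneg_left _ (by positivity)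
          linarith
    _ = _ := by
        have : (8:ℝ)^k = 2^k * 2^k * 2^k := by rw [← mul_pow, ← mul_pow]; norm_num
        rw [this, hm]; ring

/-- summation over shells -/
lemma shell_sum {ψ W : ℝ → ℝ} (x₀ : ℝ) {τ : ℝ} (hτ : 0 < τ)
    (hψ : ∀ a b, IntervalIntegrable ψ volume a b) (h0 : ∀ x, 0 ≤ ψ x) (hW : Continuous W)
    {w : ℕ → ℝ} (hW0 : ∀ x, |x - x₀| ≤ τ → W x ≤ w 0)
    (hWk : ∀ k x, 2^k * τ ≤ |x - x₀| → |x - x₀| ≤ 2^(k+1) * τ → W x ≤ w (k+1))
    (hw : ∀ k, 0 ≤ w k) (K : ℕ) :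
    ∫ x in (x₀ - 2^K * τ)..(x₀ + 2^K * τ), ψ x * W x ≤
      ∑ k ∈ Finset.range (K+1), w k * ∫ x in (x₀ - 2^k * τ)..(x₀ + 2^k * τ), ψ x := by
  have hint : ∀ a b, IntervalIntegrable (fun x => ψ x * W x) volume a b := fun a b =>
    (hψ a b).mul_continuousOn hW.continuousOn
  induction K with
  | zero =>
    rw [Finset.sum_range_one, pow_zero, one_mul]
    rw [← intervalIntegral.integral_const_mul]
    apply intervalIntegral.integral_mono_on (by linarith) (hint _ _) ((hψ _ _).const_mul _)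
    intro x hx
    rw [mul_comm]
    apply mul_le_mul_of_nonneg_right _ (h0 x)
    apply hW0
    rw [abs_le]
    constructor
    · linarith [hx.1]
    · linarith [hx.2]
  | succ K ih =>
    rw [Finset.sum_range_succ]
    have h2k : (0:ℝ) < 2^K := by positivity
    have hs : (2:ℝ)^(K+1) * τ = 2^K * τ + 2^K * τ := by rw [pow_succ]; ring
    have hp : 0 < 2^K * τ := by positivity
    rw [← intervalIntegral.integral_add_adjacent_intervals
      (hint (x₀ - 2^(K+1) * τ) (x₀ - 2^K * τ)) (hint (x₀ - 2^K * τ) (x₀ + 2^(K+1) * τ)),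
      ← intervalIntegral.integral_add_adjacent_intervals
      (hint (x₀ - 2^K * τ) (x₀ + 2^K * τ)) (hint (x₀ + 2^K * τ) (x₀ + 2^(K+1) * τ))]
    rw [← intervalIntegral.integral_add_adjacent_intervals
      (hψ (x₀ - 2^(K+1) * τ) (x₀ - 2^K * τ)) (hψ (x₀ - 2^K * τ) (x₀ + 2^(K+1) * τ)),
      ← intervalIntegral.integral_add_adjacent_intervals
      (hψ (x₀ - 2^K * τ) (x₀ + 2^K * τ)) (hψ (x₀ + 2^K * τ) (x₀ + 2^(K+1) * τ))]
    have hL : ∫ x in (x₀ - 2^(K+1) * τ)..(x₀ - 2^K * τ), ψ x * W x ≤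
        w (K+1) * ∫ x in (x₀ - 2^(K+1) * τ)..(x₀ - 2^K * τ), ψ x := by
      rw [← intervalIntegral.integral_const_mul]
      apply intervalIntegral.integral_mono_on (by linarith) (hint _ _) ((hψ _ _).const_mul _)
      intro x hx
      rw [mul_comm]
      apply mul_le_mul_of_nonneg_right _ (h0 x)
      have hneg : x - x₀ ≤ 0 := by linarith [hx.2]
      apply hWk K
      · rw [abs_of_nonpos hneg]; linarith [hx.2]
      · rw [abs_of_nonpos hneg]; linarith [hx.1]
    have hR : ∫ x in (x₀ + 2^K * τ)..(x₀ + 2^(K+1) * τ), ψ x * W x ≤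
        w (K+1) * ∫ x in (x₀ + 2^K * τ)..(x₀ + 2^(K+1) * τ), ψ x := by
      rw [← intervalIntegral.integral_const_mul]
      apply intervalIntegral.integral_mono_on (by linarith) (hint _ _) ((hψ _ _).const_mul _)
      intro x hx
      rw [mul_comm]
      apply mul_le_mul_of_nonneg_right _ (h0 x)
      have hneg : 0 ≤ x - x₀ := by linarith [hx.1]
      apply hWk K
      · rw [abs_of_nonneg hneg]; linarith [hx.1]
      · rw [abs_of_nonneg hneg]; linarith [hx.2]
    have hM : 0 ≤ w (K+1) * ∫ x in (x₀ - 2^K * τ)..(x₀ + 2^K * τ), ψ x :=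
      mul_nonneg (hw _) (intervalIntegral.integral_nonneg (by linarith) (fun x _ => h0 x))
    rw [mul_add, mul_add]
    linarith

lemma geom_half_le (K : ℕ) : ∑ k ∈ Finset.range (K+1), ((1:ℝ)/2)^k ≤ 2 := by
  have h := (summable_geometric_of_lt_one (r := (1/2:ℝ)) (by norm_num) (by norm_num)).sum_le_tsum
    (Finset.range (K+1)) (fun _ _ => by positivity)
  rw [tsum_geometric_of_lt_one (by norm_num) (by norm_num)] at h
  norm_num at h ⊢
  linarith

/-- weighted `L¹` estimate with a cubic weight -/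
lemma RB.weighted1 (h : RB φ Ω M Ca) (x₀ : ℝ) {τ : ℝ} (hτ : 0 < τ) {W : ℝ → ℝ} (hW : Continuous W)
    {A : ℝ} (hA : 0 ≤ A) (hW0 : ∀ x, |x - x₀| ≤ τ → W x ≤ A / τ)
    (hWk : ∀ k : ℕ, ∀ x, 2^k * τ ≤ |x - x₀| → |x - x₀| ≤ 2^(k+1) * τ → W x ≤ A / (8^(k+1) * τ))
    (K : ℕ) :
    ∫ x in (x₀ - 2^K * τ)..(x₀ + 2^K * τ), ‖φ x - mean φ (x₀ - τ) (x₀ + τ)‖ * W x ≤
      20 * A * M * Ca * Ω (2 * τ) := by
  have hM := h.M0
  have hCa := h.Ca1
  have hw := h.pos (2 * τ) (by linarith)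
  have h1 := shell_sum x₀ hτ (ψ := fun x => ‖φ x - mean φ (x₀ - τ) (x₀ + τ)‖)
    (fun a b => h.li.sub_norm _ a b) (fun x => norm_nonneg _) hW (w := fun k => A / (8^k * τ))
    (by simpa using hW0) hWk (fun k => by positivity) K
  refine h1.trans ?_
  calc ∑ k ∈ Finset.range (K+1), A / (8^k * τ) *
        ∫ x in (x₀ - 2^k * τ)..(x₀ + 2^k * τ), ‖φ x - mean φ (x₀ - τ) (x₀ + τ)‖
      ≤ ∑ k ∈ Finset.range (K+1), (10 * A * M * Ca * Ω (2 * τ)) * (1/2)^k := by
        apply Finset.sum_le_sum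
        intro k _
        have h2 := h.l1_growth x₀ hτ k
        have h3 : A / (8^k * τ) * (10 * M * Ca * 4^k * τ * Ω (2 * τ)) =
            (10 * A * M * Ca * Ω (2 * τ)) * (1/2)^k := by
          have : (8:ℝ)^k = 4^k * 2^k := by rw [← mul_pow]; norm_num
          rw [this, one_div_pow]
          field_simp
        rw [← h3]
        exact mul_le_mul_of_nonneg_left h2 (by positivity)
    _ = (10 * A * M * Ca * Ω (2 * τ)) * ∑ k ∈ Finset.range (K+1), (1/2:ℝ)^k := by
        rw [Finset.mul_sum]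
    _ ≤ (10 * A * M * Ca * Ω (2 * τ)) * 2 :=
        mul_le_mul_of_nonneg_left (geom_half_le K) (by positivity)
    _ = _ := by ring

lemma tele (X : ℝ) (hX : 0 < X) (K : ℕ) :
    ∑ k ∈ Finset.range K, (2:ℝ)^k / (1 + (2^k / X)^2) ≤ 4 * X := by
  have key : ∀ y : ℝ, 0 < y → y / (1 + y^2) ≤ 4 * (2 * y / (1 + 2 * y) - y / (1 + y)) := by
    intro y hy
    have e : 2 * y / (1 + 2 * y) - y / (1 + y) = y / ((1 + 2 * y) * (1 + y)) := by
      field_simp; ring
    rw [e, mul_div_assoc', div_le_div_iff₀ (by positivity) (by positivity)]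
    nlinarith [sq_nonneg (y - 1), mul_pos hy hy, sq_nonneg y]
  have h1 : ∀ n : ℕ, ∑ k ∈ Finset.range n, (2:ℝ)^k / (1 + (2^k / X)^2) ≤
      4 * X * ((2^n / X) / (1 + 2^n / X)) := by
    intro n
    induction n with
    | zero => simp; positivity
    | succ n ih =>
      rw [Finset.sum_range_succ]
      have hy : 0 < (2:ℝ)^n / X := by positivity
      have h2 := key _ hy
      have e1 : (2:ℝ)^n / (1 + (2^n / X)^2) = X * ((2^n / X) / (1 + (2^n / X)^2)) := by
        field_simp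
      have e2 : (2:ℝ)^(n+1) / X = 2 * (2^n / X) := by rw [pow_succ]; ring
      rw [e1, e2]
      have h3 := mul_le_mul_of_nonneg_left h2 hX.le
      nlinarith
  refine (h1 K).trans ?_
  have h2 : ((2:ℝ)^K / X) / (1 + 2^K / X) ≤ 1 := by
    rw [div_le_one (by positivity)]; linarith
  nlinarith

/-- weighted `L²` estimate -/
lemma RB.weighted2 (h : RB φ Ω M Ca) (x₀ : ℝ) {τ : ℝ} (hτ : 0 < τ) {W : ℝ → ℝ} (hW : Continuous W)
    {A X : ℝ} (hA : 0 ≤ A) (hX : 0 < X) (hW0 : ∀ x, |x - x₀| ≤ τ → W x ≤ A / (τ * (1 + (1 / X)^2)))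
    (hWk : ∀ k : ℕ, ∀ x, 2^k * τ ≤ |x - x₀| → |x - x₀| ≤ 2^(k+1) * τ →
      W x ≤ A / (4^(k+1) * τ * (1 + (2^(k+1) / X)^2)))
    (K : ℕ) :
    ∫ x in (x₀ - 2^K * τ)..(x₀ + 2^K * τ), ‖φ x - mean φ (x₀ - τ) (x₀ + τ)‖^2 * W x ≤
      1792 * A * X * (M * Ca * Ω (2 * τ))^2 := by
  have hM := h.M0
  have hCa := h.Ca1
  have hw := h.pos (2 * τ) (by linarith)
  have hli : ∀ a b, IntervalIntegrable (fun x => ‖φ x - mean φ (x₀ - τ) (x₀ + τ)‖^2) volume a b := by
    intro a b
    obtain ⟨n, hn⟩ := pow_unbounded_of_one_lt (max (|a - x₀|) (|b - x₀|) / τ) (show (1:ℝ) < 2 by norm_num)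
    rw [div_lt_iff₀ hτ] at hn
    have ha : |a - x₀| ≤ 2^n * τ := (le_max_left _ _).trans hn.le
    have hb : |b - x₀| ≤ 2^n * τ := (le_max_right _ _).trans hn.le
    rw [abs_le] at ha hb
    apply (h.l2_growth x₀ hτ n).1.mono_set
    apply uIcc_subset_uIcc
    · rw [mem_uIcc]; left; constructor <;> linarith
    · rw [mem_uIcc]; left; constructor <;> linarith
  have h1 := shell_sum x₀ hτ (ψ := fun x => ‖φ x - mean φ (x₀ - τ) (x₀ + τ)‖^2)
    hli (fun x => by positivity) hW (w := fun k => A / (4^k * τ * (1 + (2^k / X)^2)))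
    (by simpa using hW0) hWk (fun k => by positivity) K
  refine h1.trans ?_
  calc ∑ k ∈ Finset.range (K+1), A / (4^k * τ * (1 + (2^k / X)^2)) *
        ∫ x in (x₀ - 2^k * τ)..(x₀ + 2^k * τ), ‖φ x - mean φ (x₀ - τ) (x₀ + τ)‖^2
      ≤ ∑ k ∈ Finset.range (K+1), (448 * A * (M * Ca * Ω (2 * τ))^2) *
          ((2:ℝ)^k / (1 + (2^k / X)^2)) := by
        apply Finset.sum_le_sum
        intro k _
        have h2 := (h.l2_growth x₀ hτ k).2
        have h3 : A / (4^k * τ * (1 + (2^k / X)^2)) * (448 * (M * Ca * Ω (2 * τ))^2 * 8^k * τ) =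
            (448 * A * (M * Ca * Ω (2 * τ))^2) * ((2:ℝ)^k / (1 + (2^k / X)^2)) := by
          have : (8:ℝ)^k = 4^k * 2^k := by rw [← mul_pow]; norm_num
          rw [this]
          have h5 : (0:ℝ) < 1 + (2^k / X)^2 := by positivity
          field_simp
        rw [← h3]
        exact mul_le_mul_of_nonneg_left h2 (by positivity)
    _ = (448 * A * (M * Ca * Ω (2 * τ))^2) *
          ∑ k ∈ Finset.range (K+1), (2:ℝ)^k / (1 + (2^k / X)^2) := by
        rw [Finset.mul_sum]
    _ ≤ (448 * A * (M * Ca * Ω (2 * τ))^2) * (4 * X) :=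
        mul_le_mul_of_nonneg_left (tele X hX (K+1)) (by positivity)
    _ = _ := by ring

/-- small-scale control propagates linearly to large scales -/
lemma chain (hφ : LI φ) {s m : ℝ} (hs : 0 < s) (hm : 0 < m)
    (H : ∀ a b, a < b → b - a ≤ s → ∫ x in a..b, ‖φ x - mean φ a b‖ ≤ m * (b - a)) :
    RB φ (fun l => max 1 (l / s) * m) 12 1 := by
  have key : ∀ h : ℝ, 0 < h → 2 * h ≤ s → ∀ j : ℕ, ∀ a : ℝ,
      ‖mean φ a (a + 2^j * h) - mean φ (a + 2^j * h) (a + 2^j * h + 2^j * h)‖ ≤ 4 * m * 2^j ∧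
      ∫ x in a..(a + 2^j * h), ‖φ x - mean φ a (a + 2^j * h)‖ ≤ (2^(j+1) * m) * (2^j * h) := by
    intro h hh hhs j
    -- half means
    have half : ∀ (a r : ℝ), 0 < r → mean φ a (a + r + r) =
        (mean φ a (a + r) + mean φ (a + r) (a + r + r)) / 2 := by
      intro a r hr
      unfold mean
      rw [← intervalIntegral.integral_add_adjacent_intervals (hφ a (a+r)) (hφ (a+r) (a+r+r))]
      have e1 : a + r + r - a = 2 * r := by ring
      have e2 : a + r - a = r := by ring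
      have e3 : a + r + r - (a + r) = r := by ring
      rw [e1, e2, e3]
      push_cast
      have : (r : ℂ) ≠ 0 := by exact_mod_cast hr.ne'
      field_simp
    induction j with
    | zero =>
      intro a
      rw [pow_zero, one_mul]
      have hu := H a (a + h + h) (by linarith) (by linarith)
      set μ := mean φ a (a + h + h) with hμ
      have i1 : ∫ x in a..(a+h), ‖φ x - μ‖ ≤ ∫ x in a..(a+h+h), ‖φ x - μ‖ :=
        integral_subset_le (fun a b => hφ.sub_norm _ a b) (fun x => norm_nonneg _) le_rfl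
          (by linarith) (by linarith)
      have i2 : ∫ x in (a+h)..(a+h+h), ‖φ x - μ‖ ≤ ∫ x in a..(a+h+h), ‖φ x - μ‖ :=
        integral_subset_le (fun a b => hφ.sub_norm _ a b) (fun x => norm_nonneg _) (by linarith)
          (by linarith) le_rfl
      have j1 := mean_sub_le hφ (show a < a + h by linarith) μ
      have j2 := mean_sub_le hφ (show a + h < a + h + h by linarith) μ
      rw [show a + h - a = h by ring] at j1
      rw [show a + h + h - (a + h) = h by ring] at j2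
      rw [show a + h + h - a = 2 * h by ring] at hu
      have k1 : ‖mean φ a (a+h) - μ‖ ≤ 2 * m := by
        by_contra hcon; push Not at hcon; nlinarith
      have k2 : ‖mean φ (a+h) (a+h+h) - μ‖ ≤ 2 * m := by
        by_contra hcon; push Not at hcon; nlinarith
      constructor
      · have e : mean φ a (a+h) - mean φ (a+h) (a+h+h) =
          (mean φ a (a+h) - μ) - (mean φ (a+h) (a+h+h) - μ) := by ring
        rw [e]
        refine (norm_sub_le _ _).trans ?_
        linarith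
      · have := H a (a+h) (by linarith) (by linarith)
        rw [show a + h - a = h by ring] at this
        refine this.trans ?_
        norm_num
        nlinarith
    | succ j ih =>
      intro a
      set r : ℝ := 2^j * h with hr
      have hr0 : 0 < r := by positivity
      have e1 : (2:ℝ)^(j+1) * h = r + r := by rw [pow_succ, hr]; ring
      rw [e1]
      have e2 : a + (r + r) = a + r + r := by ring
      have e3 : a + (r + r) + (r + r) = (a + r + r) + r + r := by ring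
      rw [e3, e2, half a r hr0, half (a + r + r) r hr0]
      obtain ⟨d1, o1⟩ := ih a
      obtain ⟨d2, o2⟩ := ih (a + r)
      obtain ⟨d3, o3⟩ := ih (a + r + r)
      constructor
      · set p := mean φ a (a+r)
        set q := mean φ (a+r) (a+r+r)
        set u := mean φ (a+r+r) (a+r+r+r)
        set v := mean φ (a+r+r+r) (a+r+r+r+r)
        have e : (p + q) / 2 - (u + v) / 2 = ((p - q) + 2 * (q - u) + (u - v)) / 2 := by ring
        rw [e, norm_div, Complex.norm_ofNat]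
        have n1 : ‖(p - q) + 2 * (q - u) + (u - v)‖ ≤ ‖p - q‖ + 2 * ‖q - u‖ + ‖u - v‖ := by
          refine norm_add₃_le.trans ?_
          rw [norm_mul, Complex.norm_ofNat]
        rw [div_le_iff₀ (by norm_num)]
        rw [pow_succ]
        linarith
      · set p := mean φ a (a+r)
        set q := mean φ (a+r) (a+r+r)
        rw [← intervalIntegral.integral_add_adjacent_intervals (hφ.sub_norm _ a (a+r))
          (hφ.sub_norm _ (a+r) (a+r+r))]
        have b1 : ∫ x in a..(a+r), ‖φ x - (p + q)/2‖ ≤ ∫ x in a..(a+r), (‖φ x - p‖ + ‖(p - q)/2‖) := by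
          apply intervalIntegral.integral_mono_on (by linarith) (hφ.sub_norm _ _ _)
            ((hφ.sub_norm _ _ _).add intervalIntegrable_const)
          intro x _
          have : φ x - (p + q)/2 = (φ x - p) + (p - q)/2 := by ring
          rw [this]; exact norm_add_le _ _
        have b2 : ∫ x in (a+r)..(a+r+r), ‖φ x - (p + q)/2‖ ≤
            ∫ x in (a+r)..(a+r+r), (‖φ x - q‖ + ‖(p - q)/2‖) := by
          apply intervalIntegral.integral_mono_on (by linarith) (hφ.sub_norm _ _ _)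
            ((hφ.sub_norm _ _ _).add intervalIntegrable_const)
          intro x _
          have : φ x - (p + q)/2 = (φ x - q) - (p - q)/2 := by ring
          rw [this]; exact norm_sub_le _ _
        rw [intervalIntegral.integral_add (hφ.sub_norm _ _ _) intervalIntegrable_const,
          intervalIntegral.integral_const, smul_eq_mul] at b1 b2
        rw [show a + r - a = r by ring] at b1
        rw [show a + r + r - (a + r) = r by ring] at b2
        have b3 : ‖(p - q)/2‖ ≤ 2 * m * 2^j := by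
          rw [norm_div, Complex.norm_ofNat, div_le_iff₀ (by norm_num)]
          linarith
        have b4 := mul_le_mul_of_nonneg_left b3 hr0.le
        calc _ ≤ (2^(j+1) * m) * r + r * (2 * m * 2^j) + ((2^(j+1) * m) * r + r * (2 * m * 2^j)) := by
              linarith
          _ = _ := by rw [pow_succ, pow_succ]; ring
  refine
    { li := hφ
      M0 := by norm_num
      Ca1 := le_rfl
      pos := fun l _ => by positivity
      mono := fun a b ha hab => ?_
      grow := fun K l hK hl => ?_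
      osc := fun a b hab => ?_ }
  · apply mul_le_mul_of_nonneg_right _ hm.le
    exact max_le_max le_rfl (div_le_div_of_nonneg_right hab hs.le)
  · have h1 : max 1 (K * l / s) ≤ K * max 1 (l / s) := by
      apply max_le
      · nlinarith [le_max_left 1 (l / s)]
      · rw [mul_div_assoc]
        exact mul_le_mul_of_nonneg_left (le_max_right _ _) (by linarith)
    calc max 1 (K * l / s) * m ≤ (K * max 1 (l / s)) * m := mul_le_mul_of_nonneg_right h1 hm.le
      _ = _ := by ring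
  · set l := b - a with hl
    have hl0 : 0 < l := by rw [hl]; linarith
    by_cases hls : l ≤ s
    · refine (H a b hab hls).trans ?_
      have h1 : (1:ℝ) ≤ max 1 (l / s) := le_max_left _ _
      apply mul_le_mul_of_nonneg_right _ hl0.le
      nlinarith
    · push Not at hls
      obtain ⟨n, hn1, hn2⟩ := exists_nat_pow_near (x := 2 * l / s) (y := 2)
        (by rw [le_div_iff₀ hs]; linarith) (by norm_num)
      have h1 := (key (l / 2^(n+1)) (by positivity) (by
        rw [← mul_div_assoc, div_le_iff₀ (by positivity)]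
        rw [div_lt_iff₀ hs] at hn2
        linarith) (n+1) a).2
      have e1 : (2:ℝ)^(n+1) * (l / 2^(n+1)) = l := by field_simp
      rw [e1] at h1
      have e2 : a + l = b := by rw [hl]; ring
      rw [e2] at h1
      refine h1.trans ?_
      apply mul_le_mul_of_nonneg_right _ hl0.le
      have h2 : (2:ℝ)^(n+1+1) ≤ 12 * (l / s) := by
        have : (2:ℝ)^(n+1+1) = 4 * 2^n := by rw [pow_succ, pow_succ]; ring
        rw [this]
        have h3 : 2 * l / s = 2 * (l / s) := by ring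
        rw [h3] at hn1
        have : 0 < l / s := by positivity
        linarith
      have h3 : l / s ≤ max 1 (l / s) := le_max_right _ _
      have h4 : (2:ℝ)^(n+1+1) * m ≤ 12 * (l / s) * m := mul_le_mul_of_nonneg_right h2 hm.le
      nlinarith

end Pool.Agent.Helper34.Bmo
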