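import Pool.Agent.Helper34.Bmo.Defs
import Pool.Agent.Helper34.Bmo.Line

set_option autoImplicit false

namespace Pool.Agent.Helper34.Bmo

open Complex Metric Set Filter Topology MeasureTheory ComplexConjugate

lemma norm_cp (θ : ℝ) : ‖cp θ‖ = 1 := Complex.norm_exp_ofReal_mul_I θ

lemma continuous_cp : Continuous cp := by unfold cp; fun_prop

lemma cp_periodic : Function.Periodic cp (2 * Real.pi) := by
  intro θ
  unfold cp
  rw [show ((θ + 2 * Real.pi : ℝ) : ℂ) * I = θ * I + 2 * Real.pi * I by push_cast; ring,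
    Complex.exp_add, Complex.exp_two_pi_mul_I, mul_one]

lemma cp_add (x y : ℝ) : cp (x + y) = cp x * cp y := by
  unfold cp; rw [← Complex.exp_add]; congr 1; push_cast; ring

lemma conj_cp (x : ℝ) : conj (cp x) = cp (-x) := by
  unfold cp
  rw [← Complex.exp_conj, map_mul, Complex.conj_I, Complex.conj_ofReal]
  congr 1; push_cast; ring

lemma cp_ne_zero (x : ℝ) : cp x ≠ 0 := Complex.exp_ne_zero _

lemma two_pi_pos' : (0:ℝ) < 2 * Real.pi := by positivity

lemma per_fun (f : ℂ → ℂ) : Function.Periodic (fun θ => f (cp θ)) (2 * Real.pi) := by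
  intro θ
  show f (cp (θ + 2 * Real.pi)) = f (cp θ)
  rw [cp_periodic]

lemma InL1.li {f : ℂ → ℂ} (h : InL1 f) : LI (fun θ => f (cp θ)) := fun a b =>
  (per_fun f).intervalIntegrable₀ two_pi_pos'.ne' h a b

/-- the Poisson kernel -/
noncomputable def pk (z : ℂ) (θ : ℝ) : ℝ := (1 - ‖z‖ ^ 2) / ‖cp θ - z‖ ^ 2

lemma cp_sub_ne {z : ℂ} (hz : ‖z‖ < 1) (θ : ℝ) : cp θ - z ≠ 0 := by
  intro h0
  have : ‖cp θ‖ = ‖z‖ := by rw [sub_eq_zero.1 h0]
  rw [norm_cp] at this
  linarith

lemma continuous_pk {z : ℂ} (hz : ‖z‖ < 1) : Continuous (pk z) := by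
  unfold pk
  apply Continuous.div continuous_const
  · exact ((continuous_cp.sub continuous_const).norm).pow 2
  · intro θ
    exact pow_ne_zero 2 (norm_ne_zero_iff.2 (cp_sub_ne hz θ))

lemma pk_nonneg {z : ℂ} (hz : ‖z‖ < 1) (θ : ℝ) : 0 ≤ pk z θ := by
  unfold pk
  apply div_nonneg _ (by positivity)
  nlinarith [norm_nonneg z]

lemma pk_pos {z : ℂ} (hz : ‖z‖ < 1) (θ : ℝ) : 0 < pk z θ := by
  unfold pk
  apply div_pos
  · nlinarith [norm_nonneg z]
  · have := norm_pos_iff.2 (cp_sub_ne hz θ)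
    positivity

lemma pk_le {z : ℂ} (hz : ‖z‖ < 1) (θ : ℝ) : pk z θ ≤ 2 / (1 - ‖z‖) := by
  unfold pk
  have h1 : 1 - ‖z‖ ≤ ‖cp θ - z‖ := by
    have := norm_sub_norm_le (cp θ) z
    rwa [norm_cp] at this
  have h2 : 0 < 1 - ‖z‖ := by linarith
  have h4 : 0 < ‖cp θ - z‖ := by linarith
  rw [div_le_div_iff₀ (by positivity) h2]
  have h3 : (1 - ‖z‖)^2 ≤ ‖cp θ - z‖^2 := pow_le_pow_left₀ h2.le h1 2
  nlinarith [norm_nonneg z]

lemma pk_periodic (z : ℂ) : Function.Periodic (pk z) (2 * Real.pi) := by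
  intro θ
  unfold pk
  rw [cp_periodic]

lemma circleMap_eq_cp (θ : ℝ) : circleMap 0 1 θ = cp θ := by simp [circleMap, cp]

lemma pk_eq (z : ℂ) (θ : ℝ) : poissonKernel 0 z (cp θ) = pk z θ := by
  simp only [poissonKernel_def, sub_zero, norm_cp, one_pow, pk]

/-- Poisson formula -/
lemma poisson_formula {h : ℂ → ℂ} (hh : DiffContOnCl ℂ h (ball 0 1)) {z : ℂ} (hz : ‖z‖ < 1) :
    (((2 * Real.pi)⁻¹ : ℝ) : ℂ) * ∫ θ in (0:ℝ)..(2 * Real.pi), ((pk z θ : ℝ) : ℂ) * h (cp θ) = h z := by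
  have h1 := hh.circleAverage_poissonKernel_smul (w := z) (by simpa using hz)
  rw [← h1, Real.circleAverage, Complex.real_smul]
  congr 1
  apply intervalIntegral.integral_congr
  intro θ _
  simp only [Pi.smul_apply', Complex.real_smul, circleMap_eq_cp, pk_eq]

lemma ext_eq (f : ℂ → ℂ) (z : ℂ) : ext f z =
    (((2 * Real.pi)⁻¹ : ℝ) : ℂ) * ∫ θ in (0 : ℝ)..(2 * Real.pi), ((pk z θ : ℝ) : ℂ) * f (cp θ) := rfl

lemma integral_pk {z : ℂ} (hz : ‖z‖ < 1) : ∫ θ in (0:ℝ)..(2 * Real.pi), pk z θ = 2 * Real.pi := by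
  have h1 := poisson_formula (h := fun _ => 1) diffContOnCl_const hz
  have h2 : ∫ θ in (0:ℝ)..(2 * Real.pi), ((pk z θ : ℝ) : ℂ) * 1 =
      ((∫ θ in (0:ℝ)..(2 * Real.pi), pk z θ : ℝ) : ℂ) := by
    simp only [mul_one]
    exact intervalIntegral.integral_ofReal
  rw [h2, ← Complex.ofReal_mul] at h1
  have h3 : (2 * Real.pi)⁻¹ * ∫ θ in (0:ℝ)..(2 * Real.pi), pk z θ = 1 := by exact_mod_cast h1
  have := two_pi_pos'
  field_simp at h3
  linarith

lemma LI.pk_mul {φ : ℝ → ℂ} (h : LI φ) {z : ℂ} (hz : ‖z‖ < 1) (a b : ℝ) :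
    IntervalIntegrable (fun θ => ((pk z θ : ℝ) : ℂ) * φ θ) volume a b := by
  have := (h a b).mul_continuousOn (g := fun θ => ((pk z θ : ℝ) : ℂ))
    (Complex.continuous_ofReal.comp (continuous_pk hz)).continuousOn
  exact this.congr (fun θ _ => by ring)

/-- `|ext f z| ≤ P[|f|](z)` -/
lemma norm_ext_le (f : ℂ → ℂ) {z : ℂ} (hz : ‖z‖ < 1) :
    ‖ext f z‖ ≤ (2 * Real.pi)⁻¹ * ∫ θ in (0:ℝ)..(2 * Real.pi), pk z θ * ‖f (cp θ)‖ := by
  rw [ext_eq, norm_mul, Complex.norm_real, Real.norm_eq_abs, abs_of_pos (by positivity)]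
  apply mul_le_mul_of_nonneg_left _ (by positivity)
  refine (intervalIntegral.norm_integral_le_integral_norm two_pi_pos'.le).trans (le_of_eq ?_)
  apply intervalIntegral.integral_congr
  intro θ _
  simp only
  rw [norm_mul, Complex.norm_real, Real.norm_eq_abs, abs_of_nonneg (pk_nonneg hz θ)]

/-- Analytic functions on a larger disc pair to zero with `H¹`. -/
lemma IsH1.pair_zero {f : ℂ → ℂ} (hf : IsH1 f) {h : ℂ → ℂ} {R : ℝ} (hR : 1 < R)
    (hh : DifferentiableOn ℂ h (ball 0 R)) {n : ℕ} (hn : 1 ≤ n) :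
    ∫ θ in (0:ℝ)..(2 * Real.pi), f (cp θ) * ((cp θ)^n * h (cp θ)) = 0 := by
  obtain ⟨R₁, hR₁, hR₁R⟩ := exists_between hR
  have hR₁0 : 0 < R₁ := by linarith
  set R' : NNReal := ⟨R₁, hR₁0.le⟩ with hR'
  have hps := (DifferentiableOn.hasFPowerSeriesOnBall (R := R') (c := 0) (f := h)
    (hh.mono (by
      intro z hz
      rw [mem_closedBall_zero_iff] at hz
      rw [mem_ball_zero_iff]
      exact lt_of_le_of_lt hz hR₁R)) (by exact_mod_cast hR₁0))
  set p := cauchyPowerSeries h 0 R' with hp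
  obtain ⟨R₂, hR₂, hR₂R⟩ := exists_between hR₁
  have hR₂0 : 0 < R₂ := by linarith
  set R'' : NNReal := ⟨R₂, hR₂0.le⟩ with hR''
  have hun := hps.tendstoUniformlyOn (r' := R'') (by
    have : R'' < R' := by exact_mod_cast hR₂R
    exact_mod_cast this)
  rw [Metric.tendstoUniformlyOn_iff] at hun
  have hLI : IntervalIntegrable (fun θ => ‖f (cp θ)‖) volume 0 (2 * Real.pi) := hf.1.norm
  set I₁ := ∫ θ in (0:ℝ)..(2 * Real.pi), ‖f (cp θ)‖ with hI₁
  have hI₁0 : 0 ≤ I₁ := intervalIntegral.integral_nonneg two_pi_pos'.le (fun _ _ => norm_nonneg _)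
  have hcont : ∀ g : ℂ → ℂ, ContinuousOn g (sphere 0 1) →
      IntervalIntegrable (fun θ => f (cp θ) * ((cp θ)^n * g (cp θ))) volume 0 (2 * Real.pi) := by
    intro g hg
    apply hf.1.mul_continuousOn
    apply ContinuousOn.mul ((continuous_cp.pow n).continuousOn)
    apply hg.comp continuous_cp.continuousOn
    intro θ _
    rw [mem_sphere_zero_iff_norm, norm_cp]
  have hhc : ContinuousOn h (sphere 0 1) := hh.continuousOn.mono (by
    intro z hz
    rw [mem_sphere_zero_iff_norm] at hz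
    rw [mem_ball_zero_iff, hz]; exact hR)
  have hpar : ∀ N, ∀ z : ℂ, p.partialSum N z = ∑ k ∈ Finset.range N, z^k * p.coeff k := by
    intro N z
    simp [FormalMultilinearSeries.partialSum, FormalMultilinearSeries.apply_eq_pow_smul_coeff]
  have hparc : ∀ N, ContinuousOn (fun z => p.partialSum N z) (sphere 0 1) := by
    intro N
    simp only [hpar]
    fun_prop
  have hzero : ∀ N, ∫ θ in (0:ℝ)..(2 * Real.pi), f (cp θ) * ((cp θ)^n * p.partialSum N (cp θ)) = 0 := by
    intro N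
    simp only [hpar]
    have e : (fun θ => f (cp θ) * ((cp θ)^n * ∑ k ∈ Finset.range N, (cp θ)^k * p.coeff k)) =
        fun θ => ∑ k ∈ Finset.range N, p.coeff k * (f (cp θ) * (cp θ)^(n + k)) := by
      funext θ
      rw [Finset.mul_sum, Finset.mul_sum]
      apply Finset.sum_congr rfl
      intro k _
      rw [pow_add]; ring
    rw [e, intervalIntegral.integral_finsetSum]
    · apply Finset.sum_eq_zero
      intro k _
      rw [intervalIntegral.integral_const_mul, hf.2 (n + k) (by omega), mul_zero]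
    · intro k _
      exact (hf.1.mul_continuousOn ((continuous_cp.pow (n+k)).continuousOn)).const_mul _
  by_contra hne
  set V := ∫ θ in (0:ℝ)..(2 * Real.pi), f (cp θ) * ((cp θ)^n * h (cp θ)) with hV
  have hVpos : 0 < ‖V‖ := norm_pos_iff.2 hne
  have hη : 0 < ‖V‖ / (I₁ + 1) / 2 := by positivity
  obtain ⟨N, hN⟩ := (hun _ hη).exists
  have h1 : V = ∫ θ in (0:ℝ)..(2 * Real.pi),
      f (cp θ) * ((cp θ)^n * (h (cp θ) - p.partialSum N (cp θ))) := by
    have := hzero N
    rw [hV, ← sub_zero (∫ θ in (0:ℝ)..(2 * Real.pi), f (cp θ) * ((cp θ)^n * h (cp θ))), ← this,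
      ← intervalIntegral.integral_sub (hcont h hhc) (hcont _ (hparc N))]
    apply intervalIntegral.integral_congr
    intro θ _
    simp only
    ring
  have h2 : ‖∫ θ in (0:ℝ)..(2 * Real.pi),
      f (cp θ) * ((cp θ)^n * (h (cp θ) - p.partialSum N (cp θ)))‖ ≤
      ∫ θ in (0:ℝ)..(2 * Real.pi), ‖f (cp θ)‖ * (‖V‖ / (I₁ + 1) / 2) := by
    refine intervalIntegral.norm_integral_le_of_norm_le two_pi_pos'.le ?_ (hLI.mul_const _)
    filter_upwards with θ _
    rw [norm_mul, norm_mul, norm_pow, norm_cp, one_pow, one_mul]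
    apply mul_le_mul_of_nonneg_left _ (norm_nonneg _)
    have h3 := hN (cp θ) (by rw [mem_ball_zero_iff, norm_cp]; exact_mod_cast hR₂)
    rw [zero_add, dist_eq_norm] at h3
    exact h3.le
  rw [intervalIntegral.integral_mul_const, ← h1] at h2
  have h3 : I₁ * (‖V‖ / (I₁ + 1) / 2) < ‖V‖ := by
    rw [div_div, mul_div_assoc', div_lt_iff₀ (by positivity)]
    nlinarith
  linarith

/-- The Poisson kernel on the circle in terms of Cauchy kernels. -/
lemma pk_cauchy {z : ℂ} (hz : ‖z‖ < 1) (θ : ℝ) :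
    ((pk z θ : ℝ) : ℂ) = cp θ / (cp θ - z) + conj z * cp θ / (1 - conj z * cp θ) := by
  have h1 := cp_sub_ne hz θ
  have h2 : (1 : ℂ) - conj z * cp θ ≠ 0 := by
    intro h0
    have : ‖conj z * cp θ‖ = 1 := by rw [← sub_eq_zero.1 h0, norm_one]
    rw [norm_mul, RCLike.norm_conj, norm_cp, mul_one] at this
    linarith
  have hc : cp θ * conj (cp θ) = 1 := by
    rw [Complex.mul_conj, Complex.normSq_eq_norm_sq, norm_cp]; simp
  have h3 : ((‖cp θ - z‖^2 : ℝ) : ℂ) = (cp θ - z) * (conj (cp θ) - conj z) := by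
    rw [← map_sub, Complex.mul_conj, Complex.normSq_eq_norm_sq]
  have h4 : ((‖z‖^2 : ℝ) : ℂ) = z * conj z := by
    rw [Complex.mul_conj, Complex.normSq_eq_norm_sq]
  have h5 : conj (cp θ) - conj z ≠ 0 := by
    rw [← map_sub]; exact (map_ne_zero _).2 h1
  unfold pk
  rw [Complex.ofReal_div, h3, Complex.ofReal_sub, h4, Complex.ofReal_one]
  rw [div_add_div _ _ h1 h2, div_eq_div_iff (mul_ne_zero h1 h5) (mul_ne_zero h1 h2)]
  have h6 : conj (cp θ) - conj z = conj (cp θ) * (1 - conj z * cp θ) := by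
    linear_combination (conj z) * hc
  rw [h6]
  linear_combination (-(cp θ - z) * (1 - conj z * cp θ) * (1 - z * conj z)) * hc

/-- multiplication by functions analytic across the circle -/
lemma IsH1.mul_analytic {f : ℂ → ℂ} (hf : IsH1 f) {h : ℂ → ℂ} {R : ℝ} (hR : 1 < R)
    (hh : DifferentiableOn ℂ h (ball 0 R)) :
    IsH1 (fun ζ => f ζ * h ζ) ∧ ∀ z : ℂ, ‖z‖ < 1 → ext (fun ζ => f ζ * h ζ) z = ext f z * h z := by
  have hhc : Continuous (fun θ => h (cp θ)) := by
    rw [continuous_iff_continuousAt]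
    intro θ
    have : ContinuousAt h (cp θ) := (hh.differentiableAt (isOpen_ball.mem_nhds (by
      rw [mem_ball_zero_iff, norm_cp]; exact hR))).continuousAt
    exact this.comp continuous_cp.continuousAt
  constructor
  · refine ⟨hf.1.mul_continuousOn hhc.continuousOn, fun n hn => ?_⟩
    rw [← hf.pair_zero hR hh hn]
    apply intervalIntegral.integral_congr
    intro θ _
    simp only
    ring
  · intro z hz
    set R' := min R (2 / (1 + ‖z‖)) with hR'
    have hz0 := norm_nonneg z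
    have hR'1 : 1 < R' := by
      apply lt_min hR
      rw [lt_div_iff₀ (by linarith)]; linarith
    set k : ℂ → ℂ := fun w => dslope h z w + (h w - h z) * conj z / (1 - conj z * w) with hk
    have hden : ∀ w ∈ ball (0:ℂ) R', 1 - conj z * w ≠ 0 := by
      intro w hw h0
      rw [mem_ball_zero_iff] at hw
      have h1 : ‖conj z * w‖ = 1 := by rw [← sub_eq_zero.1 h0, norm_one]
      rw [norm_mul, RCLike.norm_conj] at h1
      have h2 : ‖w‖ < 2 / (1 + ‖z‖) := lt_of_lt_of_le hw (min_le_right _ _)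
      rw [lt_div_iff₀ (by linarith)] at h2
      nlinarith [norm_nonneg w]
    have hh' : DifferentiableOn ℂ h (ball 0 R') := hh.mono (ball_subset_ball (min_le_left _ _))
    have hkd : DifferentiableOn ℂ k (ball 0 R') := by
      apply DifferentiableOn.add
      · rw [Complex.differentiableOn_dslope (isOpen_ball.mem_nhds (by
          rw [mem_ball_zero_iff]; linarith))]
        exact hh'
      · apply DifferentiableOn.div
        · exact (hh'.sub_const _).mul_const _
        · fun_prop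
        · exact hden
    have h1 := hf.pair_zero hR'1 hkd (n := 1) le_rfl
    have hker : ∀ θ : ℝ, f (cp θ) * ((cp θ)^1 * k (cp θ)) =
        ((pk z θ : ℝ) : ℂ) * (f (cp θ) * h (cp θ)) - h z * (((pk z θ : ℝ) : ℂ) * f (cp θ)) := by
      intro θ
      rw [pk_cauchy hz θ]
      have e1 := cp_sub_ne hz θ
      have e2 : (1 : ℂ) - conj z * cp θ ≠ 0 := hden _ (by rw [mem_ball_zero_iff, norm_cp]; exact hR'1)
      have e3 : cp θ ≠ z := sub_ne_zero.1 e1
      simp only [hk]
      rw [dslope_of_ne _ e3, slope_def_field]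
      field_simp
    simp only [hker] at h1
    have hfL := hf.1.li
    rw [intervalIntegral.integral_sub] at h1
    · rw [intervalIntegral.integral_const_mul] at h1
      rw [ext_eq, ext_eq]
      rw [sub_eq_zero] at h1
      rw [h1]; ring
    · have := (hfL.pk_mul hz 0 (2 * Real.pi)).mul_continuousOn hhc.continuousOn
      exact this.congr (fun θ _ => by ring)
    · exact (hfL.pk_mul hz 0 (2 * Real.pi)).const_mul _

end Pool.Agent.Helper34.Bmo
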