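import Pool.Agent.Helper34.Bmo.Circle

set_option autoImplicit false

namespace Pool.Agent.Helper34.Bmo

open Complex Metric Set Filter Topology MeasureTheory ComplexConjugate

lemma cont_dil {Ψ : ℂ → ℂ} (hd : DifferentiableOn ℂ Ψ (ball 0 1)) {r : ℝ} (hr : r ∈ Ioo (0:ℝ) 1) :
    Continuous fun θ : ℝ => Ψ ((r : ℂ) * cp θ) := by
  rw [continuous_iff_continuousAt]
  intro θ
  have h1 : ContinuousAt Ψ ((r : ℂ) * cp θ) :=
    (hd.differentiableAt (isOpen_ball.mem_nhds (by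
      rw [mem_ball_zero_iff, norm_mul, norm_cp, mul_one, Complex.norm_real, Real.norm_eq_abs,
        abs_of_pos hr.1]
      exact hr.2))).continuousAt
  have h2 : ContinuousAt (fun θ : ℝ => (r : ℂ) * cp θ) θ :=
    (continuous_const.mul continuous_cp).continuousAt
  exact ContinuousAt.comp (f := fun θ : ℝ => (r : ℂ) * cp θ) h1 h2

lemma mem_dil {r : ℝ} (hr : r ∈ Ioo (0:ℝ) 1) (θ : ℝ) : (r : ℂ) * cp θ ∈ ball (0:ℂ) 1 := by
  rw [mem_ball_zero_iff, norm_mul, norm_cp, mul_one, Complex.norm_real, Real.norm_eq_abs,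
    abs_of_pos hr.1]
  exact hr.2

lemma diff_dil {Ψ : ℂ → ℂ} (hd : DifferentiableOn ℂ Ψ (ball 0 1)) {r : ℝ} (hr : r ∈ Ioo (0:ℝ) 1) :
    DifferentiableOn ℂ (fun w => Ψ ((r : ℂ) * w)) (ball 0 (1/r)) := by
  intro w hw
  rw [mem_ball_zero_iff, lt_div_iff₀ hr.1] at hw
  apply DifferentiableAt.differentiableWithinAt
  have h1 : DifferentiableAt ℂ Ψ ((r : ℂ) * w) :=
    hd.differentiableAt (isOpen_ball.mem_nhds (by
      rw [mem_ball_zero_iff, norm_mul, Complex.norm_real, Real.norm_eq_abs, abs_of_pos hr.1]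
      linarith))
  exact h1.comp w (by fun_prop : DifferentiableAt ℂ (fun w : ℂ => (r : ℂ) * w) w)

lemma one_lt_inv {r : ℝ} (hr : r ∈ Ioo (0:ℝ) 1) : 1 < 1 / r := by
  rw [lt_div_iff₀ hr.1]; linarith [hr.2]

lemma Ioo_mem : Ioo (0:ℝ) 1 ∈ 𝓝[<] (1:ℝ) := Ioo_mem_nhdsLT (by norm_num)

lemma tendsto_dil {Ψ : ℂ → ℂ} (hd : DifferentiableOn ℂ Ψ (ball 0 1)) {z : ℂ} (hz : ‖z‖ < 1) :
    Tendsto (fun r : ℝ => Ψ ((r : ℂ) * z)) (𝓝[<] 1) (𝓝 (Ψ z)) := by
  have hc : ContinuousAt Ψ z :=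
    (hd.differentiableAt (isOpen_ball.mem_nhds (by simpa using hz))).continuousAt
  have h2 : Tendsto (fun r : ℝ => (r : ℂ) * z) (𝓝[<] 1) (𝓝 z) := by
    have : Tendsto (fun r : ℝ => (r : ℂ) * z) (𝓝 1) (𝓝 (((1:ℝ) : ℂ) * z)) :=
      (by fun_prop : Continuous fun r : ℝ => (r : ℂ) * z).tendsto 1
    simp only [Complex.ofReal_one, one_mul] at this
    exact this.mono_left nhdsWithin_le_nhds
  exact hc.tendsto.comp h2

/-- a bounded analytic function is the Poisson integral of its radial limits -/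
lemma repro {Ψ : ℂ → ℂ} (hd : DifferentiableOn ℂ Ψ (ball 0 1)) {M : ℝ}
    (hM : ∀ z ∈ ball (0:ℂ) 1, ‖Ψ z‖ ≤ M) {ψ : ℝ → ℂ}
    (hlim : ∀ᵐ θ : ℝ, Tendsto (fun r : ℝ => Ψ (r * cp θ)) (𝓝[<] 1) (𝓝 (ψ θ)))
    {z : ℂ} (hz : ‖z‖ < 1) :
    (((2 * Real.pi)⁻¹ : ℝ) : ℂ) * ∫ θ in (0:ℝ)..(2 * Real.pi), ((pk z θ : ℝ) : ℂ) * ψ θ = Ψ z := by
  have h1 : Tendsto (fun r : ℝ => (((2 * Real.pi)⁻¹ : ℝ) : ℂ) *
      ∫ θ in (0:ℝ)..(2 * Real.pi), ((pk z θ : ℝ) : ℂ) * Ψ (r * cp θ)) (𝓝[<] 1)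
      (𝓝 ((((2 * Real.pi)⁻¹ : ℝ) : ℂ) * ∫ θ in (0:ℝ)..(2 * Real.pi), ((pk z θ : ℝ) : ℂ) * ψ θ)) := by
    apply Tendsto.const_mul
    apply intervalIntegral.tendsto_integral_filter_of_dominated_convergence (fun θ => pk z θ * M)
    · filter_upwards [Ioo_mem] with r hr
      exact ((Complex.continuous_ofReal.comp (continuous_pk hz)).mul
        (cont_dil hd hr)).aestronglyMeasurable
    · filter_upwards [Ioo_mem] with r hr
      filter_upwards with θ _
      rw [norm_mul, Complex.norm_real, Real.norm_eq_abs, abs_of_nonneg (pk_nonneg hz θ)]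
      exact mul_le_mul_of_nonneg_left (hM _ (mem_dil hr θ)) (pk_nonneg hz θ)
    · exact ((continuous_pk hz).mul continuous_const).intervalIntegrable _ _
    · filter_upwards [hlim] with θ hθ _
      exact hθ.const_mul _
  have h2 : Tendsto (fun r : ℝ => (((2 * Real.pi)⁻¹ : ℝ) : ℂ) *
      ∫ θ in (0:ℝ)..(2 * Real.pi), ((pk z θ : ℝ) : ℂ) * Ψ (r * cp θ)) (𝓝[<] 1) (𝓝 (Ψ z)) := by
    refine (tendsto_dil hd hz).congr' ?_
    filter_upwards [Ioo_mem] with r hr
    have h3 : DiffContOnCl ℂ (fun w => Ψ ((r : ℂ) * w)) (ball 0 1) := by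
      apply DifferentiableOn.diffContOnCl
      rw [closure_ball _ one_ne_zero]
      exact (diff_dil hd hr).mono (closedBall_subset_ball (one_lt_inv hr))
    exact (poisson_formula h3 hz).symm
  exact tendsto_nhds_unique h1 h2

lemma IsInner.norm_le_one {Θ : ℂ → ℂ} (h : IsInner Θ) {z : ℂ} (hz : ‖z‖ < 1) : ‖Θ z‖ ≤ 1 := by
  obtain ⟨M, hM⟩ := h.bdd
  rw [← repro h.diff hM (h.bdry.mono fun θ hθ => hθ.2) hz, norm_mul, Complex.norm_real,
    Real.norm_eq_abs, abs_of_pos (by positivity)]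
  have h1 : ‖∫ θ in (0:ℝ)..(2 * Real.pi), ((pk z θ : ℝ) : ℂ) * Θ (cp θ)‖ ≤
      ∫ θ in (0:ℝ)..(2 * Real.pi), pk z θ := by
    apply intervalIntegral.norm_integral_le_of_norm_le two_pi_pos'.le
    · filter_upwards [h.bdry] with θ hθ _
      rw [norm_mul, hθ.1, Complex.norm_real, Real.norm_eq_abs, abs_of_nonneg (pk_nonneg hz θ), mul_one]
    · exact (continuous_pk hz).intervalIntegrable _ _
  rw [integral_pk hz] at h1
  rw [inv_mul_le_iff₀ two_pi_pos', mul_one]
  exact h1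

lemma IsInner.meas {Θ : ℂ → ℂ} (h : IsInner Θ) :
    AEStronglyMeasurable (fun θ : ℝ => Θ (cp θ)) volume := by
  have hr : ∀ k : ℕ, (1 - 1/((k:ℝ) + 2)) ∈ Ioo (0:ℝ) 1 := by
    intro k
    have hk : (0:ℝ) ≤ k := k.cast_nonneg
    have h1 : 1/((k:ℝ) + 2) ≤ 1/2 := one_div_le_one_div_of_le (by norm_num) (by linarith)
    have h2 : 0 < 1/((k:ℝ) + 2) := by positivity
    constructor <;> linarith
  have hlim : Tendsto (fun k : ℕ => 1 - 1/((k:ℝ) + 2)) atTop (𝓝[<] 1) := by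
    rw [tendsto_nhdsWithin_iff]
    constructor
    · have h1 : Tendsto (fun k : ℕ => 1/((k:ℝ) + 2)) atTop (𝓝 0) := by
        have h2 : Tendsto (fun k : ℕ => (k:ℝ) + 2) atTop atTop :=
          tendsto_atTop_add_const_right _ _ tendsto_natCast_atTop_atTop
        simp only [one_div]
        exact tendsto_inv_atTop_zero.comp h2
      simpa using h1.const_sub 1
    · exact Eventually.of_forall fun k => (hr k).2
  apply aestronglyMeasurable_of_tendsto_ae atTop
    (f := fun (k : ℕ) (θ : ℝ) => Θ (((1 - 1/((k:ℝ) + 2) : ℝ) : ℂ) * cp θ))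
  · intro k
    exact (cont_dil h.diff (hr k)).aestronglyMeasurable
  · filter_upwards [h.bdry] with θ hθ
    exact hθ.2.comp hlim

lemma InL1.mul_inner {f Θ : ℂ → ℂ} (hf : InL1 f) (h : IsInner Θ) : InL1 (fun ζ => f ζ * Θ ζ) := by
  unfold InL1 at hf ⊢
  apply hf.mono_fun
  · exact (intervalIntegrable_iff.1 hf).aestronglyMeasurable.mul h.meas.restrict
  · apply ae_restrict_of_ae
    filter_upwards [h.bdry] with θ hθ
    rw [norm_mul, hθ.1, mul_one]

/-- products of `H¹` functions and inner functions -/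
lemma IsH1.mul_inner {f Θ : ℂ → ℂ} (hf : IsH1 f) (h : IsInner Θ) :
    IsH1 (fun ζ => f ζ * Θ ζ) ∧
      ∀ z : ℂ, ‖z‖ < 1 → ext (fun ζ => f ζ * Θ ζ) z = ext f z * Θ z := by
  have hfm : AEStronglyMeasurable (fun θ => f (cp θ)) (volume.restrict (uIoc 0 (2 * Real.pi))) :=
    (intervalIntegrable_iff.1 hf.1).aestronglyMeasurable
  constructor
  · refine ⟨hf.1.mul_inner h, fun n hn => ?_⟩
    have h1 : Tendsto (fun r : ℝ => ∫ θ in (0:ℝ)..(2 * Real.pi),
        f (cp θ) * ((cp θ)^n * Θ (r * cp θ))) (𝓝[<] 1)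
        (𝓝 (∫ θ in (0:ℝ)..(2 * Real.pi), f (cp θ) * ((cp θ)^n * Θ (cp θ)))) := by
      apply intervalIntegral.tendsto_integral_filter_of_dominated_convergence (fun θ => ‖f (cp θ)‖)
      · filter_upwards [Ioo_mem] with r hr
        exact hfm.mul ((continuous_cp.pow n).mul (cont_dil h.diff hr)).aestronglyMeasurable
      · filter_upwards [Ioo_mem] with r hr
        filter_upwards with θ _
        rw [norm_mul, norm_mul, norm_pow, norm_cp, one_pow, one_mul]
        apply mul_le_of_le_one_right (norm_nonneg _)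
        exact h.norm_le_one (by simpa using mem_dil hr θ)
      · exact hf.1.norm
      · filter_upwards [h.bdry] with θ hθ _
        exact (hθ.2.const_mul _).const_mul _
    have h2 : Tendsto (fun r : ℝ => ∫ θ in (0:ℝ)..(2 * Real.pi),
        f (cp θ) * ((cp θ)^n * Θ (r * cp θ))) (𝓝[<] 1) (𝓝 0) := by
      refine tendsto_const_nhds.congr' ?_
      filter_upwards [Ioo_mem] with r hr
      exact (hf.pair_zero (one_lt_inv hr) (diff_dil h.diff hr) hn).symm
    have h3 := tendsto_nhds_unique h1 h2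
    rw [← h3]
    apply intervalIntegral.integral_congr
    intro θ _
    simp only
    ring
  · intro z hz
    have h1 : Tendsto (fun r : ℝ => ext (fun ζ => f ζ * Θ (r * ζ)) z) (𝓝[<] 1)
        (𝓝 (ext (fun ζ => f ζ * Θ ζ) z)) := by
      simp only [ext_eq]
      apply Tendsto.const_mul
      apply intervalIntegral.tendsto_integral_filter_of_dominated_convergence
        (fun θ => pk z θ * ‖f (cp θ)‖)
      · filter_upwards [Ioo_mem] with r hr
        exact (Complex.continuous_ofReal.comp (continuous_pk hz)).aestronglyMeasurable.mul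
          (hfm.mul (cont_dil h.diff hr).aestronglyMeasurable)
      · filter_upwards [Ioo_mem] with r hr
        filter_upwards with θ _
        rw [norm_mul, norm_mul, Complex.norm_real, Real.norm_eq_abs, abs_of_nonneg (pk_nonneg hz θ)]
        apply mul_le_mul_of_nonneg_left _ (pk_nonneg hz θ)
        apply mul_le_of_le_one_right (norm_nonneg _)
        exact h.norm_le_one (by simpa using mem_dil hr θ)
      · have := (hf.1.norm).mul_continuousOn (continuous_pk hz).continuousOn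
        exact this.congr (fun θ _ => by ring)
      · filter_upwards [h.bdry] with θ hθ _
        exact (hθ.2.const_mul _).const_mul _
    have h2 : Tendsto (fun r : ℝ => ext (fun ζ => f ζ * Θ (r * ζ)) z) (𝓝[<] 1)
        (𝓝 (ext f z * Θ z)) := by
      refine ((tendsto_dil h.diff hz).const_mul (ext f z)).congr' ?_
      filter_upwards [Ioo_mem] with r hr
      exact ((hf.mul_analytic (one_lt_inv hr) (diff_dil h.diff hr)).2 z hz).symm
    exact tendsto_nhds_unique h1 h2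

/-- quadratic mean inequality for the Poisson integral -/
lemma ext_sq {u : ℂ → ℂ} (hu : InL1 u)
    (hu2 : IntervalIntegrable (fun θ => ‖u (cp θ)‖^2) volume 0 (2 * Real.pi)) {w : ℂ} (hw : ‖w‖ < 1) :
    ‖ext u w‖^2 ≤ (2 * Real.pi)⁻¹ * ∫ θ in (0:ℝ)..(2 * Real.pi), pk w θ * ‖u (cp θ)‖^2 := by
  set E := (2 * Real.pi)⁻¹ * ∫ θ in (0:ℝ)..(2 * Real.pi), pk w θ * ‖u (cp θ)‖ with hE
  have h2π := two_pi_pos'
  have i1 : IntervalIntegrable (fun θ => pk w θ * ‖u (cp θ)‖) volume 0 (2 * Real.pi) :=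
    ((hu.norm).mul_continuousOn (continuous_pk hw).continuousOn).congr (fun θ _ => by ring)
  have i2 : IntervalIntegrable (fun θ => pk w θ * ‖u (cp θ)‖^2) volume 0 (2 * Real.pi) :=
    (hu2.mul_continuousOn (continuous_pk hw).continuousOn).congr (fun θ _ => by ring)
  have i3 : IntervalIntegrable (fun θ => pk w θ) volume 0 (2 * Real.pi) :=
    (continuous_pk hw).intervalIntegrable _ _
  have h1 : 0 ≤ ∫ θ in (0:ℝ)..(2 * Real.pi), pk w θ * (‖u (cp θ)‖ - E)^2 := by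
    apply intervalIntegral.integral_nonneg h2π.le
    intro θ _
    exact mul_nonneg (pk_nonneg hw θ) (sq_nonneg _)
  have h2 : ∫ θ in (0:ℝ)..(2 * Real.pi), pk w θ * (‖u (cp θ)‖ - E)^2 =
      (∫ θ in (0:ℝ)..(2 * Real.pi), pk w θ * ‖u (cp θ)‖^2) -
        2 * E * (∫ θ in (0:ℝ)..(2 * Real.pi), pk w θ * ‖u (cp θ)‖) + E^2 * (2 * Real.pi) := by
    have e : (fun θ => pk w θ * (‖u (cp θ)‖ - E)^2) = fun θ =>
        (pk w θ * ‖u (cp θ)‖^2 - 2 * E * (pk w θ * ‖u (cp θ)‖)) + E^2 * pk w θ := by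
      funext θ; ring
    rw [e, intervalIntegral.integral_add (i2.sub (i1.const_mul _)) (i3.const_mul _),
      intervalIntegral.integral_sub i2 (i1.const_mul _), intervalIntegral.integral_const_mul,
      intervalIntegral.integral_const_mul, integral_pk hw]
  have h3 : ∫ θ in (0:ℝ)..(2 * Real.pi), pk w θ * ‖u (cp θ)‖ = 2 * Real.pi * E := by
    rw [hE]; field_simp
  rw [h3] at h2
  have h4 : E^2 * (2 * Real.pi) ≤ ∫ θ in (0:ℝ)..(2 * Real.pi), pk w θ * ‖u (cp θ)‖^2 := by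
    nlinarith
  have h5 : ‖ext u w‖ ≤ E := norm_ext_le u hw
  have h6 : ‖ext u w‖^2 ≤ E^2 := pow_le_pow_left₀ (norm_nonneg _) h5 2
  rw [le_inv_mul_iff₀ h2π]
  nlinarith

/-- the Herglotz integral -/
lemma herglotz {ψ : ℂ → ℝ} (hψ : IntervalIntegrable (fun θ => ψ (cp θ)) volume 0 (2 * Real.pi)) :
    ∃ H : ℂ → ℂ, DifferentiableOn ℂ H (ball 0 1) ∧ ∀ w : ℂ, ‖w‖ < 1 →
      (H w).re = (2 * Real.pi)⁻¹ * ∫ θ in (0:ℝ)..(2 * Real.pi), pk w θ * ψ (cp θ) := by
  have hc : CircleIntegrable ψ 0 1 := by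
    show IntervalIntegrable (fun θ => ψ (circleMap 0 1 θ)) volume 0 (2 * Real.pi)
    simp only [circleMap_eq_cp]
    exact hψ
  have hc2 : CircleIntegrable (fun ζ => (ψ ζ : ℂ)) 0 1 := by
    show IntervalIntegrable (fun θ => ((ψ (circleMap 0 1 θ) : ℝ) : ℂ)) volume 0 (2 * Real.pi)
    have : IntervalIntegrable (fun θ => ψ (circleMap 0 1 θ)) volume 0 (2 * Real.pi) := hc
    rw [intervalIntegrable_iff] at this ⊢
    exact Complex.ofRealCLM.integrable_comp this
  refine ⟨fun w => Real.circleAverage (fun ζ => herglotzRieszKernel 0 w ζ • (ψ ζ : ℂ)) 0 1,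
    differentiableOn_circleAverage_herglotzRieszKernel_smul hc2, fun w hw => ?_⟩
  rw [re_circleAverage_herglotzRieszKernel_smul hc (by simpa using hw),
    ← poissonKernel_eq_re_herglotzRieszKernel, Real.circleAverage, smul_eq_mul]
  congr 1
  apply intervalIntegral.integral_congr
  intro θ _
  simp only [Pi.smul_apply', smul_eq_mul, circleMap_eq_cp, pk_eq]

end Pool.Agent.Helper34.Bmo
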