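import Pool.Agent.Helper34.Bmo.Suff2

set_option autoImplicit false

namespace Pool.Agent.Helper34.Bmo

open Complex Metric Set Filter Topology MeasureTheory ComplexConjugate

/-- the `L¹` norm (not normalised) -/
noncomputable def L1n (f : ℂ → ℂ) : ℝ := ∫ θ in (0:ℝ)..(2 * Real.pi), ‖f (cp θ)‖

lemma L1n_nonneg (f : ℂ → ℂ) : 0 ≤ L1n f :=
  intervalIntegral.integral_nonneg two_pi_pos'.le (fun _ _ => norm_nonneg _)

lemma norm_per (f : ℂ → ℂ) : Function.Periodic (fun θ => ‖f (cp θ)‖) (2 * Real.pi) := by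
  intro θ
  show ‖f (cp (θ + 2 * Real.pi))‖ = ‖f (cp θ)‖
  rw [cp_periodic]

lemma InL1.norm_int {f : ℂ → ℂ} (hf : InL1 f) (a b : ℝ) :
    IntervalIntegrable (fun θ => ‖f (cp θ)‖) volume a b := (hf.li a b).norm

lemma int_norm_period {f : ℂ → ℂ} (a : ℝ) : ∫ θ in a..(a + 2 * Real.pi), ‖f (cp θ)‖ = L1n f := by
  have := (norm_per f).intervalIntegral_add_eq a 0
  rw [this, zero_add]
  rfl

lemma int_norm_le {f : ℂ → ℂ} (hf : InL1 f) {a b : ℝ} (hab : a ≤ b) (hb : b - a ≤ 2 * Real.pi) :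
    ∫ θ in a..b, ‖f (cp θ)‖ ≤ L1n f := by
  rw [← int_norm_period a]
  exact integral_subset_le hf.norm_int (fun _ => norm_nonneg _) le_rfl hab (by linarith)

lemma int_norm_le' {f : ℂ → ℂ} (hf : InL1 f) {a b : ℝ} (hab : a ≤ b) :
    ∫ θ in a..b, ‖f (cp θ)‖ ≤ ((b - a) / (2 * Real.pi) + 1) * L1n f := by
  have hp := two_pi_pos'
  set n : ℕ := ⌊(b - a) / (2 * Real.pi)⌋₊ + 1 with hn
  have hx : 0 ≤ (b - a) / (2 * Real.pi) := div_nonneg (by linarith) hp.le
  have h1 : (b - a) / (2 * Real.pi) < n := by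
    rw [hn]; push_cast; exact Nat.lt_floor_add_one _
  have h2 : (n : ℝ) ≤ (b - a) / (2 * Real.pi) + 1 := by
    rw [hn]; push_cast
    linarith [Nat.floor_le hx]
  rw [div_lt_iff₀ hp] at h1
  have h3 := (norm_per f).intervalIntegral_add_zsmul_eq (n : ℤ) a hf.norm_int
  rw [int_norm_period] at h3
  have h4 : ∫ θ in a..b, ‖f (cp θ)‖ ≤ ∫ θ in a..(a + (n : ℤ) • (2 * Real.pi)), ‖f (cp θ)‖ := by
    apply integral_subset_le hf.norm_int (fun _ => norm_nonneg _) le_rfl hab
    simp only [zsmul_eq_mul, Int.cast_natCast]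
    linarith
  rw [h3] at h4
  refine h4.trans ?_
  simp only [zsmul_eq_mul, Int.cast_natCast]
  exact mul_le_mul_of_nonneg_right h2 (L1n_nonneg f)

lemma ext_small {f : ℂ → ℂ} (hf : InL1 f) {w : ℂ} (hw : ‖w‖ ≤ 1/2) : ‖ext f w‖ ≤ L1n f := by
  have hw1 : ‖w‖ < 1 := by linarith
  have h1 := norm_ext_le f hw1
  have h2 : ∫ θ in (0:ℝ)..(2 * Real.pi), pk w θ * ‖f (cp θ)‖ ≤
      ∫ θ in (0:ℝ)..(2 * Real.pi), 4 * ‖f (cp θ)‖ := by
    have hint : IntervalIntegrable (fun θ => pk w θ * ‖f (cp θ)‖) volume 0 (2 * Real.pi) := by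
      have := (hf.norm_int 0 (2 * Real.pi)).mul_continuousOn (g := pk w) (continuous_pk hw1).continuousOn
      exact this.congr (fun θ _ => by ring)
    apply intervalIntegral.integral_mono_on two_pi_pos'.le hint ((hf.norm_int _ _).const_mul 4)
    intro θ _
    apply mul_le_mul_of_nonneg_right _ (norm_nonneg _)
    refine (pk_le hw1 θ).trans ?_
    rw [div_le_iff₀ (by linarith)]
    linarith
  rw [intervalIntegral.integral_const_mul] at h2
  have h3 : (2 * Real.pi)⁻¹ * (4 * L1n f) ≤ L1n f := by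
    have h4 : (2 * Real.pi)⁻¹ * 4 ≤ 1 := by
      rw [inv_mul_le_iff₀ two_pi_pos']
      linarith [Real.pi_gt_three]
    calc (2 * Real.pi)⁻¹ * (4 * L1n f) = ((2 * Real.pi)⁻¹ * 4) * L1n f := by ring
      _ ≤ 1 * L1n f := mul_le_mul_of_nonneg_right h4 (L1n_nonneg f)
      _ = _ := one_mul _
  exact h1.trans ((mul_le_mul_of_nonneg_left h2 (by positivity)).trans h3)

/-- the modulus on the line -/
noncomputable def Om (ω : ℝ → ℝ) (l : ℝ) : ℝ := ω (min (l / (2 * Real.pi)) (1/2))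

lemma IsModulus.pos' {ω : ℝ → ℝ} (h : IsModulus ω) {t : ℝ} (h0 : 0 < t) (h1 : t < 1) : 0 < ω t :=
  h.pos t ⟨h0, h1⟩

lemma IsModulus.mono' {ω : ℝ → ℝ} (h : IsModulus ω) {s t : ℝ} (h0 : 0 < s) (h1 : s ≤ t) (h2 : t < 1) :
    ω s ≤ ω t := h.monotoneOn ⟨h0, by linarith⟩ ⟨by linarith, h2⟩ h1

lemma Om_eq {ω : ℝ → ℝ} {l : ℝ} (h : l ≤ Real.pi) : Om ω l = ω (l / (2 * Real.pi)) := by
  unfold Om
  rw [min_eq_left]
  rw [div_le_iff₀ two_pi_pos']; linarith

lemma Om_eq' {ω : ℝ → ℝ} {l : ℝ} (h : Real.pi ≤ l) : Om ω l = ω (1/2) := by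
  unfold Om
  rw [min_eq_right]
  rw [le_div_iff₀ two_pi_pos']; linarith

lemma rb_of_bmo {ω : ℝ → ℝ} (hω : IsModulus ω) {C : ℝ}
    (hC : ∀ s t : ℝ, 0 < s → s ≤ t → t ≤ 1 / 2 → ω t / t ≤ C * (ω s / s)) {f : ℂ → ℂ}
    (hf : InBMO ω f) : ∃ M : ℝ, RB (fun θ => f (cp θ)) (Om ω) M (max C 1) := by
  have hpi := Real.pi_pos
  obtain ⟨hL, C₀, hC₀⟩ := hf
  have hω2 : 0 < ω (1/2) := hω.pos' (by norm_num) (by norm_num)
  refine ⟨max (max C₀ (L1n f / ω (1/2))) 1, hL.li, by positivity, le_max_right _ _, ?_, ?_, ?_, ?_⟩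
  · intro l hl
    exact hω.pos' (lt_min (by positivity) (by norm_num)) (lt_of_le_of_lt (min_le_right _ _) (by norm_num))
  · intro s t hs hst
    apply hω.mono' (lt_min (by positivity) (by norm_num)) _
      (lt_of_le_of_lt (min_le_right _ _) (by norm_num))
    exact min_le_min (by gcongr) le_rfl
  · intro K l hK hl
    unfold Om
    set s := min (l / (2 * Real.pi)) (1/2) with hs
    set t := min (K * l / (2 * Real.pi)) (1/2) with ht
    have hs0 : 0 < s := lt_min (by positivity) (by norm_num)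
    have hst : s ≤ t := min_le_min (by gcongr; nlinarith) le_rfl
    have ht0 : 0 < t := hs0.trans_le hst
    have ht2 : t ≤ 1/2 := min_le_right _ _
    have htK : t ≤ K * s := by
      rw [hs, ht, mul_min_of_nonneg _ _ (by linarith : (0:ℝ) ≤ K)]
      apply min_le_min
      · rw [mul_div_assoc]
      · linarith
    have h1 := hC s t hs0 hst ht2
    have hωs : 0 < ω s := hω.pos' hs0 (by linarith)
    have h2 : ω t / t ≤ max C 1 * (ω s / s) :=
      h1.trans (mul_le_mul_of_nonneg_right (le_max_left _ _) (by positivity))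
    rw [div_le_iff₀ ht0] at h2
    calc ω t ≤ max C 1 * (ω s / s) * t := h2
      _ ≤ max C 1 * (ω s / s) * (K * s) := mul_le_mul_of_nonneg_left htK (by positivity)
      _ = _ := by field_simp
  · intro a b hab
    set M := max (max C₀ (L1n f / ω (1/2))) 1 with hM
    by_cases hc : b - a ≤ Real.pi
    · have h1 := hC₀ a b hab (by linarith)
      rw [Om_eq hc]
      have hba : 0 < b - a := by linarith
      rw [inv_mul_le_iff₀ hba] at h1
      have hωb : 0 < ω ((b - a) / (2 * Real.pi)) := hω.pos' (by positivity) (by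
        rw [div_lt_iff₀ two_pi_pos']; linarith)
      have h2 : C₀ * ω ((b - a) / (2 * Real.pi)) ≤ M * ω ((b - a) / (2 * Real.pi)) :=
        mul_le_mul_of_nonneg_right ((le_max_left _ _).trans (le_max_left _ _)) hωb.le
      calc _ ≤ (b - a) * (C₀ * ω ((b - a) / (2 * Real.pi))) := h1
        _ ≤ (b - a) * (M * ω ((b - a) / (2 * Real.pi))) := mul_le_mul_of_nonneg_left h2 hba.le
        _ = _ := by ring
    · push Not at hc
      rw [Om_eq' hc.le]
      have h1 := osc_le_two hL.li hab 0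
      simp only [sub_zero] at h1
      have h2 := int_norm_le' hL hab.le
      have h3 : L1n f ≤ M * ω (1/2) := by
        have : L1n f / ω (1/2) ≤ M := (le_max_right _ _).trans (le_max_left _ _)
        rwa [div_le_iff₀ hω2] at this
      have h4 : 2 * ((b - a) / (2 * Real.pi) + 1) ≤ b - a := by
        have e : 2 * ((b - a) / (2 * Real.pi) + 1) = (b - a) / Real.pi + 2 := by field_simp
        rw [e]
        have h5 : (b - a) / Real.pi ≤ (b - a) / 3 :=
          div_le_div_of_nonneg_left (by linarith) (by norm_num) Real.pi_gt_three.le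
        linarith [Real.pi_gt_three]
      calc _ ≤ 2 * (((b - a) / (2 * Real.pi) + 1) * L1n f) := h1.trans (by linarith)
        _ = (2 * ((b - a) / (2 * Real.pi) + 1)) * L1n f := by ring
        _ ≤ (b - a) * L1n f := mul_le_mul_of_nonneg_right h4 (L1n_nonneg f)
        _ ≤ (b - a) * (M * ω (1/2)) := mul_le_mul_of_nonneg_left h3 (by linarith)
        _ = _ := by ring

lemma bmo_of_small {ω : ℝ → ℝ} (hω : IsModulus ω) {g : ℂ → ℂ} (hg : InL1 g) {C : ℝ} (hC : 0 ≤ C)
    (h : ∀ a b : ℝ, a < b → b - a ≤ 1 →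
      ∫ x in a..b, ‖g (cp x) - mean (fun θ => g (cp θ)) a b‖ ≤ C * Om ω (b - a) * (b - a)) :
    InBMO ω g := by
  have hpi := Real.pi_pos
  have hpi3 := Real.pi_gt_three
  have hω1 : 0 < ω (1 / (2 * Real.pi)) := hω.pos' (by positivity) (by
    rw [div_lt_iff₀ two_pi_pos']; linarith)
  refine ⟨hg, C + 2 * L1n g / ω (1 / (2 * Real.pi)), ?_⟩
  intro a b hab hb
  have hba : 0 < b - a := by linarith
  have hωb : 0 < ω ((b - a) / (2 * Real.pi)) := hω.pos' (by positivity) (by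
    rw [div_lt_iff₀ two_pi_pos']; linarith)
  rw [inv_mul_le_iff₀ hba]
  have hA := L1n_nonneg g
  by_cases hc : b - a ≤ 1
  · have h1 := h a b hab hc
    rw [Om_eq (by linarith)] at h1
    have h2 : 0 ≤ 2 * L1n g / ω (1 / (2 * Real.pi)) * ω ((b - a) / (2 * Real.pi)) := by positivity
    calc _ ≤ C * ω ((b - a) / (2 * Real.pi)) * (b - a) := h1
      _ ≤ (C * ω ((b - a) / (2 * Real.pi)) +
          2 * L1n g / ω (1 / (2 * Real.pi)) * ω ((b - a) / (2 * Real.pi))) * (b - a) := by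
          apply mul_le_mul_of_nonneg_right _ hba.le
          linarith
      _ = _ := by ring
  · push Not at hc
    have h1 := osc_le_two hg.li hab 0
    simp only [sub_zero] at h1
    have h2 := int_norm_le hg hab.le hb.le
    have h3 : ω (1 / (2 * Real.pi)) ≤ ω ((b - a) / (2 * Real.pi)) :=
      hω.mono' (by positivity) (by gcongr) (by rw [div_lt_iff₀ two_pi_pos']; linarith)
    have h4 : 2 * L1n g ≤ 2 * L1n g / ω (1 / (2 * Real.pi)) * ω ((b - a) / (2 * Real.pi)) := by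
      rw [div_mul_eq_mul_div, le_div_iff₀ hω1]
      exact mul_le_mul_of_nonneg_left h3 (by positivity)
    have h5 : 0 ≤ C * ω ((b - a) / (2 * Real.pi)) := by positivity
    calc _ ≤ 2 * L1n g := h1.trans (by linarith)
      _ ≤ 1 * ((C + 2 * L1n g / ω (1 / (2 * Real.pi))) * ω ((b - a) / (2 * Real.pi))) := by
          rw [one_mul, add_mul]; linarith
      _ ≤ _ := by
          apply mul_le_mul_of_nonneg_right hc.le
          rw [add_mul]; positivity

/-- (iii) for one `ε` gives (ii) -/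
lemma ii_of_iii {ω : ℝ → ℝ} (hω : IsModulus ω) (hAD : AlmostDecreasing ω) {f Θ : ℂ → ℂ}
    (hf : InBMO ω f) (hf1 : IsH1 f) (hΘ : IsInner Θ) {ε : ℝ} (hε0 : 0 < ε) (hε1 : ε < 1)
    (hiii : CondIII ω f Θ ε) : InBMO ω (fun ζ => f ζ * Θ ζ) := by
  have hpi := Real.pi_pos
  have hpi3 := Real.pi_gt_three
  obtain ⟨C, hC⟩ := hAD
  obtain ⟨M, hM⟩ := rb_of_bmo hω hC hf
  obtain ⟨C₃, hC₃⟩ := hiii
  have hω2 : 0 < ω (1/2) := hω.pos' (by norm_num) (by norm_num)
  set N := max (max C₃ (L1n f / ω (1/2))) 1 with hN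
  obtain ⟨C₁, hC₁0, hC₁⟩ := star_of_iii hf1 hΘ hM hε0 hε1 (N := N) (le_max_right _ _) (by
    intro w hw hTw
    by_cases hc : ‖w‖ ≤ 1/2
    · rw [Om_eq' (by nlinarith)]
      refine (ext_small hf.1 hc).trans ?_
      have : L1n f / ω (1/2) ≤ N := (le_max_right _ _).trans (le_max_left _ _)
      rwa [div_le_iff₀ hω2] at this
    · push Not at hc
      have hw0 : w ≠ 0 := by rintro rfl; simp at hc; linarith
      have h1 := hC₃ w hw0 hw hTw
      have hωw : 0 < ω (1 - ‖w‖) := hω.pos' (by linarith) (by linarith)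
      rw [div_le_iff₀ hωw] at h1
      rw [Om_eq (by nlinarith), mul_div_cancel_left₀ _ two_pi_pos'.ne']
      exact h1.trans (mul_le_mul_of_nonneg_right ((le_max_left _ _).trans (le_max_left _ _)) hωw.le))
  obtain ⟨C', hC'0, hC'⟩ := bmo_of_star hf1 hΘ hM hC₁0 hC₁
  exact bmo_of_small hω (hf.1.mul_inner hΘ) hC'0 hC'

/-- (ii) gives (iii) for every `ε` -/
lemma iii_of_ii {ω : ℝ → ℝ} (hω : IsModulus ω) (hAD : AlmostDecreasing ω) {f Θ : ℂ → ℂ}
    (hf : InBMO ω f) (hf1 : IsH1 f) (hΘ : IsInner Θ) (hG : InBMO ω (fun ζ => f ζ * Θ ζ))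
    {ε : ℝ} (hε0 : 0 < ε) (hε1 : ε < 1) : CondIII ω f Θ ε := by
  have hpi := Real.pi_pos
  have hpi3 := Real.pi_gt_three
  obtain ⟨C, hC⟩ := hAD
  obtain ⟨M, hM⟩ := rb_of_bmo hω hC hf
  obtain ⟨M', hM'⟩ := rb_of_bmo hω hC hG
  have hω2 : 0 < ω (1/2) := hω.pos' (by norm_num) (by norm_num)
  have hM0 := hM.M0
  have hM0' := hM'.M0
  set D := (5120 * max C 1 + 1) * (M + M') with hD
  have hmax : (1:ℝ) ≤ max C 1 := le_max_right _ _
  have hD0 : 0 < D := by positivity
  refine ⟨max (D / (1 - ε)) (L1n f / ω (1/2)), ?_⟩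
  intro z hz hz1 hTz
  have hznorm : 0 < ‖z‖ := norm_pos_iff.2 hz
  have hωz : 0 < ω (1 - ‖z‖) := hω.pos' (by linarith) (by linarith)
  by_cases hc : ‖z‖ ≤ 1/2
  · refine le_trans ?_ (le_max_right _ _)
    exact div_le_div₀ (L1n_nonneg f) (ext_small hf.1 hc) hω2 (hω.mono' (by norm_num) (by linarith) (by linarith))
  · push Not at hc
    refine le_trans ?_ (le_max_left _ _)
    obtain ⟨x₀, hx₀⟩ := exists_zp hz1.le
    set τ := 1 - ‖z‖ with hτ
    have hτ0 : 0 < τ := by rw [hτ]; linarith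
    have hτ2 : τ ≤ 1/2 := by rw [hτ]; linarith
    have h1 := star_of_bmo hf1 hΘ hM hM' (x₀ := x₀) hτ0 hτ2
    rw [← hx₀, ← hD] at h1
    have h2 : Om ω (2 * τ) ≤ ω τ := by
      rw [Om_eq (by linarith)]
      apply hω.mono' (by positivity) _ (by linarith)
      rw [div_le_iff₀ two_pi_pos']
      nlinarith
    have h3 : ‖ext f z‖ * (1 - ε) ≤ D * ω τ := by
      calc _ ≤ ‖ext f z‖ * (1 - ‖Θ z‖) := by
            apply mul_le_mul_of_nonneg_left _ (norm_nonneg _); linarith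
        _ ≤ D * Om ω (2 * τ) := h1
        _ ≤ _ := mul_le_mul_of_nonneg_left h2 hD0.le
    rw [div_le_div_iff₀ hωz (by linarith)]
    exact h3

/-- conjugating the unimodular factor -/
lemma osc_conj {φ u : ℝ → ℂ} (hφ : LI φ) (hu : ∀ᵐ x : ℝ, ‖u x‖ = 1)
    (hum : AEStronglyMeasurable u volume) {a b : ℝ} (hab : a < b) :
    ∫ x in a..b, ‖φ x * conj (u x) - mean (fun x => φ x * conj (u x)) a b‖ ≤
      2 * (∫ x in a..b, ‖φ x * u x - mean (fun x => φ x * u x) a b‖) +
        6 * ∫ x in a..b, ‖φ x - mean φ a b‖ := by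
  have hu_li : LI u := by
    intro a b
    have h1 : IntervalIntegrable (fun _ : ℝ => (1:ℝ)) volume a b := intervalIntegrable_const
    apply h1.mono_fun
    · exact hum.restrict
    · filter_upwards [ae_restrict_of_ae hu] with θ hθ
      rw [hθ]; norm_num
  have hφu : ∀ v : ℝ → ℂ, (∀ᵐ x : ℝ, ‖v x‖ = 1) → AEStronglyMeasurable v volume →
      LI (fun x => φ x * v x) := by
    intro v hv hvm a b
    apply (hφ a b).mono_fun
    · exact (intervalIntegrable_iff.1 (hφ a b)).aestronglyMeasurable.mul hvm.restrict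
    · filter_upwards [ae_restrict_of_ae hv] with θ hθ
      rw [norm_mul, hθ, mul_one]
  have hcm : AEStronglyMeasurable (fun x => conj (u x)) volume :=
    Complex.continuous_conj.comp_aestronglyMeasurable hum
  have hc1 : ∀ᵐ x : ℝ, ‖conj (u x)‖ = 1 := by
    filter_upwards [hu] with x hx
    rw [RCLike.norm_conj, hx]
  have hG := hφu u hu hum
  have hGc := hφu _ hc1 hcm
  set m := mean φ a b with hm
  set c := mean u a b with hc
  set μ := mean (fun x => φ x * u x) a b with hμ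
  have hba : 0 < b - a := by linarith
  have h1 := osc_le_two hGc hab (m * conj c)
  have hμc : ‖μ - m * c‖ * (b - a) ≤ ∫ x in a..b, ‖φ x - m‖ := by
    have e1 : μ - m * c = mean (fun x => (φ x - m) * u x) a b := by
      rw [hμ, hc]
      unfold mean
      have : (fun x => (φ x - m) * u x) = fun x => φ x * u x - m * u x := by
        funext x; ring
      rw [this, intervalIntegral.integral_sub (hG a b) ((hu_li a b).const_mul m),
        intervalIntegral.integral_const_mul]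
      ring
    have hli : LI (fun x => (φ x - m) * u x) := by
      intro p q
      have := (hG p q).sub ((hu_li p q).const_mul m)
      exact this.congr (fun x _ => by ring)
    have e2 := mean_sub_le hli hab 0
    rw [sub_zero, ← e1] at e2
    refine e2.trans (le_of_eq ?_)
    apply intervalIntegral.integral_congr_ae
    filter_upwards [hu] with x hx _
    rw [sub_zero, norm_mul, hx, mul_one]
  have h2 : ∫ x in a..b, ‖φ x * conj (u x) - m * conj c‖ ≤
      ∫ x in a..b, (‖φ x * u x - μ‖ + 2 * ‖φ x - m‖ + ‖μ - m * c‖) := by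
    apply intervalIntegral.integral_mono_ae hab.le (hGc.sub_norm _ _ _)
      (((hG.sub_norm _ _ _).add ((hφ.sub_norm _ _ _).const_mul 2)).add intervalIntegrable_const)
    filter_upwards [hu] with x hx
    have k1 : ‖φ x * conj (u x) - m * conj c‖ ≤ ‖φ x - m‖ + ‖m * u x - m * c‖ := by
      have e : φ x * conj (u x) - m * conj c = (φ x - m) * conj (u x) + m * conj (u x - c) := by
        rw [map_sub]; ring
      rw [e]
      refine (norm_add_le _ _).trans ?_
      rw [norm_mul, RCLike.norm_conj, hx, mul_one, norm_mul, RCLike.norm_conj, ← norm_mul, mul_sub]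
    have k2 : ‖m * u x - m * c‖ ≤ ‖φ x * u x - μ‖ + ‖φ x - m‖ + ‖μ - m * c‖ := by
      have e : m * u x - m * c = (φ x * u x - μ) - (φ x - m) * u x + (μ - m * c) := by ring
      rw [e]
      refine (norm_add_le _ _).trans ?_
      apply add_le_add _ le_rfl
      refine (norm_sub_le _ _).trans ?_
      rw [norm_mul (φ x - m), hx, mul_one]
    show _ ≤ ‖φ x * u x - μ‖ + 2 * ‖φ x - m‖ + ‖μ - m * c‖
    linarith
  rw [intervalIntegral.integral_add ((hG.sub_norm _ _ _).add ((hφ.sub_norm _ _ _).const_mul 2))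
      intervalIntegrable_const,
    intervalIntegral.integral_add (hG.sub_norm _ _ _) ((hφ.sub_norm _ _ _).const_mul 2),
    intervalIntegral.integral_const_mul, intervalIntegral.integral_const, smul_eq_mul] at h2
  linarith

lemma bmo_conj {ω : ℝ → ℝ} {f v : ℂ → ℂ} (hf : InBMO ω f) (hv : ∀ᵐ θ : ℝ, ‖v (cp θ)‖ = 1)
    (hvm : AEStronglyMeasurable (fun θ : ℝ => v (cp θ)) volume)
    (h : InBMO ω (fun ζ => f ζ * v ζ)) : InBMO ω (fun ζ => f ζ * conj (v ζ)) := by
  obtain ⟨hL, C, hC⟩ := hf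
  obtain ⟨hL', C', hC'⟩ := h
  refine ⟨?_, 2 * C' + 6 * C, ?_⟩
  · have hcm : AEStronglyMeasurable (fun θ : ℝ => conj (v (cp θ))) volume :=
      Complex.continuous_conj.comp_aestronglyMeasurable hvm
    unfold InL1 at hL ⊢
    apply hL.mono_fun
    · exact (intervalIntegrable_iff.1 hL).aestronglyMeasurable.mul hcm.restrict
    · filter_upwards [ae_restrict_of_ae hv] with θ hθ
      rw [norm_mul, RCLike.norm_conj, hθ, mul_one]
  · intro a b hab hb
    have h1 := osc_conj hL.li hv hvm hab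
    have h2 := hC a b hab hb
    have h3 := hC' a b hab hb
    have hba : 0 < b - a := by linarith
    rw [inv_mul_le_iff₀ hba] at h2 h3 ⊢
    have e1 : ∀ g : ℂ → ℂ, arcMean g a b = mean (fun θ => g (cp θ)) a b := fun _ => rfl
    rw [e1] at h2 h3 ⊢
    calc _ ≤ _ := h1
      _ ≤ 2 * ((b - a) * (C' * ω ((b - a) / (2 * Real.pi)))) +
          6 * ((b - a) * (C * ω ((b - a) / (2 * Real.pi)))) := by
          apply add_le_add
          · exact mul_le_mul_of_nonneg_left h3 (by norm_num)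
          · exact mul_le_mul_of_nonneg_left h2 (by norm_num)
      _ = _ := by ring

/-- (i) and (ii) are equivalent for every modulus -/
lemma i_iff_ii {ω : ℝ → ℝ} {f Θ : ℂ → ℂ} (hf : InBMO ω f) (hΘ : IsInner Θ) :
    InBMO ω (fun ζ => f ζ * conj (Θ ζ)) ↔ InBMO ω (fun ζ => f ζ * Θ ζ) := by
  constructor
  · intro h
    have := bmo_conj (v := fun ζ => conj (Θ ζ)) hf (by
      filter_upwards [hΘ.bdry] with θ hθ
      rw [RCLike.norm_conj, hθ.1]) (Complex.continuous_conj.comp_aestronglyMeasurable hΘ.meas) h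
    simpa using this
  · intro h
    exact bmo_conj hf (by
      filter_upwards [hΘ.bdry] with θ hθ using hθ.1) hΘ.meas h

lemma inLinf_mul {f Θ : ℂ → ℂ} (hf : InLinf f) (hΘ : IsInner Θ) :
    InLinf (fun ζ => f ζ * Θ ζ) ∧ InLinf (fun ζ => f ζ * conj (Θ ζ)) := by
  obtain ⟨C, hC⟩ := hf
  constructor
  · refine ⟨C, ?_⟩
    filter_upwards [hC, hΘ.bdry] with θ h1 h2
    rw [norm_mul, h2.1, mul_one]; exact h1
  · refine ⟨C, ?_⟩
    filter_upwards [hC, hΘ.bdry] with θ h1 h2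
    rw [norm_mul, RCLike.norm_conj, h2.1, mul_one]; exact h1

/-- sufficiency -/
theorem div_of_ad {ω : ℝ → ℝ} (hω : IsModulus ω) (hAD : AlmostDecreasing ω) :
    DivisionProperty ω (InBMO ω) ∧ DivisionProperty ω (fun f => InBMO ω f ∧ InLinf f) := by
  constructor
  · intro f hf hf1 Θ hΘ
    tfae_have 1 → 2 := fun h => ⟨(i_iff_ii hf hΘ).1 h, (hf1.mul_inner hΘ).1⟩
    tfae_have 2 → 4 := fun h ε hε => iii_of_ii hω hAD hf hf1 hΘ h.1 hε.1 hε.2
    tfae_have 4 → 3 := fun h => ⟨1/2, by norm_num, h _ (by norm_num)⟩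
    tfae_have 3 → 1 := fun ⟨ε, hε, h⟩ => (i_iff_ii hf hΘ).2 (ii_of_iii hω hAD hf hf1 hΘ hε.1 hε.2 h)
    tfae_finish
  · intro f hf' hf1 Θ hΘ
    obtain ⟨hf, hfb⟩ := hf'
    obtain ⟨hb1, hb2⟩ := inLinf_mul hfb hΘ
    tfae_have 1 → 2 := fun h => ⟨⟨(i_iff_ii hf hΘ).1 h.1, hb1⟩, (hf1.mul_inner hΘ).1⟩
    tfae_have 2 → 4 := fun h ε hε => iii_of_ii hω hAD hf hf1 hΘ h.1.1 hε.1 hε.2
    tfae_have 4 → 3 := fun h => ⟨1/2, by norm_num, h _ (by norm_num)⟩
    tfae_have 3 → 1 := fun ⟨ε, hε, h⟩ =>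
      ⟨(i_iff_ii hf hΘ).2 (ii_of_iii hω hAD hf hf1 hΘ hε.1 hε.2 h), hb2⟩
    tfae_finish

end Pool.Agent.Helper34.Bmo
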