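import Pool.Agent.Helper34.Bw.NecA2
import Pool.Agent.Helper34.Bmo.Equiv

set_option autoImplicit false

namespace Pool.Agent.Helper34.Bw

open Complex Metric Set Filter Topology ComplexConjugate

/-- the Blaschke product of the counterexample -/
theorem construct {ω : ℝ → ℝ} (hω : IsModulus ω) (hna : ¬ AlmostDecreasing ω) {C₀ : ℝ}
    (hC₀ : 0 < C₀) (hC : ∀ t : ℝ, 0 < t → t ≤ 1 / 2 → t ≤ C₀ * ω t) :
    ∃ (β : ℕ → ℂ → ℂ) (c : ℕ → ℝ) (a : ℕ → ℂ) (s t : ℕ → ℝ), FS β c ∧
      (∀ n, 0 < s n ∧ s n ≤ t n ∧ t n ≤ 1/8 ∧ ((n : ℝ) + 1) * (ω (s n) / s n) < ω (t n) / t n ∧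
        ‖a n‖ = 1 - 2 * t n ∧ ω (t n) / 2 ≤ ‖1 - a n‖ ∧ bprod β (a n) = 0) ∧
      SFinite ω (fun z => 1 - z) (bprod β) (1/8) := by
  -- the sequence
  set K : ℕ → ℝ := fun n => 2^(n+5) with hK
  have hKpos : ∀ n, 0 < K n := fun n => by simp only [hK]; positivity
  have hK1 : ∀ n, 1 ≤ K n := fun n => by simp only [hK]; exact one_le_pow₀ (by norm_num)
  obtain ⟨g, hP, hR⟩ := exists_seq_strong (α := ℝ × ℝ)
    (fun n y => 0 < y.2 ∧ y.2 ≤ y.1 ∧ y.1 ≤ 1/8 ∧ ((n : ℝ) + 1) * (ω y.2 / y.2) < ω y.1 / y.1 ∧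
      16 * y.1 ≤ ω y.1 ∧ ω y.1 ≤ (1/2)^n / 16)
    (fun m x n y => K m * K n * (2 * y.1) < 2 * x.1) (by
      intro n g hg
      obtain ⟨τ, hτ, hτm⟩ := exists_pos_le n (fun m => (2 * (g m).1) / (K m * K n * 2)) (by
        intro m hm
        have h1 := hg m hm
        have h2 : 0 < (g m).1 := h1.1.trans_le h1.2.1
        have := hKpos m
        have := hKpos n
        positivity)
      obtain ⟨t, s, hs, hst, htτ, ht2, hN, hη⟩ := exists_scale hω hna hC₀ hC
        (max ((n : ℝ) + 1) (16 * C₀)) (τ := min τ (1/8)) (η := (1/2)^n / 16)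
        (lt_min hτ (by norm_num)) (by positivity)
      have ht0 : 0 < t := hs.trans_le hst
      have hωs : 0 < ω s / s := div_pos (hω.pos' hs (by linarith)) hs
      refine ⟨(t, s), ⟨hs, hst, (htτ.le.trans (min_le_right _ _)), ?_, ?_, hη⟩, ?_⟩
      · exact lt_of_le_of_lt (mul_le_mul_of_nonneg_right (le_max_left _ _) hωs.le) hN
      · have h1 : 1 / C₀ ≤ ω s / s := by
          rw [div_le_div_iff₀ hC₀ hs]
          have := hC s hs (hst.trans ht2)
          linarith
        have h2 : 16 * C₀ * (ω s / s) < ω t / t :=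
          lt_of_le_of_lt (mul_le_mul_of_nonneg_right (le_max_right _ _) hωs.le) hN
        have h3 : 16 ≤ 16 * C₀ * (ω s / s) := by
          calc (16:ℝ) = 16 * C₀ * (1 / C₀) := by field_simp
            _ ≤ _ := mul_le_mul_of_nonneg_left h1 (by positivity)
        have h4 : 16 < ω t / t := by linarith
        rw [lt_div_iff₀ ht0] at h4
        exact h4.le
      · intro m hm
        have h1 := hτm m hm
        have h2 : t < (2 * (g m).1) / (K m * K n * 2) := (htτ.trans_le (min_le_left _ _)).trans_le h1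
        have := hKpos m
        have := hKpos n
        rw [lt_div_iff₀ (by positivity)] at h2
        simp only
        linarith)
  set t : ℕ → ℝ := fun n => (g n).1 with ht
  set s : ℕ → ℝ := fun n => (g n).2 with hs
  have hs0 : ∀ n, 0 < s n := fun n => (hP n).1
  have hst : ∀ n, s n ≤ t n := fun n => (hP n).2.1
  have ht0 : ∀ n, 0 < t n := fun n => (hs0 n).trans_le (hst n)
  have ht8 : ∀ n, t n ≤ 1/8 := fun n => (hP n).2.2.1
  have hN : ∀ n : ℕ, ((n : ℝ) + 1) * (ω (s n) / s n) < ω (t n) / t n := fun n => (hP n).2.2.2.1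
  have h16 : ∀ n, 16 * t n ≤ ω (t n) := fun n => (hP n).2.2.2.2.1
  have hωn : ∀ n, ω (t n) ≤ (1/2)^n / 16 := fun n => (hP n).2.2.2.2.2
  have hωpos : ∀ n, 0 < ω (t n) := fun n => hω.pos' (ht0 n) (by linarith [ht8 n])
  have hω1 : ∀ n, ω (t n) ≤ 1 := fun n => (hωn n).trans (by
    have : ((1:ℝ)/2)^n ≤ 1 := pow_le_one₀ (by norm_num) (by norm_num)
    linarith)
  set δ : ℕ → ℝ := fun n => 2 * t n with hδ
  have hδ0 : ∀ n, 0 < δ n := fun n => by simp only [hδ]; linarith [ht0 n]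
  have hδ4 : ∀ n, δ n ≤ 1/4 := fun n => by simp only [hδ]; linarith [ht8 n]
  have hsep : ∀ m n, m < n → K m * K n * δ n < δ m := fun m n hmn => hR m n hmn
  set u : ℕ → ℂ := fun n => upt (ω (t n)) with hu
  have hu1 : ∀ n, ‖u n‖ = 1 := fun n => norm_upt _
  set a : ℕ → ℂ := fun n => ((1 - δ n : ℝ) : ℂ) * u n with ha
  have han : ∀ n, ‖a n‖ = 1 - δ n := by
    intro n
    simp only [ha]
    rw [norm_mul, hu1, mul_one, Complex.norm_real, Real.norm_eq_abs,
      abs_of_pos (by linarith [hδ4 n])]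
  have ha1 : ∀ n, ‖a n‖ < 1 := fun n => by rw [han]; linarith [hδ0 n]
  have hua : ∀ n, ‖u n - a n‖ = δ n := by
    intro n
    have : u n - a n = ((δ n : ℝ) : ℂ) * u n := by
      simp only [ha]; push_cast; ring
    rw [this, norm_mul, hu1, mul_one, Complex.norm_real, Real.norm_eq_abs, abs_of_pos (hδ0 n)]
  have h1a_le : ∀ n, ‖1 - a n‖ ≤ 3 * ω (t n) := by
    intro n
    have e1 : 1 - a n = (1 - u n) + (u n - a n) := by ring
    rw [e1]
    refine (norm_add_le _ _).trans ?_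
    rw [hua]
    have h1 := one_sub_upt_le (hωpos n).le
    have h2 := h16 n
    have h3 := ht0 n
    simp only [hδ, hu] at *
    linarith
  have h1a_ge : ∀ n, ω (t n) / 2 ≤ ‖1 - a n‖ := by
    intro n
    have e1 : 1 - u n = (1 - a n) - (u n - a n) := by ring
    have h1 := le_one_sub_upt (hωpos n).le (hω1 n)
    have h2 := h16 n
    have h3 := ht0 n
    have h4 : ‖1 - u n‖ ≤ ‖1 - a n‖ + ‖u n - a n‖ := by rw [e1]; exact norm_sub_le _ _
    rw [hua] at h4
    simp only [hδ, hu] at *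
    linarith
  -- the factors
  set β : ℕ → ℂ → ℂ := fun n z => bfac (u n) (a n) z with hβ
  have hβn : ∀ n z, ‖β n z‖ = ‖mob (a n) z‖ := fun n z => norm_bfac (hu1 n)
  set c : ℕ → ℝ := fun n => 2 * (δ n + ‖1 - a n‖) with hc
  have hFS : FS β c := by
    refine ⟨?_, ?_, ?_, ?_, ?_, ?_⟩
    · intro k z hz
      exact (differentiableAt_mob (ha1 k) hz).const_mul _
    · intro k z hz
      rw [hβn]; exact norm_mob_le (ha1 k) hz
    · intro k z hz
      rw [hβn]; exact norm_mob_eq_one (ha1 k) hz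
    · intro k z hz hz1
      have := bfac_sub_one (hu1 k) (ρ := 1 - δ k) (by linarith [hδ4 k]) (by linarith [hδ0 k]) hz hz1
      rw [sub_sub_cancel] at this
      exact this
    · intro k
      simp only [hc]
      have := hδ0 k
      positivity
    · apply Summable.of_nonneg_of_le (f := fun n : ℕ => (1/2 : ℝ)^n)
      · intro k
        simp only [hc]
        have := hδ0 k
        positivity
      · intro k
        have h1 := h1a_le k
        have h2 := h16 k
        have h3 := hωn k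
        have h4 : (0:ℝ) < (1/2)^k := by positivity
        simp only [hc, hδ]
        linarith
      · exact summable_geometric_two
  have hmobsq : ∀ n z, ‖z‖ ≤ 1 → 1 - ‖β n z‖ ≤ 1 - ‖mob (a n) z‖^2 := by
    intro n z hz
    rw [hβn]
    have := norm_mob_le (ha1 n) hz
    nlinarith [norm_nonneg (mob (a n) z)]
  have hKval : ∀ n, 4 / K n = (1/2)^(n+3) := by
    intro n
    simp only [hK]
    rw [pow_add, pow_add]
    rw [div_eq_iff (by positivity)]
    have : ((1:ℝ)/2)^n * 2^n = 1 := by rw [← mul_pow]; norm_num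
    nlinarith
  have hoff : ∀ n z, ‖z‖ < 1 → ¬ (δ n / K n ≤ 1 - ‖z‖ ∧ 1 - ‖z‖ ≤ K n * δ n) →
      1 - (1/2)^(n+3) ≤ ‖β n z‖ := by
    intro n z hz hw
    have h1 := off_window (ha1 n) hz (hKpos n) (by rw [han, sub_sub_cancel]; exact hw)
    have h2 := hmobsq n z hz.le
    rw [hKval] at h1
    linarith
  have hx0 : ∀ n : ℕ, (0:ℝ) ≤ (1/2)^(n+3) := fun n => by positivity
  have hx1 : ∀ n : ℕ, ((1:ℝ)/2)^(n+3) ≤ 1 := fun n => pow_le_one₀ (by norm_num) (by norm_num)
  -- lower bound away from the zeros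
  have hlower : ∀ z : ℂ, ‖z‖ < 1 → (∀ n, 1/4 ≤ ‖mob (a n) z‖) → 1/8 ≤ ‖bprod β z‖ := by
    intro z hz hall
    have hz1 : z ≠ 1 := by rintro rfl; simp at hz
    obtain ⟨k, hk⟩ := window_unique hKpos hsep (1 - ‖z‖)
    have := hFS.lower' hz.le hz1 hx0 hx1 hasSum_geo8 k (fun i hi => hoff i z hz (hk i hi))
      (by norm_num) (q := 1/4) (by rw [hβn]; exact hall k)
    linarith
  refine ⟨β, c, a, s, t, hFS, fun n => ⟨hs0 n, hst n, ht8 n, hN n, han n, h1a_ge n, ?_⟩, ?_⟩
  · have han1 : ‖a n‖ ≤ 1 := (ha1 n).le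
    have hane : a n ≠ 1 := by
      intro h0; have := ha1 n; rw [h0, norm_one] at this; linarith
    rw [hFS.split n han1 hane]
    have hβ0 : β n (a n) = 0 := by simp [hβ, bfac, mob_self]
    rw [hβ0, zero_mul]
  · refine ⟨4, ?_⟩
    intro z hz hz1 hzε
    have hωz : 0 < ω (1 - ‖z‖) := hω.pos' (by linarith) (by linarith [norm_pos_iff.2 hz])
    rw [div_le_iff₀ hωz]
    by_contra hcon
    have : 1/8 ≤ ‖bprod β z‖ := by
      apply hlower z hz1
      intro n
      by_contra hn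
      push Not at hn
      apply hcon
      obtain ⟨e1, e2⟩ := close_of_mob (ha1 n) hz1 (by norm_num : (0:ℝ) ≤ 1/4) (by norm_num) hn.le
      rw [han] at e1 e2
      have hd := hδ0 n
      have hd4 := hδ4 n
      have e3 : t n ≤ 1 - ‖z‖ := by
        have h1 : 1 - ‖z‖^2 ≤ 2 * (1 - ‖z‖) := one_sub_sq_le _
        have h2 : t n = δ n / 2 := by simp only [hδ]; ring
        rw [h2]
        nlinarith
      have e4 : ‖z - a n‖ ≤ δ n := by
        refine e1.trans ?_
        nlinarith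
      have e5 : ω (t n) ≤ ω (1 - ‖z‖) := hω.mono' (ht0 n) e3 (by linarith [norm_pos_iff.2 hz])
      have e6 : ‖1 - z‖ ≤ ‖1 - a n‖ + ‖z - a n‖ := by
        have : 1 - z = (1 - a n) - (z - a n) := by ring
        rw [this]; exact norm_sub_le _ _
      have e7 := h1a_le n
      have e8 := h16 n
      have e9 : δ n = 2 * t n := rfl
      linarith [ht0 n]
    linarith

end Pool.Agent.Helper34.Bw
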