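import Mathlib

set_option autoImplicit false

namespace Pool.Agent.Helper34.Bmo

open Complex Metric Set Filter Topology MeasureTheory ComplexConjugate

/-- A continuity modulus: a continuous, non-decreasing, positive function on `(0,1)`. -/
structure IsModulus (ω : ℝ → ℝ) : Prop where
  continuousOn : ContinuousOn ω (Set.Ioo 0 1)
  monotoneOn : MonotoneOn ω (Set.Ioo 0 1)
  pos : ∀ t ∈ Set.Ioo (0 : ℝ) 1, 0 < ω t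

/-- the point `e^{iθ}` of the unit circle -/
noncomputable def cp (θ : ℝ) : ℂ := exp (θ * I)

/-- `f ∈ L¹(𝕋)` (only the values of `f` on the unit circle matter) -/
def InL1 (f : ℂ → ℂ) : Prop := IntervalIntegrable (fun θ => f (cp θ)) volume 0 (2 * Real.pi)

/-- `f ∈ L^∞(𝕋)` -/
def InLinf (f : ℂ → ℂ) : Prop := ∃ C : ℝ, ∀ᵐ θ : ℝ, ‖f (cp θ)‖ ≤ C

/-- the mean of `f` over the open arc `{e^{iθ} : a < θ < b}` -/
noncomputable def arcMean (f : ℂ → ℂ) (a b : ℝ) : ℂ :=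
  (((b - a)⁻¹ : ℝ) : ℂ) * ∫ θ in a..b, f (cp θ)

/-- `f ∈ BMO_ω`. The open arc `I = {e^{iθ} : a < θ < b}`, `0 < b - a < 2π`, has normalised length
`|I| = (b - a) / 2π`. -/
def InBMO (ω : ℝ → ℝ) (f : ℂ → ℂ) : Prop :=
  InL1 f ∧ ∃ C : ℝ, ∀ a b : ℝ, a < b → b - a < 2 * Real.pi →
    (b - a)⁻¹ * ∫ θ in a..b, ‖f (cp θ) - arcMean f a b‖ ≤ C * ω ((b - a) / (2 * Real.pi))

/-- `f ∈ H¹`: `f ∈ L¹(𝕋)` and the Fourier coefficients of `f` of negative index vanish -/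
def IsH1 (f : ℂ → ℂ) : Prop :=
  InL1 f ∧ ∀ n : ℕ, 1 ≤ n → ∫ θ in (0 : ℝ)..(2 * Real.pi), f (cp θ) * (cp θ) ^ n = 0

/-- the Poisson extension of `f ∈ L¹(𝕋)` to the open unit disc -/
noncomputable def ext (f : ℂ → ℂ) (z : ℂ) : ℂ :=
  (((2 * Real.pi)⁻¹ : ℝ) : ℂ) *
    ∫ θ in (0 : ℝ)..(2 * Real.pi), (((1 - ‖z‖ ^ 2) / ‖cp θ - z‖ ^ 2 : ℝ) : ℂ) * f (cp θ)

/-- `Θ` is an inner function: bounded and analytic in the open unit disc, the values of `Θ` on the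
unit circle are almost everywhere its radial limits, and these have modulus `1` -/
structure IsInner (Θ : ℂ → ℂ) : Prop where
  diff : DifferentiableOn ℂ Θ (ball 0 1)
  bdd : ∃ M : ℝ, ∀ z ∈ ball (0 : ℂ) 1, ‖Θ z‖ ≤ M
  bdry : ∀ᵐ θ : ℝ, ‖Θ (cp θ)‖ = 1 ∧
    Tendsto (fun r : ℝ => Θ (r * cp θ)) (𝓝[<] 1) (𝓝 (Θ (cp θ)))

/-- condition `(iii_ε)`: the supremum of `|f(z)| / ω(1 - |z|)` over the `z ≠ 0` in the open unit
disc with `|Θ(z)| < ε` is finite (`f` is extended to the disc by its Poisson integral) -/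
def CondIII (ω : ℝ → ℝ) (f Θ : ℂ → ℂ) (ε : ℝ) : Prop :=
  ∃ C : ℝ, ∀ z : ℂ, z ≠ 0 → ‖z‖ < 1 → ‖Θ z‖ < ε → ‖ext f z‖ / ω (1 - ‖z‖) ≤ C

/-- the division property of `(ω, X)` -/
def DivisionProperty (ω : ℝ → ℝ) (X : (ℂ → ℂ) → Prop) : Prop :=
  ∀ f : ℂ → ℂ, X f → IsH1 f → ∀ Θ : ℂ → ℂ, IsInner Θ →
    List.TFAE [X (fun ζ => f ζ * conj (Θ ζ)),
      X (fun ζ => f ζ * Θ ζ) ∧ IsH1 (fun ζ => f ζ * Θ ζ),
      ∃ ε ∈ Set.Ioo (0 : ℝ) 1, CondIII ω f Θ ε,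
      ∀ ε ∈ Set.Ioo (0 : ℝ) 1, CondIII ω f Θ ε]

/-- `ω(t)/t` is almost decreasing on `(0, 1/2]`. -/
def AlmostDecreasing (ω : ℝ → ℝ) : Prop :=
  ∃ C : ℝ, ∀ s t : ℝ, 0 < s → s ≤ t → t ≤ 1 / 2 → ω t / t ≤ C * (ω s / s)

end Pool.Agent.Helper34.Bmo
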