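import Pool.Agent.Helper34.Bmo.Point

set_option autoImplicit false

namespace Pool.Agent.Helper34.Bmo

open Complex Metric Set Filter Topology MeasureTheory ComplexConjugate

lemma RB.sq_int {φ : ℝ → ℂ} {Ω : ℝ → ℝ} {M Ca : ℝ} (h : RB φ Ω M Ca) (c : ℂ) (a b : ℝ) :
    IntervalIntegrable (fun x => ‖φ x - c‖^2) volume a b := by
  obtain ⟨n, hn⟩ := pow_unbounded_of_one_lt (max |a| |b|) (show (1:ℝ) < 2 by norm_num)
  have ha : |a| ≤ 2^n * 1 := by rw [mul_one]; exact (le_max_left _ _).trans hn.le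
  have hb : |b| ≤ 2^n * 1 := by rw [mul_one]; exact (le_max_right _ _).trans hn.le
  rw [abs_le] at ha hb
  have h1 := (h.l2_growth 0 one_pos n).1
  have h2 : IntervalIntegrable (fun x => ‖φ x - mean φ (0 - 1) (0 + 1)‖^2) volume a b := by
    apply h1.mono_set
    apply uIcc_subset_uIcc
    · rw [mem_uIcc]; left; constructor <;> linarith
    · rw [mem_uIcc]; left; constructor <;> linarith
  set μ := mean φ (0 - 1) (0 + 1) with hμ
  have h3 : IntervalIntegrable (fun x => 2 * ‖φ x - μ‖^2 + 2 * ‖μ - c‖^2) volume a b :=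
    (h2.const_mul 2).add intervalIntegrable_const
  apply h3.mono_fun
  · exact ((intervalIntegrable_iff.1 (h.li.sub_norm c a b)).aestronglyMeasurable).pow 2
  · filter_upwards with x
    rw [Real.norm_eq_abs, Real.norm_eq_abs, abs_of_nonneg (by positivity),
      abs_of_nonneg (by positivity)]
    have e : φ x - c = (φ x - μ) + (μ - c) := by ring
    have e2 : ‖φ x - c‖ ≤ ‖φ x - μ‖ + ‖μ - c‖ := by rw [e]; exact norm_add_le _ _
    have e3 := pow_le_pow_left₀ (norm_nonneg _) e2 2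
    nlinarith [sq_nonneg (‖φ x - μ‖ - ‖μ - c‖)]

lemma abs_le_pi_of_mem {x₀ θ : ℝ} (h : θ ∈ Icc (x₀ - Real.pi) (x₀ + Real.pi)) : |θ - x₀| ≤ Real.pi := by
  rw [abs_le]; constructor <;> linarith [h.1, h.2]

lemma exists_K {τ : ℝ} (hτ : 0 < τ) : ∃ K : ℕ, Real.pi ≤ 2^K * τ := by
  obtain ⟨n, hn⟩ := pow_unbounded_of_one_lt (Real.pi / τ) (show (1:ℝ) < 2 by norm_num)
  exact ⟨n, by rw [div_lt_iff₀ hτ] at hn; exact hn.le⟩

/-- values of the extension against arc means -/
lemma point_eval {f : ℂ → ℂ} (hf : IsH1 f) {Ω : ℝ → ℝ} {M Ca : ℝ}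
    (h : RB (fun θ => f (cp θ)) Ω M Ca) {x₀ τ : ℝ} (h0 : 0 < τ) (h1 : τ ≤ 1/2) :
    ‖ext f (zp x₀ τ) - mean (fun θ => f (cp θ)) (x₀ - τ) (x₀ + τ)‖ ≤ 5120 * M * Ca * Ω (2 * τ) := by
  set φ : ℝ → ℂ := fun θ => f (cp θ) with hφ
  set c := mean φ (x₀ - τ) (x₀ + τ) with hc
  set z := zp x₀ τ with hz
  have hz1 : ‖z‖ < 1 := norm_zp_lt h0 (by linarith)
  have hM := h.M0
  have hCa := h.Ca1
  have hw := h.pos (2 * τ) (by linarith)
  obtain ⟨hs1, hs2⟩ := hf.sub_const c
  obtain ⟨hu1, hu2⟩ := hs1.mul_analytic (R := 1 + τ) (by linarith) (KA_diff x₀ h0)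
  have e1 : ext (fun ζ => (f ζ - c) * KA x₀ τ ζ) z = (ext f z - c) * (1/2) := by
    rw [hu2 z hz1, hs2 z hz1, hz, KA_zp]
    congr 1
    have : (τ : ℂ) ≠ 0 := by exact_mod_cast h0.ne'
    field_simp
    norm_num
  have e2 := norm_ext_le (fun ζ => (f ζ - c) * KA x₀ τ ζ) hz1
  rw [e1, norm_mul] at e2
  have hnh : ‖(1/2 : ℂ)‖ = 1/2 := by norm_num
  rw [hnh] at e2
  have hper : Function.Periodic (fun θ => pk z θ * ‖(f (cp θ) - c) * KA x₀ τ (cp θ)‖) (2 * Real.pi) := by
    intro θ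
    simp only
    rw [pk_periodic z θ, cp_periodic θ]
  rw [int_shift hper x₀] at e2
  set W : ℝ → ℝ := fun x => 96 / (τ * (1 + |x - x₀| / τ)^3) with hW
  have hWc : Continuous W := by
    simp only [hW]
    apply Continuous.div continuous_const (by fun_prop)
    intro x
    positivity
  have hW0 : ∀ x, 0 ≤ W x := fun x => by simp only [hW]; positivity
  have hKc : Continuous fun θ => KA x₀ τ (cp θ) := by
    rw [continuous_iff_continuousAt]
    intro θ
    have : ContinuousAt (KA x₀ τ) (cp θ) := ((KA_diff x₀ h0).differentiableAt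
      (isOpen_ball.mem_nhds (by rw [mem_ball_zero_iff, norm_cp]; linarith))).continuousAt
    exact this.comp continuous_cp.continuousAt
  have hint1 : ∀ a b, IntervalIntegrable (fun θ => ‖φ θ - c‖ * W θ) volume a b := fun a b =>
    (h.li.sub_norm c a b).mul_continuousOn hWc.continuousOn
  have hint2 : ∀ a b, IntervalIntegrable (fun θ => pk z θ * ‖(f (cp θ) - c) * KA x₀ τ (cp θ)‖)
      volume a b := by
    intro a b
    have := (h.li.sub_norm c a b).mul_continuousOn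
      (g := fun θ => pk z θ * ‖KA x₀ τ (cp θ)‖) ((continuous_pk hz1).mul hKc.norm).continuousOn
    exact this.congr (fun θ _ => by
      rw [norm_mul]; ring)
  have e3 : ∫ θ in (x₀ - Real.pi)..(x₀ + Real.pi), pk z θ * ‖(f (cp θ) - c) * KA x₀ τ (cp θ)‖ ≤
      ∫ θ in (x₀ - Real.pi)..(x₀ + Real.pi), ‖φ θ - c‖ * W θ := by
    apply intervalIntegral.integral_mono_on (by linarith [Real.pi_pos]) (hint2 _ _) (hint1 _ _)
    intro θ hθ
    have hy := abs_le_pi_of_mem hθ
    have k1 := pk_zp_le h0 h1 hy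
    have k2 := KA_cp_le (x₀ := x₀) h0 hy
    rw [norm_mul]
    have k3 : pk z θ * ‖KA x₀ τ (cp θ)‖ ≤ W θ := by
      calc pk z θ * ‖KA x₀ τ (cp θ)‖ ≤ 32 / (τ * (1 + |θ - x₀| / τ)^2) * (3 / (1 + |θ - x₀| / τ)) :=
            mul_le_mul k1 k2 (norm_nonneg _) (by positivity)
        _ = W θ := by
            simp only [hW]
            have : (0:ℝ) < 1 + |θ - x₀| / τ := by positivity
            rw [div_mul_div_comm]
            congr 1
            · norm_num
            · ring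
    calc pk z θ * (‖f (cp θ) - c‖ * ‖KA x₀ τ (cp θ)‖) =
        ‖f (cp θ) - c‖ * (pk z θ * ‖KA x₀ τ (cp θ)‖) := by ring
      _ ≤ _ := mul_le_mul_of_nonneg_left k3 (norm_nonneg _)
  obtain ⟨K, hK⟩ := exists_K h0
  have e4 : ∫ θ in (x₀ - Real.pi)..(x₀ + Real.pi), ‖φ θ - c‖ * W θ ≤
      ∫ θ in (x₀ - 2^K * τ)..(x₀ + 2^K * τ), ‖φ θ - c‖ * W θ :=
    integral_subset_le hint1 (fun x => mul_nonneg (norm_nonneg _) (hW0 x)) (by linarith)
      (by linarith [Real.pi_pos]) (by linarith)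
  have e5 := h.weighted1 x₀ h0 hWc (A := 768) (by norm_num) (by
    intro x _
    simp only [hW]
    apply div_le_div₀ (by norm_num) (by norm_num) h0
    have : (1:ℝ) ≤ (1 + |x - x₀| / τ)^3 := one_le_pow₀ (by
      have : 0 ≤ |x - x₀| / τ := by positivity
      linarith)
    nlinarith) (by
    intro k x hx _
    simp only [hW]
    have e : (768:ℝ) / (8^(k+1) * τ) = 96 / (τ * 8^k) := by
      rw [pow_succ]; field_simp; norm_num
    rw [e]
    apply div_le_div_of_nonneg_left (by norm_num) (by positivity)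
    apply mul_le_mul_of_nonneg_left _ h0.le
    have h2 : (2:ℝ)^k ≤ |x - x₀| / τ := by rw [le_div_iff₀ h0]; exact hx
    have h3 : (8:ℝ)^k = (2^k)^3 := by rw [← pow_mul, mul_comm, pow_mul]; norm_num
    rw [h3]
    exact pow_le_pow_left₀ (by positivity) (by linarith) 3) K
  have e6 : ‖ext f z - c‖ * (1/2) ≤ (2 * Real.pi)⁻¹ * (20 * 768 * M * Ca * Ω (2 * τ)) :=
    e2.trans (mul_le_mul_of_nonneg_left (e3.trans (e4.trans e5)) (by positivity))
  have e7 : (2 * Real.pi)⁻¹ ≤ 1/6 := by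
    rw [inv_eq_one_div]
    apply one_div_le_one_div_of_le (by norm_num)
    linarith [Real.pi_gt_three]
  have e8 : (2 * Real.pi)⁻¹ * (20 * 768 * M * Ca * Ω (2 * τ)) ≤ 1/6 * (20 * 768 * M * Ca * Ω (2 * τ)) :=
    mul_le_mul_of_nonneg_right e7 (by positivity)
  linarith

/-- quadratic evaluation with a localising factor -/
lemma l2_eval {f : ℂ → ℂ} (hf : IsH1 f) {Ω : ℝ → ℝ} {M Ca : ℝ}
    (h : RB (fun θ => f (cp θ)) Ω M Ca) {x₀ τ ρ : ℝ} (h0 : 0 < τ) (h1 : τ ≤ 1/2) (hρ : τ ≤ ρ) :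
    (2 * Real.pi)⁻¹ * ∫ θ in (0:ℝ)..(2 * Real.pi), pk (zp x₀ τ) θ *
      ‖(f (cp θ) - ext f (zp x₀ τ)) * KA x₀ ρ (cp θ)‖^2 ≤
      54000000 * (ρ / τ) * (M * Ca * Ω (2 * τ))^2 := by
  set φ : ℝ → ℂ := fun θ => f (cp θ) with hφ
  set c := mean φ (x₀ - τ) (x₀ + τ) with hc
  set z := zp x₀ τ with hz
  set F := ext f z with hF
  have hpe := point_eval hf h (x₀ := x₀) h0 h1
  rw [← hz, ← hF, ← hφ, ← hc] at hpe
  have hρ0 : 0 < ρ := by linarith
  have hz1 : ‖z‖ < 1 := norm_zp_lt h0 (by linarith)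
  have hM := h.M0
  have hCa := h.Ca1
  have hw := h.pos (2 * τ) (by linarith)
  have hKc : Continuous fun θ => KA x₀ ρ (cp θ) := by
    rw [continuous_iff_continuousAt]
    intro θ
    have : ContinuousAt (KA x₀ ρ) (cp θ) := ((KA_diff x₀ hρ0).differentiableAt
      (isOpen_ball.mem_nhds (by rw [mem_ball_zero_iff, norm_cp]; linarith))).continuousAt
    exact this.comp continuous_cp.continuousAt
  set X := ρ / τ with hX
  have hX1 : 1 ≤ X := by rw [hX, le_div_iff₀ h0]; linarith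
  have hX0 : 0 < X := by linarith
  set W : ℝ → ℝ := fun x => 128 / (τ * (1 + |x - x₀| / τ)^2 * (1 + (|x - x₀| / ρ)^2)) with hW
  have hWc : Continuous W := by
    simp only [hW]
    apply Continuous.div continuous_const (by fun_prop)
    intro x
    positivity
  have hW0 : ∀ x, 0 ≤ W x := fun x => by simp only [hW]; positivity
  have hint1 : ∀ a b, IntervalIntegrable (fun θ => ‖φ θ - c‖^2 * W θ) volume a b := fun a b =>
    (h.sq_int c a b).mul_continuousOn hWc.continuousOn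
  have hint2 : ∀ a b, IntervalIntegrable (fun θ => pk z θ * ‖(f (cp θ) - F) * KA x₀ ρ (cp θ)‖^2)
      volume a b := by
    intro a b
    have := (h.sq_int F a b).mul_continuousOn
      (g := fun θ => pk z θ * ‖KA x₀ ρ (cp θ)‖^2) ((continuous_pk hz1).mul (hKc.norm.pow 2)).continuousOn
    exact this.congr (fun θ _ => by
      rw [norm_mul, mul_pow]; ring)
  have hper : Function.Periodic (fun θ => pk z θ * ‖(f (cp θ) - F) * KA x₀ ρ (cp θ)‖^2)
      (2 * Real.pi) := by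
    intro θ
    simp only
    rw [pk_periodic z θ, cp_periodic θ]
  have hpk := integral_pk hz1
  rw [int_shift (pk_periodic z) x₀] at hpk
  rw [int_shift hper x₀]
  have hpkint : IntervalIntegrable (pk z) volume (x₀ - Real.pi) (x₀ + Real.pi) :=
    (continuous_pk hz1).intervalIntegrable _ _
  have e3 : ∫ θ in (x₀ - Real.pi)..(x₀ + Real.pi), pk z θ * ‖(f (cp θ) - F) * KA x₀ ρ (cp θ)‖^2 ≤
      ∫ θ in (x₀ - Real.pi)..(x₀ + Real.pi), (2 * (‖φ θ - c‖^2 * W θ) + pk z θ * (2 * ‖F - c‖^2)) := by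
    apply intervalIntegral.integral_mono_on (by linarith [Real.pi_pos]) (hint2 _ _)
      (((hint1 _ _).const_mul 2).add (hpkint.mul_const _))
    intro θ hθ
    have hy := abs_le_pi_of_mem hθ
    have k1 := pk_zp_le h0 h1 hy
    have k2 := KA_cp_sq (x₀ := x₀) hρ0 hy
    have k3 := KA_norm_le (x₀ := x₀) hρ0 (w := cp θ) (norm_cp θ).le
    have k3' : ‖KA x₀ ρ (cp θ)‖^2 ≤ 1 := pow_le_one₀ (norm_nonneg _) k3
    have k4 : pk z θ * ‖KA x₀ ρ (cp θ)‖^2 ≤ W θ := by
      calc pk z θ * ‖KA x₀ ρ (cp θ)‖^2 ≤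
          32 / (τ * (1 + |θ - x₀| / τ)^2) * (4 / (1 + (|θ - x₀| / ρ)^2)) :=
            mul_le_mul k1 k2 (by positivity) (by positivity)
        _ = W θ := by
            simp only [hW]
            rw [div_mul_div_comm]
            congr 1
            norm_num
    have k5 : ‖f (cp θ) - F‖^2 ≤ 2 * ‖φ θ - c‖^2 + 2 * ‖F - c‖^2 := by
      have e : f (cp θ) - F = (φ θ - c) - (F - c) := by simp only [hφ]; ring
      have e2 : ‖f (cp θ) - F‖ ≤ ‖φ θ - c‖ + ‖F - c‖ := by rw [e]; exact norm_sub_le _ _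
      have e3 := pow_le_pow_left₀ (norm_nonneg _) e2 2
      nlinarith [sq_nonneg (‖φ θ - c‖ - ‖F - c‖)]
    have k6 := pk_nonneg hz1 θ
    rw [norm_mul, mul_pow]
    calc pk z θ * (‖f (cp θ) - F‖^2 * ‖KA x₀ ρ (cp θ)‖^2)
        = ‖f (cp θ) - F‖^2 * (pk z θ * ‖KA x₀ ρ (cp θ)‖^2) := by ring
      _ ≤ (2 * ‖φ θ - c‖^2 + 2 * ‖F - c‖^2) * (pk z θ * ‖KA x₀ ρ (cp θ)‖^2) :=
          mul_le_mul_of_nonneg_right k5 (by positivity)
      _ = 2 * (‖φ θ - c‖^2 * (pk z θ * ‖KA x₀ ρ (cp θ)‖^2)) +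
            pk z θ * (2 * ‖F - c‖^2) * ‖KA x₀ ρ (cp θ)‖^2 := by ring
      _ ≤ 2 * (‖φ θ - c‖^2 * W θ) + pk z θ * (2 * ‖F - c‖^2) * 1 := by
          apply add_le_add
          · apply mul_le_mul_of_nonneg_left _ (by norm_num)
            exact mul_le_mul_of_nonneg_left k4 (by positivity)
          · exact mul_le_mul_of_nonneg_left k3' (by positivity)
      _ = _ := by ring
  rw [intervalIntegral.integral_add ((hint1 _ _).const_mul 2) (hpkint.mul_const _),
    intervalIntegral.integral_const_mul, intervalIntegral.integral_mul_const, hpk] at e3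
  obtain ⟨K, hK⟩ := exists_K h0
  have e4 : ∫ θ in (x₀ - Real.pi)..(x₀ + Real.pi), ‖φ θ - c‖^2 * W θ ≤
      ∫ θ in (x₀ - 2^K * τ)..(x₀ + 2^K * τ), ‖φ θ - c‖^2 * W θ :=
    integral_subset_le hint1 (fun x => mul_nonneg (by positivity) (hW0 x)) (by linarith)
      (by linarith [Real.pi_pos]) (by linarith)
  have e5 := h.weighted2 x₀ h0 hWc (A := 2048) (X := X) (by norm_num) hX0 (by
    intro x _
    have a1 : (1:ℝ) ≤ (1 + |x - x₀| / τ)^2 := one_le_pow₀ (by
      have : 0 ≤ |x - x₀| / τ := by positivity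
      linarith)
    have a2 : (1:ℝ) ≤ 1 + (|x - x₀| / ρ)^2 := by
      have : 0 ≤ (|x - x₀| / ρ)^2 := by positivity
      linarith
    have a3 : (1/X)^2 ≤ 1 := by
      apply pow_le_one₀ (by positivity)
      rw [div_le_one hX0]; exact hX1
    have b1 : W x ≤ 128 / τ := by
      simp only [hW]
      apply div_le_div_of_nonneg_left (by norm_num) h0
      have : τ * 1 * 1 ≤ τ * (1 + |x - x₀| / τ)^2 * (1 + (|x - x₀| / ρ)^2) :=
        mul_le_mul (mul_le_mul_of_nonneg_left a1 h0.le) a2 (by norm_num) (by positivity)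
      linarith
    refine b1.trans ?_
    rw [div_le_div_iff₀ h0 (by positivity)]
    nlinarith) (by
    intro k x hx _
    have h2 : (2:ℝ)^k ≤ |x - x₀| / τ := by rw [le_div_iff₀ h0]; exact hx
    have a1 : (4:ℝ)^k ≤ (1 + |x - x₀| / τ)^2 := by
      have h3 : (4:ℝ)^k = (2^k)^2 := by rw [← pow_mul, mul_comm, pow_mul]; norm_num
      rw [h3]
      exact pow_le_pow_left₀ (by positivity) (by linarith) 2
    have a2 : 1 + (2^k / X)^2 ≤ 1 + (|x - x₀| / ρ)^2 := by
      have h4 : 2^k / X ≤ |x - x₀| / ρ := by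
        rw [hX, div_div_eq_mul_div]
        exact div_le_div_of_nonneg_right hx hρ0.le
      have := pow_le_pow_left₀ (by positivity) h4 2
      linarith
    have b1 : W x ≤ 128 / (τ * 4^k * (1 + (2^k / X)^2)) := by
      simp only [hW]
      apply div_le_div_of_nonneg_left (by norm_num) (by positivity)
      exact mul_le_mul (mul_le_mul_of_nonneg_left a1 h0.le) a2 (by positivity) (by positivity)
    refine b1.trans ?_
    rw [div_le_div_iff₀ (by positivity) (by positivity)]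
    have a4 : (2:ℝ)^(k+1) / X = 2 * (2^k / X) := by rw [pow_succ]; ring
    rw [a4, pow_succ]
    have a5 : 0 ≤ (2^k / X)^2 := by positivity
    have a6 : (0:ℝ) < 4^k * τ := by positivity
    have a7 : 1 + (2 * (2^k / X))^2 ≤ 4 * (1 + (2^k / X)^2) := by nlinarith
    calc 128 * (4^k * 4 * τ * (1 + (2 * (2^k / X))^2)) ≤
        128 * (4^k * 4 * τ * (4 * (1 + (2^k / X)^2))) := by
          apply mul_le_mul_of_nonneg_left _ (by norm_num)
          exact mul_le_mul_of_nonneg_left a7 (by positivity)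
      _ = _ := by ring) K
  set w := M * Ca * Ω (2 * τ) with hwdef
  have hw0 : 0 < w := by positivity
  have e6 : ‖F - c‖^2 ≤ (5120 * w)^2 := by
    apply pow_le_pow_left₀ (norm_nonneg _)
    rw [hwdef]; linarith
  have e7 : (2 * Real.pi)⁻¹ ≤ 1/6 := by
    rw [inv_eq_one_div]
    apply one_div_le_one_div_of_le (by norm_num)
    linarith [Real.pi_gt_three]
  have e8 := mul_le_mul_of_nonneg_left e3 (inv_nonneg.2 two_pi_pos'.le)
  have e9 : (2 * Real.pi)⁻¹ * (2 * Real.pi * (2 * ‖F - c‖^2)) = 2 * ‖F - c‖^2 := by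
    field_simp
  rw [mul_add, e9] at e8
  have e10 : (2 * Real.pi)⁻¹ * (2 * ∫ θ in (x₀ - Real.pi)..(x₀ + Real.pi), ‖φ θ - c‖^2 * W θ) ≤
      1/6 * (2 * (1792 * 2048 * X * w^2)) := by
    apply mul_le_mul e7 _ _ (by norm_num)
    · exact mul_le_mul_of_nonneg_left (e4.trans e5) (by norm_num)
    · apply mul_nonneg (by norm_num)
      apply intervalIntegral.integral_nonneg (by linarith [Real.pi_pos])
      intro θ _
      exact mul_nonneg (by positivity) (hW0 θ)
  have e11 : w^2 ≤ X * w^2 := by nlinarith [sq_nonneg w]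
  nlinarith

end Pool.Agent.Helper34.Bmo
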