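import Mathlib

set_option autoImplicit false

namespace Pool.Agent.Helper34.Bmo

open MeasureTheory Set Filter Topology Metric

/-- the mean of `φ` over `[a,b]` -/
noncomputable def mean (φ : ℝ → ℂ) (a b : ℝ) : ℂ := (((b - a)⁻¹ : ℝ) : ℂ) * ∫ x in a..b, φ x

/-- locally integrable on the line -/
def LI (φ : ℝ → ℂ) : Prop := ∀ a b : ℝ, IntervalIntegrable φ volume a b

variable {φ : ℝ → ℂ}

lemma LI.sub_norm (h : LI φ) (c : ℂ) (a b : ℝ) :
    IntervalIntegrable (fun x => ‖φ x - c‖) volume a b :=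
  ((h a b).sub intervalIntegrable_const).norm

lemma mean_sub_le (h : LI φ) {a b : ℝ} (hab : a < b) (c : ℂ) :
    ‖mean φ a b - c‖ * (b - a) ≤ ∫ x in a..b, ‖φ x - c‖ := by
  have hba : 0 < b - a := by linarith
  have h1 : mean φ a b - c = (((b - a)⁻¹ : ℝ) : ℂ) * ∫ x in a..b, (φ x - c) := by
    rw [intervalIntegral.integral_sub (h a b) intervalIntegrable_const,
      intervalIntegral.integral_const, mul_sub, mean]
    congr 1
    rw [Complex.real_smul, ← mul_assoc, ← Complex.ofReal_mul, inv_mul_cancel₀ hba.ne']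
    simp
  rw [h1, norm_mul, Complex.norm_real, Real.norm_eq_abs, abs_of_pos (inv_pos.2 hba)]
  have h2 := intervalIntegral.norm_integral_le_integral_norm (f := fun x => φ x - c)
    (μ := volume) hab.le
  calc (b - a)⁻¹ * ‖∫ x in a..b, (φ x - c)‖ * (b - a)
      = ‖∫ x in a..b, (φ x - c)‖ := by field_simp
    _ ≤ _ := h2

lemma mean_const {a b : ℝ} (hab : a < b) (c : ℂ) : mean (fun _ => c) a b = c := by
  have hba : 0 < b - a := by linarith
  rw [mean, intervalIntegral.integral_const, Complex.real_smul, ← mul_assoc, ← Complex.ofReal_mul,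
    inv_mul_cancel₀ hba.ne']
  simp

lemma osc_le_two (h : LI φ) {a b : ℝ} (hab : a < b) (c : ℂ) :
    ∫ x in a..b, ‖φ x - mean φ a b‖ ≤ 2 * ∫ x in a..b, ‖φ x - c‖ := by
  have h1 : ∫ x in a..b, ‖φ x - mean φ a b‖ ≤ ∫ x in a..b, (‖φ x - c‖ + ‖mean φ a b - c‖) := by
    apply intervalIntegral.integral_mono_on hab.le (h.sub_norm _ a b)
      ((h.sub_norm _ a b).add intervalIntegrable_const)
    intro x _
    have : φ x - mean φ a b = (φ x - c) - (mean φ a b - c) := by ring
    rw [this]
    exact norm_sub_le _ _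
  rw [intervalIntegral.integral_add (h.sub_norm _ a b) intervalIntegrable_const,
    intervalIntegral.integral_const, smul_eq_mul] at h1
  have h2 := mean_sub_le h hab c
  linarith

/-- dyadic approximations on `[a,b]` -/
noncomputable def S (φ : ℝ → ℂ) : ℕ → ℝ → ℝ → ℝ → ℂ
  | 0, a, b, _ => mean φ a b
  | n + 1, a, b, x => if x ≤ (a + b) / 2 then S φ n a ((a + b) / 2) x else S φ n ((a + b) / 2) b x

lemma S_zero (a b x : ℝ) : S φ 0 a b x = mean φ a b := rfl

lemma S_succ (n : ℕ) (a b x : ℝ) : S φ (n + 1) a b x =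
    if x ≤ (a + b) / 2 then S φ n a ((a + b) / 2) x else S φ n ((a + b) / 2) b x := rfl

lemma S_meas (n : ℕ) : ∀ a b : ℝ, Measurable (S φ n a b) := by
  induction n with
  | zero => intro a b; exact measurable_const
  | succ n ih =>
    intro a b
    exact Measurable.ite measurableSet_Iic (ih a _) (ih _ b)

lemma S_bdd (n : ℕ) : ∀ a b : ℝ, ∃ C : ℝ, ∀ x, ‖S φ n a b x‖ ≤ C := by
  induction n with
  | zero => intro a b; exact ⟨‖mean φ a b‖, fun x => le_rfl⟩
  | succ n ih =>
    intro a b
    obtain ⟨C₁, h₁⟩ := ih a ((a + b) / 2)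
    obtain ⟨C₂, h₂⟩ := ih ((a + b) / 2) b
    refine ⟨max C₁ C₂, fun x => ?_⟩
    rw [S_succ]
    split_ifs
    · exact (h₁ x).trans (le_max_left _ _)
    · exact (h₂ x).trans (le_max_right _ _)

lemma S_int (n : ℕ) (a b c d : ℝ) (γ : ℂ) :
    IntervalIntegrable (fun x => ‖S φ n a b x - γ‖^2) volume c d := by
  obtain ⟨C, hC⟩ := S_bdd (φ := φ) n a b
  have h1 : IntervalIntegrable (fun _ : ℝ => (C + ‖γ‖)^2) volume c d := intervalIntegrable_const
  apply h1.mono_fun
  · exact (((S_meas n a b).sub_const γ).norm.pow_const 2).aestronglyMeasurable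
  · filter_upwards with x
    rw [Real.norm_eq_abs, Real.norm_eq_abs, abs_of_nonneg (by positivity), abs_of_nonneg (by positivity)]
    apply pow_le_pow_left₀ (norm_nonneg _)
    exact (norm_sub_le _ _).trans (by linarith [hC x])

lemma S_split (n : ℕ) {a b : ℝ} (hab : a < b) (γ : ℂ) :
    ∫ x in a..b, ‖S φ (n+1) a b x - γ‖^2 =
      (∫ x in a..((a+b)/2), ‖S φ n a ((a+b)/2) x - γ‖^2) +
        ∫ x in ((a+b)/2)..b, ‖S φ n ((a+b)/2) b x - γ‖^2 := by
  rw [← intervalIntegral.integral_add_adjacent_intervals (S_int (n+1) a b a ((a+b)/2) γ)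
    (S_int (n+1) a b ((a+b)/2) b γ)]
  congr 1
  · apply intervalIntegral.integral_congr_ae
    filter_upwards with x hx
    rw [uIoc_of_le (by linarith)] at hx
    rw [S_succ, if_pos hx.2]
  · apply intervalIntegral.integral_congr_ae
    filter_upwards with x hx
    rw [uIoc_of_le (by linarith)] at hx
    rw [S_succ, if_neg (not_le.2 hx.1)]

lemma S_interval (n : ℕ) : ∀ a b x : ℝ, a < b → a ≤ x → x ≤ b →
    ∃ c d : ℝ, c ≤ x ∧ x ≤ d ∧ d - c = (b - a) / 2^n ∧ S φ n a b x = mean φ c d := by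
  induction n with
  | zero => intro a b x _ h1 h2; exact ⟨a, b, h1, h2, by simp, rfl⟩
  | succ n ih =>
    intro a b x hab h1 h2
    rw [S_succ]
    split_ifs with h
    · obtain ⟨c, d, e1, e2, e3, e4⟩ := ih a ((a+b)/2) x (by linarith) h1 h
      refine ⟨c, d, e1, e2, ?_, e4⟩
      rw [e3, pow_succ]
      field_simp; ring
    · obtain ⟨c, d, e1, e2, e3, e4⟩ := ih ((a+b)/2) b x (by linarith) (by linarith) h2
      refine ⟨c, d, e1, e2, ?_, e4⟩
      rw [e3, pow_succ]
      field_simp; ring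

lemma LI.locallyIntegrable (h : LI φ) : LocallyIntegrable φ volume := by
  intro x
  refine ⟨Ioo (x-1) (x+1), Ioo_mem_nhds (by linarith) (by linarith), ?_⟩
  have := h (x-1) (x+1)
  rw [intervalIntegrable_iff_integrableOn_Ioc_of_le (by linarith)] at this
  exact this.mono_set Ioo_subset_Ioc_self

lemma S_tendsto (h : LI φ) : ∀ᵐ x : ℝ, ∀ a b : ℝ, a < b → a ≤ x → x ≤ b →
    Tendsto (fun n => S φ n a b x) atTop (𝓝 (φ x)) := by
  filter_upwards [IsUnifLocDoublingMeasure.ae_tendsto_average (μ := volume) h.locallyIntegrable 1]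
    with x hx a b hab hax hxb
  choose c d h1 h2 h3 h4 using fun n => S_interval (φ := φ) n a b x hab hax hxb
  have hlen : ∀ n, 0 < d n - c n := fun n => by
    rw [h3]
    have : 0 < b - a := by linarith
    positivity
  have key := hx (l := atTop) (fun n : ℕ => (c n + d n) / 2) (fun n => (d n - c n) / 2) (by
    rw [tendsto_nhdsWithin_iff]
    constructor
    · have e : (fun n => (d n - c n) / 2) = fun n : ℕ => ((b - a) / 2) * (1/2:ℝ)^n := by
        funext n; rw [h3, one_div_pow]; ring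
      rw [e]
      have := (tendsto_pow_atTop_nhds_zero_of_lt_one (r := (1/2:ℝ)) (by norm_num) (by norm_num)).const_mul
        ((b - a) / 2)
      simpa using this
    · exact Eventually.of_forall fun n => by
        have := hlen n
        simp only [mem_Ioi]; linarith) (Eventually.of_forall fun n => by
      rw [one_mul, Real.closedBall_eq_Icc]
      constructor
      · have := h1 n; linarith
      · have := h2 n; linarith)
  refine key.congr (fun n => ?_)
  have e : closedBall ((c n + d n) / 2) ((d n - c n) / 2) = Icc (c n) (d n) := by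
    rw [Real.closedBall_eq_Icc]; congr 1 <;> ring
  rw [e, h4, mean, setAverage_eq, Real.volume_real_Icc_of_le (by linarith [hlen n]),
    integral_Icc_eq_integral_Ioc, intervalIntegral.integral_of_le (by linarith [hlen n]),
    Complex.real_smul]

/-- One step of the stopping-time induction. -/
lemma jn_induct (h : LI φ) {a b m : ℝ} (hm : 0 < m)
    (H : ∀ c d, a ≤ c → c < d → d ≤ b → ∫ x in c..d, ‖φ x - mean φ c d‖ ≤ m * (d - c)) (n : ℕ) :
    (∀ c d, a ≤ c → c < d → d ≤ b →
      ∫ x in c..d, ‖S φ n c d x - mean φ c d‖^2 ≤ 96 * m^2 * (d - c)) ∧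
    (∀ c d, a ≤ c → c < d → d ≤ b → ∀ γ : ℂ, ∫ x in c..d, ‖φ x - γ‖ ≤ 8 * m * (d - c) →
      ∫ x in c..d, ‖S φ n c d x - γ‖^2 ≤ 16 * m^2 * (d - c) + 80 * m * ∫ x in c..d, ‖φ x - γ‖) := by
  -- the stopped case
  have stop : ∀ n, (∀ c d, a ≤ c → c < d → d ≤ b →
      ∫ x in c..d, ‖S φ n c d x - mean φ c d‖^2 ≤ 96 * m^2 * (d - c)) →
      ∀ c d, a ≤ c → c < d → d ≤ b → ∀ γ : ℂ, ∫ x in c..d, ‖φ x - γ‖ ≤ 8 * m * (d - c) →
      4 * m * (d - c) ≤ ∫ x in c..d, ‖φ x - γ‖ →
      ∫ x in c..d, ‖S φ n c d x - γ‖^2 ≤ 16 * m^2 * (d - c) + 80 * m * ∫ x in c..d, ‖φ x - γ‖ := by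
    intro n hV c d hc hcd hd γ h8 h4
    have hdc : 0 < d - c := by linarith
    have h1 : ∫ x in c..d, ‖S φ n c d x - γ‖^2 ≤
        ∫ x in c..d, (2 * ‖S φ n c d x - mean φ c d‖^2 + 2 * ‖mean φ c d - γ‖^2) := by
      apply intervalIntegral.integral_mono_on hcd.le (S_int n c d c d γ)
        (((S_int n c d c d _).const_mul 2).add intervalIntegrable_const)
      intro x _
      have e : S φ n c d x - γ = (S φ n c d x - mean φ c d) + (mean φ c d - γ) := by ring
      have e2 : ‖S φ n c d x - γ‖ ≤ ‖S φ n c d x - mean φ c d‖ + ‖mean φ c d - γ‖ := by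
        rw [e]; exact norm_add_le _ _
      have e3 := pow_le_pow_left₀ (norm_nonneg _) e2 2
      nlinarith [sq_nonneg (‖S φ n c d x - mean φ c d‖ - ‖mean φ c d - γ‖)]
    rw [intervalIntegral.integral_add ((S_int n c d c d _).const_mul 2) intervalIntegrable_const,
      intervalIntegral.integral_const_mul, intervalIntegral.integral_const, smul_eq_mul] at h1
    have h2 := hV c d hc hcd hd
    have h3 : ‖mean φ c d - γ‖ ≤ 8 * m := by
      have := mean_sub_le h hcd γ
      by_contra hcon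
      push Not at hcon
      nlinarith
    have h5 : ‖mean φ c d - γ‖^2 ≤ (8 * m)^2 := pow_le_pow_left₀ (norm_nonneg _) h3 2
    have h6 : (d - c) * (2 * ‖mean φ c d - γ‖^2) ≤ (d - c) * (2 * (8 * m)^2) := by
      apply mul_le_mul_of_nonneg_left _ hdc.le
      linarith
    have h7 : 80 * m * (4 * m * (d - c)) ≤ 80 * m * ∫ x in c..d, ‖φ x - γ‖ :=
      mul_le_mul_of_nonneg_left h4 (by positivity)
    have h8 : 0 ≤ 16 * m^2 * (d - c) := by positivity
    nlinarith
  induction n with
  | zero =>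
    have hV : ∀ c d, a ≤ c → c < d → d ≤ b →
        ∫ x in c..d, ‖S φ 0 c d x - mean φ c d‖^2 ≤ 96 * m^2 * (d - c) := by
      intro c d _ hcd _
      have hdc : 0 < d - c := by linarith
      simp only [S_zero, sub_self, norm_zero]
      simp
      positivity
    refine ⟨hV, fun c d hc hcd hd γ h8 => ?_⟩
    have hdc : 0 < d - c := by linarith
    by_cases h4 : 4 * m * (d - c) ≤ ∫ x in c..d, ‖φ x - γ‖
    · exact stop 0 hV c d hc hcd hd γ h8 h4
    · push Not at h4
      simp only [S_zero]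
      rw [intervalIntegral.integral_const, smul_eq_mul]
      have h3 : ‖mean φ c d - γ‖ ≤ 4 * m := by
        have := mean_sub_le h hcd γ
        by_contra hcon
        push Not at hcon
        nlinarith
      have h5 : ‖mean φ c d - γ‖^2 ≤ (4 * m)^2 := pow_le_pow_left₀ (norm_nonneg _) h3 2
      have h6 : 0 ≤ ∫ x in c..d, ‖φ x - γ‖ :=
        intervalIntegral.integral_nonneg hcd.le (fun x _ => norm_nonneg _)
      have h7 : (d - c) * ‖mean φ c d - γ‖^2 ≤ (d - c) * (4 * m)^2 :=
        mul_le_mul_of_nonneg_left h5 hdc.le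
      have h8 : 0 ≤ 80 * m * ∫ x in c..d, ‖φ x - γ‖ := by positivity
      nlinarith
  | succ n ih =>
    obtain ⟨ihV, ihW⟩ := ih
    -- children
    have child : ∀ c d, a ≤ c → c < d → d ≤ b → ∀ γ : ℂ, ∫ x in c..d, ‖φ x - γ‖ ≤ 4 * m * (d - c) →
        ∫ x in c..d, ‖S φ (n+1) c d x - γ‖^2 ≤
          16 * m^2 * (d - c) + 80 * m * ∫ x in c..d, ‖φ x - γ‖ := by
      intro c d hc hcd hd γ h4
      have hdc : 0 < d - c := by linarith
      rw [S_split n hcd γ]
      have hadd := intervalIntegral.integral_add_adjacent_intervals (h.sub_norm γ c ((c+d)/2))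
        (h.sub_norm γ ((c+d)/2) d)
      have n1 : 0 ≤ ∫ x in c..((c+d)/2), ‖φ x - γ‖ :=
        intervalIntegral.integral_nonneg (by linarith) (fun x _ => norm_nonneg _)
      have n2 : 0 ≤ ∫ x in ((c+d)/2)..d, ‖φ x - γ‖ :=
        intervalIntegral.integral_nonneg (by linarith) (fun x _ => norm_nonneg _)
      have w1 := ihW c ((c+d)/2) hc (by linarith) (by linarith) γ (by
        have : 8 * m * ((c+d)/2 - c) = 4 * m * (d - c) := by ring
        rw [this]; linarith)
      have w2 := ihW ((c+d)/2) d (by linarith) (by linarith) hd γ (by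
        have : 8 * m * (d - (c+d)/2) = 4 * m * (d - c) := by ring
        rw [this]; linarith)
      rw [← hadd]
      have e1 : 16 * m^2 * ((c+d)/2 - c) + 16 * m^2 * (d - (c+d)/2) = 16 * m^2 * (d - c) := by ring
      linarith
    have hV : ∀ c d, a ≤ c → c < d → d ≤ b →
        ∫ x in c..d, ‖S φ (n+1) c d x - mean φ c d‖^2 ≤ 96 * m^2 * (d - c) := by
      intro c d hc hcd hd
      have hdc : 0 < d - c := by linarith
      have hH := H c d hc hcd hd
      have h1 := child c d hc hcd hd (mean φ c d) (by nlinarith)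
      have h2 : 80 * m * ∫ x in c..d, ‖φ x - mean φ c d‖ ≤ 80 * m * (m * (d - c)) :=
        mul_le_mul_of_nonneg_left hH (by positivity)
      nlinarith
    refine ⟨hV, fun c d hc hcd hd γ h8 => ?_⟩
    by_cases h4 : 4 * m * (d - c) ≤ ∫ x in c..d, ‖φ x - γ‖
    · exact stop (n+1) hV c d hc hcd hd γ h8 h4
    · push Not at h4
      exact child c d hc hcd hd γ h4.le

/-- John–Nirenberg, square version. -/
theorem jn_l2 (h : LI φ) {a b m : ℝ} (hab : a < b) (hm : 0 < m)
    (H : ∀ c d, a ≤ c → c < d → d ≤ b → ∫ x in c..d, ‖φ x - mean φ c d‖ ≤ m * (d - c)) :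
    IntervalIntegrable (fun x => ‖φ x - mean φ a b‖^2) volume a b ∧
      ∫ x in a..b, ‖φ x - mean φ a b‖^2 ≤ 96 * m^2 * (b - a) := by
  have hV := fun n => (jn_induct h hm H n).1 a b le_rfl hab le_rfl
  set μ := mean φ a b with hμ
  have hmeas : AEStronglyMeasurable φ (volume.restrict (Ioc a b)) := by
    have := h a b
    rw [intervalIntegrable_iff_integrableOn_Ioc_of_le hab.le] at this
    exact this.aestronglyMeasurable
  have hmeas2 : AEStronglyMeasurable (fun x => ‖φ x - μ‖^2) (volume.restrict (Ioc a b)) :=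
    ((hmeas.sub aestronglyMeasurable_const).norm.pow 2)
  -- Fatou
  have hF : ∫⁻ x in Ioc a b, ENNReal.ofReal (‖φ x - μ‖^2) ≤ ENNReal.ofReal (96 * m^2 * (b - a)) := by
    have h1 : ∫⁻ x in Ioc a b, ENNReal.ofReal (‖φ x - μ‖^2) ≤
        ∫⁻ x in Ioc a b, liminf (fun n : ℕ => ENNReal.ofReal (‖S φ n a b x - μ‖^2)) atTop := by
      apply lintegral_mono_ae
      rw [ae_restrict_iff' measurableSet_Ioc]
      filter_upwards [S_tendsto h] with x hx hxI
      have h2 := hx a b hab hxI.1.le hxI.2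
      have h3 : Tendsto (fun n => ENNReal.ofReal (‖S φ n a b x - μ‖^2)) atTop
          (𝓝 (ENNReal.ofReal (‖φ x - μ‖^2))) :=
        ENNReal.tendsto_ofReal (((h2.sub_const μ).norm).pow 2)
      exact h3.liminf_eq.ge
    refine h1.trans ((lintegral_liminf_le (fun n => ?_)).trans ?_)
    · exact ((((S_meas n a b).sub_const μ).norm.pow_const 2)).ennreal_ofReal
    · apply liminf_le_of_le
      · isBoundedDefault
      · intro c hc
        obtain ⟨n, hn⟩ := hc.exists
        refine hn.trans ?_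
        have hint : IntegrableOn (fun x => ‖S φ n a b x - μ‖^2) (Ioc a b) := by
          have := S_int (φ := φ) n a b a b μ
          rwa [intervalIntegrable_iff_integrableOn_Ioc_of_le hab.le] at this
        rw [← ofReal_integral_eq_lintegral_ofReal hint (Eventually.of_forall fun x => by positivity)]
        apply ENNReal.ofReal_le_ofReal
        rw [← intervalIntegral.integral_of_le hab.le]
        exact hV n
  have hint : IntegrableOn (fun x => ‖φ x - μ‖^2) (Ioc a b) := by
    refine ⟨hmeas2, ?_⟩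
    rw [hasFiniteIntegral_iff_ofReal (Eventually.of_forall fun x => by positivity)]
    exact lt_of_le_of_lt hF ENNReal.ofReal_lt_top
  constructor
  · rwa [intervalIntegrable_iff_integrableOn_Ioc_of_le hab.le]
  · rw [intervalIntegral.integral_of_le hab.le]
    have h1 := ofReal_integral_eq_lintegral_ofReal hint (Eventually.of_forall fun x => by positivity)
    rw [← h1] at hF
    have hba : 0 < b - a := by linarith
    exact (ENNReal.ofReal_le_ofReal_iff (by positivity)).1 hF

end Pool.Agent.Helper34.Bmo
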