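import Pool.Agent.Helper34.Bmo.Circle2

set_option autoImplicit false

namespace Pool.Agent.Helper34.Bmo

open Complex Metric Set Filter Topology MeasureTheory ComplexConjugate

/-- real continuous functions on the circle are uniform limits of real parts of entire functions -/
lemma exists_entire {φ : ℝ → ℝ} (hc : Continuous φ) (hp : Function.Periodic φ (2 * Real.pi)) {η : ℝ}
    (hη : 0 < η) : ∃ Q : ℂ → ℂ, Differentiable ℂ Q ∧ ∀ θ, |(Q (cp θ)).re - φ θ| ≤ η := by
  haveI : Fact (0 < 2 * Real.pi) := ⟨two_pi_pos'⟩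
  have hper : Function.Periodic (fun θ => ((φ θ : ℝ) : ℂ)) (2 * Real.pi) := by
    intro θ
    show ((φ (θ + 2 * Real.pi) : ℝ) : ℂ) = _
    rw [hp]
  set g : C(AddCircle (2 * Real.pi), ℂ) := ⟨hper.lift, by
    apply continuous_coinduced_dom.2
    exact Complex.continuous_ofReal.comp hc⟩ with hg
  have hmem : g ∈ closure ((Submodule.span ℂ (range (@fourier (2 * Real.pi))) :
      Submodule ℂ C(AddCircle (2 * Real.pi), ℂ)) : Set C(AddCircle (2 * Real.pi), ℂ)) := by
    have h1 : g ∈ (Submodule.span ℂ (range (@fourier (2 * Real.pi)))).topologicalClosure := by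
      rw [span_fourier_closure_eq_top]; trivial
    exact h1
  rw [Metric.mem_closure_iff] at hmem
  obtain ⟨f, hf, hfg⟩ := hmem η hη
  have key : ∃ Q₁ Q₂ : ℂ → ℂ, Differentiable ℂ Q₁ ∧ Differentiable ℂ Q₂ ∧
      ∀ x : ℝ, f (x : AddCircle (2 * Real.pi)) = Q₁ (cp x) + conj (Q₂ (cp x)) := by
    refine Submodule.span_induction (p := fun f _ => ∃ Q₁ Q₂ : ℂ → ℂ, Differentiable ℂ Q₁ ∧
      Differentiable ℂ Q₂ ∧ ∀ x : ℝ, f (x : AddCircle (2 * Real.pi)) = Q₁ (cp x) + conj (Q₂ (cp x)))
      ?_ ?_ ?_ ?_ hf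
    · rintro _ ⟨n, rfl⟩
      have hx : ∀ x : ℝ, (fourier n : C(AddCircle (2 * Real.pi), ℂ)) (x : AddCircle (2 * Real.pi)) =
          exp ((n : ℂ) * (x * I)) := by
        intro x
        rw [fourier_coe_apply]
        congr 1
        have : (Real.pi : ℂ) ≠ 0 := by exact_mod_cast Real.pi_ne_zero
        push_cast
        field_simp
      rcases Int.eq_nat_or_neg n with ⟨m, rfl | rfl⟩
      · refine ⟨fun w => w^m, fun _ => 0, by fun_prop, by fun_prop, fun x => ?_⟩
        rw [hx, map_zero, add_zero]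
        show exp (((m : ℤ) : ℂ) * (x * I)) = (exp (x * I)) ^ m
        rw [← Complex.exp_nat_mul]
        push_cast
        rfl
      · refine ⟨fun _ => 0, fun w => w^m, by fun_prop, by fun_prop, fun x => ?_⟩
        rw [hx, zero_add, map_pow, conj_cp]
        show exp (((-(m : ℤ) : ℤ) : ℂ) * (x * I)) = (exp (((-x : ℝ) : ℂ) * I)) ^ m
        rw [← Complex.exp_nat_mul]
        congr 1
        push_cast
        ring
    · exact ⟨fun _ => 0, fun _ => 0, by fun_prop, by fun_prop, fun x => by simp⟩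
    · rintro f₁ f₂ _ _ ⟨A₁, A₂, a1, a2, a3⟩ ⟨B₁, B₂, b1, b2, b3⟩
      refine ⟨fun w => A₁ w + B₁ w, fun w => A₂ w + B₂ w, a1.add b1, a2.add b2, fun x => ?_⟩
      rw [ContinuousMap.add_apply, a3, b3, map_add]
      ring
    · rintro c f₁ _ ⟨A₁, A₂, a1, a2, a3⟩
      refine ⟨fun w => c * A₁ w, fun w => conj c * A₂ w, a1.const_mul c, a2.const_mul _, fun x => ?_⟩
      rw [ContinuousMap.smul_apply, a3, map_mul, Complex.conj_conj, smul_eq_mul]
      ring
  obtain ⟨Q₁, Q₂, h1, h2, h3⟩ := key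
  refine ⟨fun w => Q₁ w + Q₂ w, h1.add h2, fun θ => ?_⟩
  have h4 : (f (θ : AddCircle (2 * Real.pi))).re = (Q₁ (cp θ) + Q₂ (cp θ)).re := by
    rw [h3]; simp
  have h5 : g (θ : AddCircle (2 * Real.pi)) = ((φ θ : ℝ) : ℂ) := hper.lift_coe θ
  have h6 : ‖g (θ : AddCircle (2 * Real.pi)) - f (θ : AddCircle (2 * Real.pi))‖ ≤ η := by
    rw [← dist_eq_norm]
    exact (ContinuousMap.dist_apply_le_dist _).trans hfg.le
  simp only
  rw [← h4]
  have h7 : (f (θ : AddCircle (2 * Real.pi))).re - φ θ =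
      -(g (θ : AddCircle (2 * Real.pi)) - f (θ : AddCircle (2 * Real.pi))).re := by
    rw [h5]; simp
  rw [h7, abs_neg]
  exact (Complex.abs_re_le_norm _).trans h6

/-- Two-constants type estimate for inner functions. -/
lemma max_pr {Θ : ℂ → ℂ} (h : IsInner Θ) {ε : ℝ} (hε0 : 0 < ε) (hε1 : ε < 1) {H : ℂ → ℂ}
    (hH : DifferentiableOn ℂ H (ball 0 1)) (hH0 : ∀ w, ‖w‖ < 1 → 0 ≤ (H w).re)
    (hH1 : ∀ w, ‖w‖ < 1 → ‖Θ w‖ ≤ ε → 1 ≤ (H w).re) {z : ℂ} (hz : ‖z‖ < 1) (hzε : ε < ‖Θ z‖) :
    Real.log (1 / ‖Θ z‖) ≤ Real.log (1 / ε) * (H z).re := by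
  set lam := Real.log (1 / ε) with hlam
  have hlam0 : 0 < lam := Real.log_pos (by rw [lt_div_iff₀ hε0]; linarith)
  have hexp : Real.exp (-lam) = ε := by
    rw [hlam, one_div, Real.log_inv, neg_neg, Real.exp_log hε0]
  -- boundary functions
  set ph : ℝ → ℝ → ℝ := fun r θ => Real.log (1 / max ‖Θ (r * cp θ)‖ ε) with hph
  have hmaxpos : ∀ w, 0 < max ‖Θ w‖ ε := fun w => lt_of_lt_of_le hε0 (le_max_right _ _)
  have hph_le : ∀ r θ, ph r θ ≤ lam := by
    intro r θ
    apply Real.log_le_log (one_div_pos.2 (hmaxpos _))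
    exact one_div_le_one_div_of_le hε0 (le_max_right _ _)
  have hph_nn : ∀ r ∈ Ioo (0:ℝ) 1, ∀ θ, 0 ≤ ph r θ := by
    intro r hr θ
    apply Real.log_nonneg
    rw [le_div_iff₀ (hmaxpos _), one_mul]
    exact max_le (h.norm_le_one (by simpa using mem_dil hr θ)) hε1.le
  have hph_c : ∀ r ∈ Ioo (0:ℝ) 1, Continuous (ph r) := by
    intro r hr
    have h1 : Continuous fun θ => max ‖Θ (r * cp θ)‖ ε := (cont_dil h.diff hr).norm.max continuous_const
    have h2 : Continuous fun θ => 1 / max ‖Θ (r * cp θ)‖ ε :=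
      continuous_const.div h1 (fun θ => (hmaxpos _).ne')
    exact h2.log (fun θ => (one_div_pos.2 (hmaxpos _)).ne')
  have hph_p : ∀ r, Function.Periodic (ph r) (2 * Real.pi) := by
    intro r θ
    simp only [hph]
    rw [cp_periodic]
  -- step 1
  have step : ∀ r ∈ Ioo (0:ℝ) 1, ‖z‖ < r → ∀ η > 0, Real.log (1 / ‖Θ z‖) ≤ lam * (H z).re +
      (2 * Real.pi)⁻¹ * (∫ θ in (0:ℝ)..(2 * Real.pi), pk (z / r) θ * ph r θ) + 2 * η := by
    intro r hr hzr η hη
    obtain ⟨Q, hQd, hQ⟩ := exists_entire (hph_c r hr) (hph_p r) hη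
    have hr0 : (r : ℂ) ≠ 0 := by exact_mod_cast hr.1.ne'
    have hdiv : ∀ w : ℂ, ‖w / r‖ = ‖w‖ / r := by
      intro w
      rw [norm_div, Complex.norm_real, Real.norm_eq_abs, abs_of_pos hr.1]
    -- real part of `Q + η` by Poisson
    have hQre : ∀ w : ℂ, ‖w‖ < 1 → (Q w).re =
        (2 * Real.pi)⁻¹ * ∫ θ in (0:ℝ)..(2 * Real.pi), pk w θ * (Q (cp θ)).re := by
      intro w hw
      have h1 := poisson_formula (h := Q) hQd.diffContOnCl hw
      have h2 := congrArg Complex.re h1
      rw [Complex.re_ofReal_mul] at h2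
      rw [← h2]
      congr 1
      have hi : IntervalIntegrable (fun θ => ((pk w θ : ℝ) : ℂ) * Q (cp θ)) volume 0 (2 * Real.pi) :=
        ((Complex.continuous_ofReal.comp (continuous_pk hw)).mul
          (hQd.continuous.comp continuous_cp)).intervalIntegrable _ _
      have h3 := Complex.reCLM.intervalIntegral_comp_comm hi
      simp only [Complex.reCLM_apply] at h3
      rw [← h3]
      apply intervalIntegral.integral_congr
      intro θ _
      simp only
      rw [Complex.re_ofReal_mul]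
    have hQc : ∀ w : ℂ, ‖w‖ < 1 → Continuous fun θ => pk w θ * (Q (cp θ)).re := fun w hw =>
      (continuous_pk hw).mul (Complex.continuous_re.comp (hQd.continuous.comp continuous_cp))
    have hQnn : ∀ w : ℂ, ‖w‖ ≤ 1 → 0 ≤ (Q w).re + η := by
      have h1 : ∀ w : ℂ, ‖w‖ < 1 → 0 ≤ (Q w).re + η := by
        intro w hw
        rw [hQre w hw]
        have h2 : ∫ θ in (0:ℝ)..(2 * Real.pi), pk w θ * (-η) ≤
            ∫ θ in (0:ℝ)..(2 * Real.pi), pk w θ * (Q (cp θ)).re := by
          apply intervalIntegral.integral_mono_on two_pi_pos'.le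
            (((continuous_pk hw).mul continuous_const).intervalIntegrable _ _)
            ((hQc w hw).intervalIntegrable _ _)
          intro θ _
          apply mul_le_mul_of_nonneg_left _ (pk_nonneg hw θ)
          have := abs_le.1 (hQ θ)
          linarith [hph_nn r hr θ, this.1]
        rw [intervalIntegral.integral_mul_const, integral_pk hw] at h2
        have h3 := mul_le_mul_of_nonneg_left h2 (inv_nonneg.2 two_pi_pos'.le)
        have h4 : (2 * Real.pi)⁻¹ * (2 * Real.pi * -η) = -η := by field_simp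
        rw [h4] at h3
        linarith
      intro w hw
      rcases hw.lt_or_eq with hw | hw
      · exact h1 w hw
      · -- limit from the inside
        have h2 : Tendsto (fun s : ℝ => (Q ((s : ℂ) * w)).re + η) (𝓝[<] 1) (𝓝 ((Q w).re + η)) := by
          have : Tendsto (fun s : ℝ => (Q ((s : ℂ) * w)).re + η) (𝓝 1) (𝓝 ((Q (((1:ℝ) : ℂ) * w)).re + η)) := by
            have hcont : Continuous fun s : ℝ => (Q ((s : ℂ) * w)).re + η :=
              (Complex.continuous_re.comp (hQd.continuous.comp (by fun_prop))).add continuous_const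
            exact hcont.tendsto 1
          simp only [Complex.ofReal_one, one_mul] at this
          exact this.mono_left nhdsWithin_le_nhds
        apply ge_of_tendsto h2
        filter_upwards [Ioo_mem] with s hs
        apply h1
        rw [norm_mul, hw, mul_one, Complex.norm_real, Real.norm_eq_abs, abs_of_pos hs.1]
        exact hs.2
    -- the comparison function
    set Y : ℂ → ℂ := fun w => exp (-(lam * H w) - Q (w / r) - η) / Θ w with hY
    have hYn : ∀ w, ‖Y w‖ = Real.exp (-(lam * (H w).re) - (Q (w / r)).re - η) / ‖Θ w‖ := by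
      intro w
      simp only [hY]
      rw [norm_div, Complex.norm_exp]
      congr 2
      simp
    set U : Set ℂ := ball 0 r ∩ {w | ε < ‖Θ w‖} with hU
    have hUo : IsOpen U := by
      have h1 : ContinuousOn (fun w => ‖Θ w‖) (ball 0 1) := h.diff.continuousOn.norm
      have h2 : IsOpen (ball (0:ℂ) 1 ∩ (fun w => ‖Θ w‖) ⁻¹' Ioi ε) :=
        h1.isOpen_inter_preimage isOpen_ball isOpen_Ioi
      have h3 : U = ball 0 r ∩ (ball (0:ℂ) 1 ∩ (fun w => ‖Θ w‖) ⁻¹' Ioi ε) := by
        ext w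
        simp only [hU, mem_inter_iff, mem_ball_zero_iff, mem_ofPred_eq, mem_preimage, mem_Ioi]
        constructor
        · rintro ⟨a, b⟩; exact ⟨a, by linarith [hr.2], b⟩
        · rintro ⟨a, _, b⟩; exact ⟨a, b⟩
      rw [h3]
      exact isOpen_ball.inter h2
    have hcl : ∀ w ∈ closure U, ‖w‖ ≤ r ∧ ε ≤ ‖Θ w‖ := by
      intro w hw
      have h1 : ‖w‖ ≤ r := by
        have : w ∈ closedBall (0:ℂ) r := closure_ball_subset_closedBall (closure_mono inter_subset_left hw)
        simpa using this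
      refine ⟨h1, ?_⟩
      have hw1 : ‖w‖ < 1 := by linarith [hr.2]
      have hcw : ContinuousAt (fun w => ‖Θ w‖) w :=
        ((h.diff.differentiableAt (isOpen_ball.mem_nhds (by simpa using hw1))).continuousAt).norm
      haveI : (𝓝[U] w).NeBot := mem_closure_iff_nhdsWithin_neBot.1 hw
      refine ge_of_tendsto (hcw.tendsto.mono_left nhdsWithin_le_nhds : Tendsto _ (𝓝[U] w) _) ?_
      filter_upwards [self_mem_nhdsWithin] with v hv
      exact (show ε < ‖Θ v‖ from hv.2).le
    have hYd : DiffContOnCl ℂ Y U := by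
      apply DifferentiableOn.diffContOnCl
      intro w hw
      obtain ⟨h1, h2⟩ := hcl w hw
      have hw1 : w ∈ ball (0:ℂ) 1 := by rw [mem_ball_zero_iff]; linarith [hr.2]
      have hΘd : DifferentiableAt ℂ Θ w := h.diff.differentiableAt (isOpen_ball.mem_nhds hw1)
      have hHd : DifferentiableAt ℂ H w := hH.differentiableAt (isOpen_ball.mem_nhds hw1)
      have hQd' : DifferentiableAt ℂ (fun w => Q (w / r)) w :=
        (hQd (w / r)).comp w (by fun_prop : DifferentiableAt ℂ (fun w : ℂ => w / r) w)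
      have hne : Θ w ≠ 0 := by rw [← norm_pos_iff]; linarith
      apply DifferentiableAt.differentiableWithinAt
      exact ((((hHd.const_mul _).neg.sub hQd').sub_const _).cexp).div hΘd hne
    have hfr : ∀ w ∈ frontier U, ‖Y w‖ ≤ 1 := by
      intro w hw
      rw [hUo.frontier_eq] at hw
      obtain ⟨h1, h2⟩ := hcl w hw.1
      have hw1 : ‖w‖ < 1 := by linarith [hr.2]
      have hΘpos : 0 < ‖Θ w‖ := by linarith
      rw [hYn, div_le_one hΘpos]
      have hHw := hH0 w hw1
      have hQw := hQnn (w / r) (by rw [hdiv, div_le_one hr.1]; exact h1)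
      by_cases hwr : ‖w‖ = r
      · -- `w` on the circle of radius `r`
        obtain ⟨θ, hθ⟩ : ∃ θ : ℝ, w / r = cp θ := by
          refine ⟨(w / r).arg, ?_⟩
          have h3 : ‖w / r‖ = 1 := by rw [hdiv, hwr, div_self hr.1.ne']
          have h4 := Complex.norm_mul_exp_arg_mul_I (w / r)
          rw [h3, Complex.ofReal_one, one_mul] at h4
          exact h4.symm
        have hw' : w = r * cp θ := by rw [← hθ, mul_div_cancel₀ _ hr0]
        have h5 := (abs_le.1 (hQ θ)).1
        rw [← hθ] at h5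
        have h6 : ph r θ = -Real.log ‖Θ w‖ := by
          simp only [hph]
          rw [← hw', max_eq_left h2, one_div, Real.log_inv]
        rw [← Real.le_log_iff_exp_le hΘpos]
        rw [h6] at h5
        have : 0 ≤ lam * (H w).re := mul_nonneg hlam0.le hHw
        linarith
      · have hwU : ¬ (ε < ‖Θ w‖) := by
          intro hc
          apply hw.2
          exact ⟨by rw [mem_ball_zero_iff]; exact lt_of_le_of_ne h1 hwr, hc⟩
        have hΘε : ‖Θ w‖ = ε := le_antisymm (not_lt.1 hwU) h2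
        have h3 := hH1 w hw1 hΘε.le
        rw [hΘε, ← hexp]
        apply Real.exp_le_exp.2
        have : lam * 1 ≤ lam * (H w).re := mul_le_mul_of_nonneg_left h3 hlam0.le
        linarith
    have hzU : z ∈ U := ⟨by simpa using hzr, hzε⟩
    have hmain := Complex.norm_le_of_forall_mem_frontier_norm_le
      (isBounded_ball.subset (inter_subset_left : U ⊆ ball 0 r)) hYd hfr (subset_closure hzU)
    have hΘz : 0 < ‖Θ z‖ := by linarith
    rw [hYn, div_le_one hΘz, ← Real.le_log_iff_exp_le hΘz] at hmain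
    rw [one_div, Real.log_inv]
    have hzr' : ‖z / r‖ < 1 := by rw [hdiv, div_lt_one hr.1]; exact hzr
    have h8 : (Q (z / r)).re ≤ (2 * Real.pi)⁻¹ *
        (∫ θ in (0:ℝ)..(2 * Real.pi), pk (z / r) θ * ph r θ) + η := by
      rw [hQre _ hzr']
      have i1 : IntervalIntegrable (fun θ => pk (z / r) θ * ph r θ) volume 0 (2 * Real.pi) :=
        ((continuous_pk hzr').mul (hph_c r hr)).intervalIntegrable _ _
      have i2 : IntervalIntegrable (fun θ => pk (z / r) θ * η) volume 0 (2 * Real.pi) :=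
        ((continuous_pk hzr').mul continuous_const).intervalIntegrable _ _
      have h2 : ∫ θ in (0:ℝ)..(2 * Real.pi), pk (z / r) θ * (Q (cp θ)).re ≤
          ∫ θ in (0:ℝ)..(2 * Real.pi), (pk (z / r) θ * ph r θ + pk (z / r) θ * η) := by
        apply intervalIntegral.integral_mono_on two_pi_pos'.le
          ((hQc _ hzr').intervalIntegrable _ _) (i1.add i2)
        intro θ _
        rw [← mul_add]
        apply mul_le_mul_of_nonneg_left _ (pk_nonneg hzr' θ)
        have := (abs_le.1 (hQ θ)).2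
        linarith
      rw [intervalIntegral.integral_add i1 i2,
        intervalIntegral.integral_mul_const, integral_pk hzr'] at h2
      have h3 := mul_le_mul_of_nonneg_left h2 (inv_nonneg.2 two_pi_pos'.le)
      have h4 : (2 * Real.pi)⁻¹ * (2 * Real.pi * η) = η := by field_simp
      rw [mul_add, h4] at h3
      exact h3
    linarith
  -- step 2: r → 1
  have hlim : Tendsto (fun r : ℝ => ∫ θ in (0:ℝ)..(2 * Real.pi), pk (z / r) θ * ph r θ) (𝓝[<] 1)
      (𝓝 (∫ θ in (0:ℝ)..(2 * Real.pi), (0:ℝ))) := by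
    set ϱ := (1 + ‖z‖) / 2 with hϱ
    have hϱ1 : ϱ < 1 := by rw [hϱ]; linarith
    have hev : ∀ᶠ r : ℝ in 𝓝[<] 1, r ∈ Ioo (0:ℝ) 1 ∧ ‖z / (r : ℂ)‖ ≤ ϱ := by
      have h1 : Tendsto (fun r : ℝ => ‖z‖ / r) (𝓝[<] 1) (𝓝 (‖z‖ / 1)) :=
        (tendsto_const_nhds.div tendsto_id one_ne_zero).mono_left nhdsWithin_le_nhds
      rw [div_one] at h1
      have h2 : ∀ᶠ r : ℝ in 𝓝[<] 1, ‖z‖ / r < ϱ := h1.eventually_lt_const (by rw [hϱ]; linarith)
      filter_upwards [h2, Ioo_mem] with r h3 h4
      refine ⟨h4, ?_⟩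
      rw [norm_div, Complex.norm_real, Real.norm_eq_abs, abs_of_pos h4.1]
      exact h3.le
    apply intervalIntegral.tendsto_integral_filter_of_dominated_convergence
      (fun _ => 2 / (1 - ϱ) * lam)
    · filter_upwards [hev] with r hr
      exact ((continuous_pk (lt_of_le_of_lt hr.2 hϱ1)).mul (hph_c r hr.1)).aestronglyMeasurable
    · filter_upwards [hev] with r hr
      filter_upwards with θ _
      have hr1 : ‖z / (r : ℂ)‖ < 1 := lt_of_le_of_lt hr.2 hϱ1
      rw [Real.norm_eq_abs, abs_of_nonneg (mul_nonneg (pk_nonneg hr1 θ) (hph_nn r hr.1 θ))]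
      apply mul_le_mul _ (hph_le r θ) (hph_nn r hr.1 θ) (by
        have : 0 < 1 - ϱ := by linarith
        positivity)
      refine (pk_le hr1 θ).trans ?_
      exact div_le_div_of_nonneg_left (by norm_num) (by linarith) (by linarith [hr.2])
    · exact intervalIntegrable_const
    · filter_upwards [h.bdry] with θ hθ _
      have h1 : Tendsto (fun r : ℝ => ph r θ) (𝓝[<] 1) (𝓝 (Real.log (1 / max 1 ε))) := by
        have h2 := hθ.2.norm
        rw [hθ.1] at h2
        have h3 : Tendsto (fun r : ℝ => max ‖Θ (r * cp θ)‖ ε) (𝓝[<] 1) (𝓝 (max 1 ε)) :=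
          h2.max tendsto_const_nhds
        have h4 : (0:ℝ) < max 1 ε := lt_of_lt_of_le one_pos (le_max_left _ _)
        exact (Real.continuousAt_log (one_div_pos.2 h4).ne').tendsto.comp
          (tendsto_const_nhds.div h3 h4.ne')
      rw [max_eq_left hε1.le, div_one, Real.log_one] at h1
      apply squeeze_zero_norm' (a := fun r => 2 / (1 - ϱ) * ph r θ)
      · filter_upwards [hev] with r hr
        have hr1 : ‖z / (r : ℂ)‖ < 1 := lt_of_le_of_lt hr.2 hϱ1
        rw [Real.norm_eq_abs, abs_of_nonneg (mul_nonneg (pk_nonneg hr1 θ) (hph_nn r hr.1 θ))]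
        apply mul_le_mul_of_nonneg_right _ (hph_nn r hr.1 θ)
        refine (pk_le hr1 θ).trans ?_
        exact div_le_div_of_nonneg_left (by norm_num) (by linarith) (by linarith [hr.2])
      · simpa using h1.const_mul (2 / (1 - ϱ))
  rw [intervalIntegral.integral_zero] at hlim
  apply le_of_forall_pos_le_add
  intro η hη
  have h1 : Tendsto (fun r : ℝ => lam * (H z).re + (2 * Real.pi)⁻¹ *
      (∫ θ in (0:ℝ)..(2 * Real.pi), pk (z / r) θ * ph r θ) + 2 * (η / 2)) (𝓝[<] 1)
      (𝓝 (lam * (H z).re + (2 * Real.pi)⁻¹ * 0 + 2 * (η / 2))) :=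
    ((hlim.const_mul _).const_add _).add_const _
  have h2 : lam * (H z).re + (2 * Real.pi)⁻¹ * 0 + 2 * (η / 2) = lam * (H z).re + η := by ring
  rw [h2] at h1
  apply ge_of_tendsto h1
  filter_upwards [Ioo_mem_nhdsLT hz, Ioo_mem] with r hr1 hr2
  exact step r hr2 hr1.1 (η / 2) (by linarith)

end Pool.Agent.Helper34.Bmo
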