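import Pool.Agent.Helper34.Bmo.Constr

set_option autoImplicit false

namespace Pool.Agent.Helper34.Bmo

open Complex Metric Set Filter Topology MeasureTheory ComplexConjugate

lemma isInner_fs {β : ℕ → ℂ → ℂ} {c : ℕ → ℝ} (h : Bw.FS β c) : IsInner (Bw.bprod β) := by
  refine ⟨h.differentiableOn, ⟨1, fun z hz => ?_⟩, ?_⟩
  · rw [mem_ball_zero_iff] at hz
    exact h.norm_le_one hz.le (by rintro rfl; simp at hz)
  · filter_upwards [Bw.ae_exp_ne_one] with θ hθ
    have hθ' : cp θ ≠ 1 := hθ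
    refine ⟨h.norm_eq_one (norm_cp θ) hθ', ?_⟩
    have h1 : ContinuousWithinAt (Bw.bprod β) (closedBall 0 1 \ {1}) (cp θ) :=
      h.continuousOn _ ⟨by rw [mem_closedBall_zero_iff, norm_cp], hθ'⟩
    have h2 : Tendsto (fun r : ℝ => (r : ℂ) * cp θ) (𝓝[<] 1)
        (𝓝[closedBall 0 1 \ {1}] (cp θ)) := by
      rw [tendsto_nhdsWithin_iff]
      constructor
      · have : Tendsto (fun r : ℝ => (r : ℂ) * cp θ) (𝓝 1) (𝓝 (((1:ℝ) : ℂ) * cp θ)) :=
          (by fun_prop : Continuous fun r : ℝ => (r : ℂ) * cp θ).tendsto 1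
        simp only [Complex.ofReal_one, one_mul] at this
        exact this.mono_left nhdsWithin_le_nhds
      · filter_upwards [Ioo_mem_nhdsLT (show (0:ℝ) < 1 by norm_num)] with r hr
        have hn : ‖(r : ℂ) * cp θ‖ = r := by
          rw [norm_mul, norm_cp, mul_one, Complex.norm_real, Real.norm_eq_abs,
            abs_of_pos hr.1]
        refine ⟨by rw [mem_closedBall_zero_iff, hn]; exact hr.2.le, ?_⟩
        intro h1
        rw [mem_singleton_iff] at h1
        rw [h1, norm_one] at hn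
        linarith [hr.2]
    exact h1.tendsto.comp h2

lemma isInner_id : IsInner (fun z => z) := by
  refine ⟨differentiableOn_id, ⟨1, fun z hz => ?_⟩, Eventually.of_forall fun θ => ?_⟩
  · rw [mem_ball_zero_iff] at hz; exact hz.le
  · refine ⟨norm_cp θ, ?_⟩
    have : Tendsto (fun r : ℝ => (r : ℂ) * cp θ) (𝓝 1) (𝓝 (((1:ℝ) : ℂ) * cp θ)) :=
      (by fun_prop : Continuous fun r : ℝ => (r : ℂ) * cp θ).tendsto 1
    simp only [Complex.ofReal_one, one_mul] at this
    exact this.mono_left nhdsWithin_le_nhds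

lemma inL1_of_cont {g : ℂ → ℂ} (h : Continuous g) : InL1 g := by
  unfold InL1
  exact (h.comp continuous_cp).intervalIntegrable _ _

lemma osc_cp_ge {l : ℝ} (h0 : 0 < l) (h1 : l ≤ Real.pi) (c : ℂ) :
    l^2 / 8 ≤ ∫ θ in (0:ℝ)..l, ‖cp θ - c‖ := by
  have hint : ∀ a b, IntervalIntegrable (fun θ => ‖cp θ - c‖) volume a b := fun a b =>
    (continuous_cp.sub continuous_const).norm.intervalIntegrable _ _
  have hint2 : ∀ a b, IntervalIntegrable (fun θ => ‖cp (θ + l/2) - c‖) volume a b := fun a b =>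
    ((continuous_cp.comp (continuous_id.add continuous_const)).sub
      continuous_const).norm.intervalIntegrable _ _
  rw [← intervalIntegral.integral_add_adjacent_intervals (hint 0 (l/2)) (hint (l/2) l)]
  have e1 : ∫ θ in (l/2)..l, ‖cp θ - c‖ = ∫ θ in (0:ℝ)..(l/2), ‖cp (θ + l/2) - c‖ := by
    rw [intervalIntegral.integral_comp_add_right (fun θ => ‖cp θ - c‖) (l/2)]
    congr 1 <;> ring
  rw [e1, ← intervalIntegral.integral_add (hint _ _) (hint2 _ _)]
  have e2 : ∫ _θ in (0:ℝ)..(l/2), (l/4) ≤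
      ∫ θ in (0:ℝ)..(l/2), (‖cp θ - c‖ + ‖cp (θ + l/2) - c‖) := by
    apply intervalIntegral.integral_mono_on (by linarith) intervalIntegrable_const
      ((hint _ _).add (hint2 _ _))
    intro θ _
    have k1 := cp_dist_ge (x := θ + l/2) (y := θ) (by
      rw [add_sub_cancel_left, abs_of_pos (by linarith)]; linarith)
    rw [add_sub_cancel_left, abs_of_pos (by linarith)] at k1
    have k2 : ‖cp (θ + l/2) - cp θ‖ ≤ ‖cp (θ + l/2) - c‖ + ‖cp θ - c‖ := by
      have : cp (θ + l/2) - cp θ = (cp (θ + l/2) - c) - (cp θ - c) := by ring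
      rw [this]; exact norm_sub_le _ _
    linarith
  rw [intervalIntegral.integral_const, smul_eq_mul] at e2
  linarith

lemma bmo_one_sub {ω : ℝ → ℝ} (hω : IsModulus ω) {C₀ : ℝ}
    (hC₀ : 0 < C₀) (hC : ∀ t : ℝ, 0 < t → t ≤ 1 / 2 → t ≤ C₀ * ω t) :
    InBMO ω (fun ζ => 1 - ζ) := by
  have hpi := Real.pi_pos
  have hL : InL1 (fun ζ => 1 - ζ) := inL1_of_cont (by fun_prop)
  refine ⟨hL, 8 * Real.pi * C₀, ?_⟩
  intro a b hab hb
  have hba : 0 < b - a := by linarith
  rw [inv_mul_le_iff₀ hba]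
  have h1 := osc_le_two hL.li hab ((fun ζ : ℂ => 1 - ζ) (cp a))
  have h2 : ∫ θ in a..b, ‖(fun ζ : ℂ => 1 - ζ) (cp θ) - (fun ζ : ℂ => 1 - ζ) (cp a)‖ ≤
      ∫ _θ in a..b, (b - a) := by
    apply intervalIntegral.integral_mono_on hab.le (hL.li.sub_norm _ _ _) intervalIntegrable_const
    intro θ hθ
    have e : (fun ζ : ℂ => 1 - ζ) (cp θ) - (fun ζ : ℂ => 1 - ζ) (cp a) = cp a - cp θ := by
      simp only; ring
    rw [e]
    refine (cp_dist_le a θ).trans ?_
    rw [abs_le]; constructor <;> linarith [hθ.1, hθ.2]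
  rw [intervalIntegral.integral_const, smul_eq_mul] at h2
  set t := (b - a) / (2 * Real.pi) with ht
  have ht0 : 0 < t := by positivity
  have ht1 : t < 1 := by rw [ht, div_lt_one two_pi_pos']; exact hb
  have hbt : b - a = 2 * Real.pi * t := by rw [ht]; field_simp
  have h3 : t ≤ 2 * C₀ * ω t := by
    by_cases hc : t ≤ 1/2
    · have := hC t ht0 hc
      have hωt := hω.pos' ht0 ht1
      nlinarith
    · push Not at hc
      have h4 := hC (1/2) (by norm_num) le_rfl
      have h5 : ω (1/2) ≤ ω t := hω.mono' (by norm_num) hc.le ht1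
      nlinarith
  calc _ ≤ 2 * ((b - a) * (b - a)) := h1.trans (by linarith)
    _ = (b - a) * (4 * Real.pi * t) := by rw [hbt]; ring
    _ ≤ (b - a) * (4 * Real.pi * (2 * C₀ * ω t)) := by
        apply mul_le_mul_of_nonneg_left _ hba.le
        exact mul_le_mul_of_nonneg_left h3 (by positivity)
    _ = _ := by ring

/-- mean oscillation at small scales from `BMO_ω` -/
lemma rb_small {ω : ℝ → ℝ} (hω : IsModulus ω) {g : ℂ → ℂ} (hg : InL1 g) {C : ℝ} (hC0 : 0 < C)
    (hC : ∀ a b : ℝ, a < b → b - a < 2 * Real.pi →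
      (b - a)⁻¹ * ∫ θ in a..b, ‖g (cp θ) - arcMean g a b‖ ≤ C * ω ((b - a) / (2 * Real.pi)))
    {s : ℝ} (hs0 : 0 < s) (hs1 : s ≤ 1/2) :
    RB (fun θ => g (cp θ)) (fun l => max 1 (l / (2 * Real.pi * s)) * (C * ω s)) 12 1 := by
  have hpi := Real.pi_pos
  have hωs : 0 < ω s := hω.pos' hs0 (by linarith)
  apply chain hg.li (by positivity) (by positivity)
  intro a b hab hb
  have hba : 0 < b - a := by linarith
  have h1 := hC a b hab (by nlinarith)
  rw [inv_mul_le_iff₀ hba] at h1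
  have h2 : ω ((b - a) / (2 * Real.pi)) ≤ ω s := by
    apply hω.mono' (by positivity) _ (by linarith)
    rw [div_le_iff₀ two_pi_pos']; linarith
  calc _ ≤ (b - a) * (C * ω ((b - a) / (2 * Real.pi))) := h1
    _ ≤ (b - a) * (C * ω s) := by
        apply mul_le_mul_of_nonneg_left _ hba.le
        exact mul_le_mul_of_nonneg_left h2 hC0.le
    _ = _ := by ring

theorem nec {ω : ℝ → ℝ} (hω : IsModulus ω) (hna : ¬ AlmostDecreasing ω) :
    ∃ (f Θ : ℂ → ℂ) (ε : ℝ), InBMO ω f ∧ InLinf f ∧ IsH1 f ∧ IsInner Θ ∧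
      ε ∈ Ioo (0:ℝ) 1 ∧ CondIII ω f Θ ε ∧ ¬ InBMO ω (fun ζ => f ζ * Θ ζ) := by
  have hpi := Real.pi_pos
  have hω2 : 0 < ω (1/2) := hω.pos' (by norm_num) (by norm_num)
  by_cases hid : ∃ C₀ : ℝ, 0 < C₀ ∧ ∀ t : ℝ, 0 < t → t ≤ 1 / 2 → t ≤ C₀ * ω t
  swap
  · -- the identity is not in `BMO_ω`
    have hH := isH1_analytic (h := fun _ => (1:ℂ)) (R := 2) (by norm_num) (differentiableOn_const _)
    refine ⟨fun _ => 1, fun z => z, 1/2, ⟨inL1_of_cont continuous_const, 0, ?_⟩,
      ⟨1, Eventually.of_forall fun θ => by simp⟩, hH.1, isInner_id, by norm_num,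
      ⟨1 / ω (1/2), ?_⟩, ?_⟩
    · intro a b hab _
      have e1 : arcMean (fun _ => (1:ℂ)) a b = 1 := mean_const hab 1
      rw [e1]
      simp
    · intro z hz hz1 hz2
      have h1 : ω (1/2) ≤ ω (1 - ‖z‖) :=
        hω.mono' (by norm_num) (by linarith) (by linarith [norm_pos_iff.2 hz])
      rw [hH.2 z hz1, norm_one]
      exact one_div_le_one_div_of_le hω2 h1
    · rintro ⟨hL, C, hC⟩
      apply hid
      refine ⟨max (2 * C) 1, by positivity, ?_⟩
      intro t ht0 ht1
      have hωt : 0 < ω t := hω.pos' ht0 (by linarith)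
      set l := 2 * Real.pi * t with hl
      have hl0 : 0 < l := by positivity
      have hlpi : l ≤ Real.pi := by rw [hl]; nlinarith
      have h1 := hC 0 l hl0 (by linarith)
      rw [sub_zero, inv_mul_le_iff₀ hl0] at h1
      have e : l / (2 * Real.pi) = t := by rw [hl]; field_simp
      rw [e] at h1
      simp only [one_mul] at h1
      have h2 := osc_cp_ge hl0 hlpi (arcMean (fun ζ => ζ) 0 l)
      have h3 : l^2 / 8 ≤ l * (C * ω t) := h2.trans h1
      have h4 : l * (l / 8) ≤ l * (C * ω t) := by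
        calc l * (l / 8) = l^2/8 := by ring
          _ ≤ _ := h3
      have h5 : l / 8 ≤ C * ω t := le_of_mul_le_mul_left h4 hl0
      have h6 : t ≤ 2 * C * ω t := by
        have h7 : 3 * t / 4 ≤ l / 8 := by rw [hl]; nlinarith [Real.pi_gt_three]
        linarith
      exact h6.trans (mul_le_mul_of_nonneg_right (le_max_left _ _) hωt.le)
  · obtain ⟨C₀, hC₀, hC⟩ := hid
    obtain ⟨β, c, a, s, t, hFS, hP, hS⟩ := Bw.construct (ω := ω)
      ⟨hω.continuousOn, hω.monotoneOn, hω.pos⟩ hna hC₀ hC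
    have hH := isH1_analytic (h := fun ζ : ℂ => 1 - ζ) (R := 2) (by norm_num) (by fun_prop)
    have hIn := isInner_fs hFS
    have hf := bmo_one_sub hω hC₀ hC
    refine ⟨fun ζ => 1 - ζ, Bw.bprod β, 1/8, hf, ⟨2, Eventually.of_forall fun θ => ?_⟩, hH.1, hIn,
      by norm_num, ?_, ?_⟩
    · refine (norm_sub_le _ _).trans ?_
      rw [norm_one, norm_cp]; norm_num
    · obtain ⟨C, hC⟩ := hS
      refine ⟨C, fun z hz hz1 hz2 => ?_⟩
      rw [hH.2 z hz1]
      exact hC z hz hz1 hz2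
    · rintro ⟨hL', C', hC'⟩
      obtain ⟨hL, C, hC⟩ := hf
      set D := max (max C C') 1 with hD
      have hD0 : 0 < D := by positivity
      have hb1 : ∀ a b : ℝ, a < b → b - a < 2 * Real.pi →
          (b - a)⁻¹ * ∫ θ in a..b, ‖(fun ζ : ℂ => 1 - ζ) (cp θ) - arcMean (fun ζ : ℂ => 1 - ζ) a b‖ ≤
            D * ω ((b - a) / (2 * Real.pi)) := by
        intro p q hpq hq
        have hωpq : 0 < ω ((q - p) / (2 * Real.pi)) := hω.pos' (by
          have : 0 < q - p := by linarith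
          positivity) (by rw [div_lt_one two_pi_pos']; exact hq)
        exact (hC p q hpq hq).trans (mul_le_mul_of_nonneg_right
          ((le_max_left _ _).trans (le_max_left _ _)) hωpq.le)
      have hb2 : ∀ a b : ℝ, a < b → b - a < 2 * Real.pi →
          (b - a)⁻¹ * ∫ θ in a..b, ‖(fun ζ : ℂ => (1 - ζ) * Bw.bprod β ζ) (cp θ) -
            arcMean (fun ζ : ℂ => (1 - ζ) * Bw.bprod β ζ) a b‖ ≤
            D * ω ((b - a) / (2 * Real.pi)) := by
        intro p q hpq hq
        have hωpq : 0 < ω ((q - p) / (2 * Real.pi)) := hω.pos' (by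
          have : 0 < q - p := by linarith
          positivity) (by rw [div_lt_one two_pi_pos']; exact hq)
        exact (hC' p q hpq hq).trans (mul_le_mul_of_nonneg_right
          ((le_max_right _ _).trans (le_max_left _ _)) hωpq.le)
      obtain ⟨n, hn⟩ := exists_nat_gt (2 * (122904 * D))
      obtain ⟨hs0, hst, ht8, hN, han, hge, hzero⟩ := hP n
      have ht0 : 0 < t n := hs0.trans_le hst
      have r1 := rb_small hω hL hD0 hb1 hs0 (by linarith)
      have r2 := rb_small hω hL' hD0 hb2 hs0 (by linarith)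
      obtain ⟨x₀, hx₀⟩ := exists_zp (w := a n) (by rw [han]; linarith)
      rw [han, sub_sub_cancel] at hx₀
      have hst' := star_of_bmo hH.1 hIn r1 r2 (x₀ := x₀) (τ := 2 * t n) (by linarith) (by linarith)
      rw [← hx₀, hzero, norm_zero, sub_zero, mul_one, hH.2 (a n) (by rw [han]; linarith)] at hst'
      have hωs : 0 < ω (s n) := hω.pos' hs0 (by linarith)
      have hωt : 0 < ω (t n) := hω.pos' ht0 (by linarith)
      have hmax : max 1 (2 * (2 * t n) / (2 * Real.pi * s n)) ≤ t n / s n := by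
        apply max_le
        · rw [le_div_iff₀ hs0]; linarith
        · rw [div_le_div_iff₀ (by positivity) hs0]
          nlinarith [mul_pos ht0 hs0, Real.pi_gt_three]
      have h1 : ω (t n) / 2 ≤ 122904 * D * ((ω (s n) / s n) * t n) := by
        calc ω (t n) / 2 ≤ ‖1 - a n‖ := hge
          _ ≤ (5120 * 1 + 1) * (12 + 12) *
              (max 1 (2 * (2 * t n) / (2 * Real.pi * s n)) * (D * ω (s n))) := hst'
          _ ≤ (5120 * 1 + 1) * (12 + 12) * (t n / s n * (D * ω (s n))) := by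
              apply mul_le_mul_of_nonneg_left _ (by norm_num)
              exact mul_le_mul_of_nonneg_right hmax (by positivity)
          _ = _ := by field_simp; norm_num
      have h2 : ((n:ℝ) + 1) * ((ω (s n) / s n) * t n) < ω (t n) := by
        rw [lt_div_iff₀ ht0] at hN
        linarith
      have h3 : 0 < (ω (s n) / s n) * t n := by positivity
      have h4 : 2 * (122904 * D) * ((ω (s n) / s n) * t n) < ((n:ℝ) + 1) * ((ω (s n) / s n) * t n) :=
        mul_lt_mul_of_pos_right (by linarith) h3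
      linarith

/-- necessity -/
theorem not_div {ω : ℝ → ℝ} (hω : IsModulus ω) (hna : ¬ AlmostDecreasing ω) :
    ¬ DivisionProperty ω (InBMO ω) ∧ ¬ DivisionProperty ω (fun f => InBMO ω f ∧ InLinf f) := by
  obtain ⟨f, Θ, ε, h1, h2, h3, h4, h5, h6, h7⟩ := nec hω hna
  constructor
  · intro h
    have ht := h f h1 h3 Θ h4
    have h23 := ht.out 1 2 rfl rfl
    exact h7 (h23.2 ⟨ε, h5, h6⟩).1
  · intro h
    have ht := h f ⟨h1, h2⟩ h3 Θ h4
    have h23 := ht.out 1 2 rfl rfl
    exact h7 (h23.2 ⟨ε, h5, h6⟩).1.1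

/-- the characterisation -/
theorem main (ω : ℝ → ℝ) (hω : IsModulus ω) :
    (DivisionProperty ω (InBMO ω) ↔ AlmostDecreasing ω) ∧
      (DivisionProperty ω (fun f => InBMO ω f ∧ InLinf f) ↔ AlmostDecreasing ω) := by
  refine ⟨⟨fun h => ?_, fun h => (div_of_ad hω h).1⟩, ⟨fun h => ?_, fun h => (div_of_ad hω h).2⟩⟩
  · by_contra hna; exact (not_div hω hna).1 h
  · by_contra hna; exact (not_div hω hna).2 h

end Pool.Agent.Helper34.Bmo
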