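import Pool.Agent.Helper34.Bmo.MaxPr

set_option autoImplicit false

namespace Pool.Agent.Helper34.Bmo

open Complex Metric Set Filter Topology MeasureTheory ComplexConjugate

/-- the point `(1-τ) e^{i x₀}` -/
noncomputable def zp (x₀ τ : ℝ) : ℂ := ((1 - τ : ℝ) : ℂ) * cp x₀

/-- `1 - conj ζ₀ w` -/
noncomputable def AA (x₀ : ℝ) (w : ℂ) : ℂ := 1 - conj (cp x₀) * w

/-- localising factor -/
noncomputable def KA (x₀ ρ : ℝ) (w : ℂ) : ℂ := (ρ : ℂ) / ((ρ : ℂ) + AA x₀ w)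

lemma norm_zp {x₀ τ : ℝ} (h1 : τ ≤ 1) : ‖zp x₀ τ‖ = 1 - τ := by
  rw [zp, norm_mul, norm_cp, mul_one, Complex.norm_real, Real.norm_eq_abs, abs_of_nonneg (by linarith)]

lemma norm_zp_lt {x₀ τ : ℝ} (h0 : 0 < τ) (h1 : τ ≤ 1) : ‖zp x₀ τ‖ < 1 := by
  rw [norm_zp h1]; linarith

lemma exists_zp {w : ℂ} (hw : ‖w‖ ≤ 1) : ∃ x₀ : ℝ, w = zp x₀ (1 - ‖w‖) := by
  refine ⟨w.arg, ?_⟩
  rw [zp, sub_sub_cancel, cp]
  exact (Complex.norm_mul_exp_arg_mul_I w).symm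

lemma AA_re (x₀ : ℝ) (w : ℂ) : 1 - ‖w‖ ≤ (AA x₀ w).re := by
  have h1 : (conj (cp x₀) * w).re ≤ ‖w‖ := by
    refine (Complex.re_le_norm _).trans ?_
    rw [norm_mul, RCLike.norm_conj, norm_cp, one_mul]
  rw [AA, Complex.sub_re, Complex.one_re]
  linarith

lemma AA_norm_ge (x₀ : ℝ) (w : ℂ) : 1 - ‖w‖ ≤ ‖AA x₀ w‖ := (AA_re x₀ w).trans (Complex.re_le_norm _)

lemma AA_zp (x₀ τ : ℝ) : AA x₀ (zp x₀ τ) = (τ : ℂ) := by
  have hc : conj (cp x₀) * cp x₀ = 1 := by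
    rw [mul_comm, Complex.mul_conj, Complex.normSq_eq_norm_sq, norm_cp]; simp
  rw [AA, zp]
  push_cast
  linear_combination (-(1 - (τ:ℂ))) * hc

lemma AA_cp (x₀ θ : ℝ) : ‖AA x₀ (cp θ)‖ = ‖cp θ - cp x₀‖ := by
  have hc : conj (cp x₀) * cp x₀ = 1 := by
    rw [mul_comm, Complex.mul_conj, Complex.normSq_eq_norm_sq, norm_cp]; simp
  have : AA x₀ (cp θ) = -(conj (cp x₀)) * (cp θ - cp x₀) := by
    rw [AA]; linear_combination (-1 : ℂ) * hc
  rw [this, norm_mul, norm_neg, RCLike.norm_conj, norm_cp, one_mul]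

lemma add_norm_sq {ρ : ℝ} (hρ : 0 ≤ ρ) {A : ℂ} (hA : 0 ≤ A.re) :
    ρ^2 + ‖A‖^2 ≤ ‖(ρ : ℂ) + A‖^2 := by
  rw [← Complex.normSq_eq_norm_sq, ← Complex.normSq_eq_norm_sq]
  simp only [Complex.normSq_apply, Complex.add_re, Complex.add_im, Complex.ofReal_re,
    Complex.ofReal_im, zero_add]
  nlinarith [mul_nonneg hρ hA]

lemma add_ne {ρ : ℝ} (hρ : 0 < ρ) {A : ℂ} (hA : 0 ≤ A.re) : (ρ : ℂ) + A ≠ 0 := by
  intro h
  have := add_norm_sq hρ.le hA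
  rw [h, norm_zero] at this
  nlinarith [sq_nonneg ‖A‖, sq_pos_of_pos hρ]

lemma KA_norm_sq {x₀ ρ : ℝ} (hρ : 0 < ρ) {w : ℂ} (hw : ‖w‖ ≤ 1) :
    ‖KA x₀ ρ w‖^2 ≤ ρ^2 / (ρ^2 + ‖AA x₀ w‖^2) := by
  have hA : 0 ≤ (AA x₀ w).re := by linarith [AA_re x₀ w]
  rw [KA, norm_div, div_pow, Complex.norm_real, Real.norm_eq_abs, sq_abs]
  exact div_le_div_of_nonneg_left (by positivity) (by positivity) (add_norm_sq hρ.le hA)

lemma KA_norm_le {x₀ ρ : ℝ} (hρ : 0 < ρ) {w : ℂ} (hw : ‖w‖ ≤ 1) : ‖KA x₀ ρ w‖ ≤ 1 := by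
  have h1 := KA_norm_sq (x₀ := x₀) hρ hw
  have h2 : ρ^2 / (ρ^2 + ‖AA x₀ w‖^2) ≤ 1 := by
    rw [div_le_one (by positivity)]
    nlinarith [sq_nonneg ‖AA x₀ w‖]
  have h3 : ‖KA x₀ ρ w‖^2 ≤ 1 := h1.trans h2
  nlinarith [norm_nonneg (KA x₀ ρ w)]

lemma KA_diff (x₀ : ℝ) {ρ : ℝ} (hρ : 0 < ρ) : DifferentiableOn ℂ (KA x₀ ρ) (ball 0 (1 + ρ)) := by
  intro w hw
  rw [mem_ball_zero_iff] at hw
  apply DifferentiableAt.differentiableWithinAt
  have hne : (ρ : ℂ) + AA x₀ w ≠ 0 := by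
    intro h
    have h1 := congrArg Complex.re h
    have h2 := AA_re x₀ w
    rw [Complex.add_re, Complex.ofReal_re, Complex.zero_re] at h1
    linarith
  have h1 : DifferentiableAt ℂ (fun w => (ρ : ℂ) + AA x₀ w) w := by
    unfold AA; fun_prop
  exact DifferentiableAt.div (differentiableAt_const _) h1 hne

lemma KA_zp {x₀ ρ τ : ℝ} : KA x₀ ρ (zp x₀ τ) = (ρ : ℂ) / ((ρ : ℂ) + τ) := by
  rw [KA, AA_zp]

lemma cp_dist_eq (x y : ℝ) : ‖cp x - cp y‖ = |2 * Real.sin ((x - y) / 2)| := by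
  have h1 : cp x - cp y = cp y * (exp (I * ((x - y : ℝ) : ℂ)) - 1) := by
    have : cp x = cp y * exp (I * ((x - y : ℝ) : ℂ)) := by
      rw [cp, cp, ← Complex.exp_add]; congr 1; push_cast; ring
    rw [this]; ring
  rw [h1, norm_mul, norm_cp, one_mul, Complex.norm_exp_I_mul_ofReal_sub_one, Real.norm_eq_abs]

lemma cp_dist_ge {x y : ℝ} (h : |x - y| ≤ Real.pi) : |x - y| / 2 ≤ ‖cp x - cp y‖ := by
  rw [cp_dist_eq]
  have h0 : 0 ≤ |x - y| / 2 := by positivity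
  have h1 := Real.mul_le_sin h0 (by linarith)
  have h2 : |2 * Real.sin ((x - y) / 2)| = 2 * Real.sin (|x - y| / 2) := by
    have e : Real.sin (|x - y| / 2) = |Real.sin ((x - y) / 2)| := by
      have hs : 0 ≤ Real.sin (|x - y| / 2) :=
        Real.sin_nonneg_of_nonneg_of_le_pi h0 (by linarith [Real.pi_pos])
      rcases abs_cases (x - y) with ⟨h3, _⟩ | ⟨h3, _⟩
      · rw [h3] at hs ⊢; rw [abs_of_nonneg hs]
      · rw [h3] at hs ⊢
        have : -(x - y) / 2 = -((x - y) / 2) := by ring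
        rw [this, Real.sin_neg] at hs ⊢
        rw [abs_of_nonpos (by linarith)]
    rw [abs_mul, abs_of_pos (by norm_num : (0:ℝ) < 2), e]
  rw [h2]
  have h3 : (1:ℝ)/4 ≤ 2 / Real.pi / 2 := by
    rw [div_div, div_le_div_iff₀ (by norm_num) (by positivity)]
    linarith [Real.pi_le_four]
  have h4 : |x - y| / 4 ≤ 2 / Real.pi * (|x - y| / 2) := by
    have : 2 / Real.pi * (|x - y| / 2) = (2 / Real.pi / 2) * |x - y| := by ring
    rw [this]
    nlinarith [abs_nonneg (x - y)]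
  linarith

lemma cp_dist_le (x y : ℝ) : ‖cp x - cp y‖ ≤ |x - y| := by
  rw [cp_dist_eq, abs_mul, abs_of_pos (by norm_num : (0:ℝ) < 2)]
  have h1 : |Real.sin ((x - y) / 2)| ≤ |(x - y) / 2| := Real.abs_sin_le_abs
  rw [abs_div, abs_of_pos (by norm_num : (0:ℝ) < 2)] at h1
  linarith

lemma zp_dist {x₀ τ : ℝ} (θ : ℝ) :
    ‖cp θ - zp x₀ τ‖^2 = τ^2 + (1 - τ) * ‖cp θ - cp x₀‖^2 := by
  have h1 : ‖cp θ‖^2 = 1 := by rw [norm_cp]; norm_num
  have h2 : ‖cp x₀‖^2 = 1 := by rw [norm_cp]; norm_num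
  rw [← Complex.normSq_eq_norm_sq] at h1 h2
  rw [← Complex.normSq_eq_norm_sq, ← Complex.normSq_eq_norm_sq, zp]
  simp only [Complex.normSq_apply, Complex.sub_re, Complex.sub_im, Complex.mul_re, Complex.mul_im,
    Complex.ofReal_re, Complex.ofReal_im, zero_mul, sub_zero, add_zero] at *
  linear_combination τ * h1 + (τ^2 - τ) * h2

lemma pk_zp_le {x₀ τ θ : ℝ} (h0 : 0 < τ) (h1 : τ ≤ 1/2) (h : |θ - x₀| ≤ Real.pi) :
    pk (zp x₀ τ) θ ≤ 32 / (τ * (1 + |θ - x₀| / τ)^2) := by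
  have hd := cp_dist_ge h
  have hy := abs_nonneg (θ - x₀)
  set y := |θ - x₀| with hyd
  have h2 : (τ + y)^2 / 16 ≤ ‖cp θ - zp x₀ τ‖^2 := by
    rw [zp_dist]
    have h3 : (y/2)^2 ≤ ‖cp θ - cp x₀‖^2 := pow_le_pow_left₀ (by positivity) hd 2
    nlinarith [sq_nonneg (τ - y), mul_nonneg (by linarith : (0:ℝ) ≤ 1/2 - τ) (sq_nonneg ‖cp θ - cp x₀‖)]
  unfold pk
  rw [norm_zp (by linarith)]
  have h4 : (τ * (1 + y / τ)^2) = (τ + y)^2 / τ := by field_simp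
  rw [h4, div_div_eq_mul_div]
  have h5 : 0 < (τ + y)^2 := by positivity
  rw [div_le_div_iff₀ (lt_of_lt_of_le (by positivity) h2) h5]
  have h6 : 1 - (1 - τ)^2 ≤ 2 * τ := by nlinarith
  have h7 : 0 ≤ 1 - (1 - τ)^2 := by nlinarith
  calc (1 - (1 - τ)^2) * (τ + y)^2 ≤ (2 * τ) * (τ + y)^2 := mul_le_mul_of_nonneg_right h6 h5.le
    _ = 32 * τ * ((τ + y)^2 / 16) := by ring
    _ ≤ 32 * τ * ‖cp θ - zp x₀ τ‖^2 := mul_le_mul_of_nonneg_left h2 (by positivity)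

lemma pk_zp_ge {x₀ τ θ : ℝ} (h0 : 0 < τ) (h1 : τ ≤ 1/2) (h : |θ - x₀| ≤ τ) :
    1 / (2 * τ) ≤ pk (zp x₀ τ) θ := by
  have hd := cp_dist_le θ x₀
  have h2 : ‖cp θ - zp x₀ τ‖^2 ≤ 2 * τ^2 := by
    rw [zp_dist]
    have h3 : ‖cp θ - cp x₀‖^2 ≤ τ^2 := pow_le_pow_left₀ (norm_nonneg _) (hd.trans h) 2
    nlinarith [sq_nonneg τ]
  have hpos : 0 < ‖cp θ - zp x₀ τ‖^2 := by
    have := norm_pos_iff.2 (cp_sub_ne (norm_zp_lt (x₀ := x₀) h0 (by linarith)) θ)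
    positivity
  unfold pk
  rw [norm_zp (by linarith), div_le_div_iff₀ (by positivity) hpos]
  have h6 : τ ≤ 1 - (1 - τ)^2 := by nlinarith
  nlinarith

lemma KA_cp_sq {x₀ ρ θ : ℝ} (hρ : 0 < ρ) (h : |θ - x₀| ≤ Real.pi) :
    ‖KA x₀ ρ (cp θ)‖^2 ≤ 4 / (1 + (|θ - x₀| / ρ)^2) := by
  have h1 := KA_norm_sq (x₀ := x₀) hρ (w := cp θ) (norm_cp θ).le
  rw [AA_cp] at h1
  have hd := cp_dist_ge h
  refine h1.trans ?_
  have h3 : (|θ - x₀|/2)^2 ≤ ‖cp θ - cp x₀‖^2 := pow_le_pow_left₀ (by positivity) hd 2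
  rw [div_le_div_iff₀ (by positivity) (by positivity)]
  have e : ρ^2 * (1 + (|θ - x₀| / ρ)^2) = ρ^2 + |θ - x₀|^2 := by field_simp
  rw [e]
  nlinarith [sq_nonneg ρ]

lemma KA_cp_le {x₀ τ θ : ℝ} (hτ : 0 < τ) (h : |θ - x₀| ≤ Real.pi) :
    ‖KA x₀ τ (cp θ)‖ ≤ 3 / (1 + |θ - x₀| / τ) := by
  have h1 := KA_cp_sq hτ h
  have hy : 0 ≤ |θ - x₀| / τ := by positivity
  set y := |θ - x₀| / τ with hyd
  have h2 : ‖KA x₀ τ (cp θ)‖^2 ≤ (3 / (1 + y))^2 := by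
    refine h1.trans ?_
    have e : (3 / (1 + y))^2 = 9 / (1 + y)^2 := by rw [div_pow (3:ℝ) (1 + y) 2]; norm_num
    rw [e]
    have e1 : (0:ℝ) < 1 + y^2 := by positivity
    have e2 : (0:ℝ) < (1 + y)^2 := by positivity
    rw [div_le_div_iff₀ e1 e2]
    nlinarith [sq_nonneg (1 - y)]
  exact (sq_le_sq₀ (norm_nonneg _) (by positivity)).1 h2

/-- constants and analytic functions are in `H¹` -/
lemma isH1_analytic {h : ℂ → ℂ} {R : ℝ} (hR : 1 < R) (hh : DifferentiableOn ℂ h (ball 0 R)) :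
    IsH1 h ∧ ∀ z : ℂ, ‖z‖ < 1 → ext h z = h z := by
  have hsub : closedBall (0:ℂ) 1 ⊆ ball 0 R := closedBall_subset_ball hR
  have hhc : Continuous (fun θ => h (cp θ)) := by
    rw [continuous_iff_continuousAt]
    intro θ
    have : ContinuousAt h (cp θ) := (hh.differentiableAt (isOpen_ball.mem_nhds (by
      rw [mem_ball_zero_iff, norm_cp]; exact hR))).continuousAt
    exact this.comp continuous_cp.continuousAt
  refine ⟨⟨hhc.intervalIntegrable _ _, fun n hn => ?_⟩, fun z hz => ?_⟩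
  · have hd : DiffContOnCl ℂ (fun w => h w * w^n) (ball 0 1) := by
      apply DifferentiableOn.diffContOnCl
      rw [closure_ball _ one_ne_zero]
      exact (hh.mono hsub).mul (by fun_prop)
    have h1 := poisson_formula hd (z := 0) (by simp)
    have h2 : ∀ θ, pk 0 θ = 1 := by intro θ; simp [pk, norm_cp]
    simp only [h2, Complex.ofReal_one, one_mul, zero_pow (by omega : n ≠ 0), mul_zero] at h1
    rcases mul_eq_zero.1 h1 with h3 | h3
    · exfalso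
      have : ((2 * Real.pi)⁻¹ : ℝ) ≠ 0 := (inv_pos.2 two_pi_pos').ne'
      exact this (by exact_mod_cast h3)
    · exact h3
  · apply poisson_formula _ hz
    apply DifferentiableOn.diffContOnCl
    rw [closure_ball _ one_ne_zero]
    exact hh.mono hsub

lemma IsH1.sub_const {f : ℂ → ℂ} (hf : IsH1 f) (c : ℂ) :
    IsH1 (fun ζ => f ζ - c) ∧ ∀ z : ℂ, ‖z‖ < 1 → ext (fun ζ => f ζ - c) z = ext f z - c := by
  have hc := isH1_analytic (h := fun _ => c) (R := 2) (by norm_num) (differentiableOn_const _)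
  constructor
  · refine ⟨hf.1.sub intervalIntegrable_const, fun n hn => ?_⟩
    have h1 := hf.2 n hn
    have h2 := hc.1.2 n hn
    have e : (fun θ => (f (cp θ) - c) * cp θ ^ n) = fun θ => f (cp θ) * cp θ ^ n - c * cp θ ^ n := by
      funext θ; ring
    rw [e, intervalIntegral.integral_sub, h1, h2, sub_zero]
    · exact hf.1.mul_continuousOn (continuous_cp.pow n).continuousOn
    · exact (continuous_const.mul (continuous_cp.pow n)).intervalIntegrable _ _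
  · intro z hz
    have e3 : ext (fun _ => c) z = c := hc.2 z hz
    have e4 : ext (fun ζ => f ζ - c) z = ext f z - ext (fun _ => c) z := by
      rw [ext_eq, ext_eq, ext_eq, ← mul_sub, ← intervalIntegral.integral_sub]
      · congr 1
        apply intervalIntegral.integral_congr
        intro θ _
        simp only
        ring
      · exact hf.1.li.pk_mul hz _ _
      · exact ((Complex.continuous_ofReal.comp (continuous_pk hz)).mul
          continuous_const).intervalIntegrable _ _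
    rw [e4, e3]

/-- shift of the period -/
lemma int_shift {ψ : ℝ → ℝ} (hp : Function.Periodic ψ (2 * Real.pi)) (x₀ : ℝ) :
    ∫ θ in (0:ℝ)..(2 * Real.pi), ψ θ = ∫ θ in (x₀ - Real.pi)..(x₀ + Real.pi), ψ θ := by
  have := hp.intervalIntegral_add_eq 0 (x₀ - Real.pi)
  rw [zero_add] at this
  rw [this]
  congr 1
  ring

end Pool.Agent.Helper34.Bmo
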