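import Pool.Agent.Helper34.Bmo.Eval
import Pool.Agent.Helper34.Bmo.MaxPr

set_option autoImplicit false

namespace Pool.Agent.Helper34.Bmo

open Complex Metric Set Filter Topology MeasureTheory ComplexConjugate

/-- real part of `A/(ρ+A)` -/
lemma re_quot {ρ : ℝ} (hρ : 0 < ρ) {A : ℂ} (hA : 0 ≤ A.re) :
    0 ≤ (A / ((ρ : ℂ) + A)).re ∧ (ρ ≤ ‖A‖ → 1/2 ≤ (A / ((ρ : ℂ) + A)).re) := by
  have hn : (ρ : ℂ) + A ≠ 0 := add_ne hρ hA
  have hn2 : 0 < normSq ((ρ : ℂ) + A) := normSq_pos.2 hn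
  have e : (A / ((ρ : ℂ) + A)).re = (ρ * A.re + (A.re^2 + A.im^2)) / normSq ((ρ : ℂ) + A) := by
    rw [Complex.div_re, ← add_div]
    congr 1
    simp
    ring
  have e2 : normSq ((ρ : ℂ) + A) = ρ^2 + 2 * ρ * A.re + (A.re^2 + A.im^2) := by
    rw [normSq_apply]; simp; ring
  have e3 : ‖A‖^2 = A.re^2 + A.im^2 := by
    rw [← Complex.normSq_eq_norm_sq, normSq_apply]; ring
  rw [e]
  constructor
  · apply div_nonneg _ hn2.le
    positivity
  · intro h
    have h2 : ρ^2 ≤ ‖A‖^2 := pow_le_pow_left₀ hρ.le h 2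
    rw [le_div_iff₀ hn2, e2]
    rw [e3] at h2
    nlinarith [mul_nonneg hρ.le hA]

lemma AA_re_nonneg (x₀ : ℝ) {w : ℂ} (hw : ‖w‖ ≤ 1) : 0 ≤ (AA x₀ w).re := by
  have := AA_re x₀ w
  linarith

lemma KA_ge_half {x₀ ρ : ℝ} (hρ : 0 < ρ) {w : ℂ} (hw : ‖w‖ ≤ 1) (h : ‖AA x₀ w‖ ≤ ρ) :
    1/2 ≤ ‖KA x₀ ρ w‖ := by
  have hn : (ρ : ℂ) + AA x₀ w ≠ 0 := add_ne hρ (AA_re_nonneg x₀ hw)
  unfold KA
  rw [norm_div, Complex.norm_real, Real.norm_eq_abs, abs_of_pos hρ,
    div_le_div_iff₀ (by norm_num) (norm_pos_iff.2 hn)]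
  have : ‖(ρ : ℂ) + AA x₀ w‖ ≤ ρ + ρ := by
    refine (norm_add_le _ _).trans ?_
    rw [Complex.norm_real, Real.norm_eq_abs, abs_of_pos hρ]
    linarith
  linarith

lemma H2_diff (x₀ : ℝ) {ρ : ℝ} (hρ : 0 < ρ) :
    DifferentiableOn ℂ (fun w => AA x₀ w / ((ρ : ℂ) + AA x₀ w)) (ball 0 1) := by
  have hA : Differentiable ℂ (AA x₀) := by
    unfold AA
    fun_prop
  apply DifferentiableOn.div hA.differentiableOn
    ((hA.const_add _).differentiableOn)
  intro w hw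
  rw [mem_ball_zero_iff] at hw
  exact add_ne hρ (AA_re_nonneg x₀ hw.le)

lemma star_of_iii {f Θ : ℂ → ℂ} (hf : IsH1 f) (hΘ : IsInner Θ) {Ω : ℝ → ℝ} {M Ca : ℝ}
    (h : RB (fun θ => f (cp θ)) Ω M Ca) {ε N : ℝ} (hε0 : 0 < ε) (hε1 : ε < 1) (hN : 1 ≤ N)
    (hiii : ∀ w : ℂ, ‖w‖ < 1 → ‖Θ w‖ < ε → ‖ext f w‖ ≤ N * Ω (2 * Real.pi * (1 - ‖w‖))) :
    ∃ C : ℝ, 0 ≤ C ∧ ∀ x₀ τ : ℝ, 0 < τ → τ ≤ 1/2 →
      ‖ext f (zp x₀ τ)‖ * (1 - ‖Θ (zp x₀ τ)‖) ≤ C * Ω (2 * τ) := by
  have hM := h.M0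
  have hCa := h.Ca1
  have hpi := Real.pi_pos
  have hpi3 := Real.pi_gt_three
  set ε' := ε / 2 with hε'
  have hε'0 : 0 < ε' := by positivity
  have hε'1 : ε' < 1 := by linarith
  set L := Real.log (1 / ε') with hL
  have hL0 : 0 ≤ L := Real.log_nonneg (by rw [le_div_iff₀ hε'0]; linarith)
  refine ⟨2 * Real.pi * N * Ca + L * (864000000 * M^2 * Ca + 4 * Real.pi * N * Ca), by positivity, ?_⟩
  intro x₀ τ h0 h1
  set z := zp x₀ τ with hz
  have hz1 : ‖z‖ < 1 := norm_zp_lt h0 (by linarith)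
  have hznorm : ‖z‖ = 1 - τ := norm_zp (by linarith)
  set B := Ω (2 * τ) with hB
  have hB0 : 0 < B := h.pos (2 * τ) (by linarith)
  set a := ‖ext f z‖ with ha
  have ha0 : 0 ≤ a := norm_nonneg _
  have hT1 : ‖Θ z‖ ≤ 1 := hΘ.norm_le_one hz1
  have hT0 : 0 ≤ ‖Θ z‖ := norm_nonneg _
  have triv : a ≤ 2 * Real.pi * N * Ca * B → a * (1 - ‖Θ z‖) ≤
      (2 * Real.pi * N * Ca + L * (864000000 * M^2 * Ca + 4 * Real.pi * N * Ca)) * B := by
    intro h2
    have h3 : a * (1 - ‖Θ z‖) ≤ a := by nlinarith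
    have h4 : 0 ≤ L * (864000000 * M^2 * Ca + 4 * Real.pi * N * Ca) * B := by positivity
    nlinarith
  by_cases hc1 : ‖Θ z‖ ≤ ε'
  · apply triv
    have h2 := hiii z hz1 (by linarith)
    have h3 : 2 * Real.pi * (1 - ‖z‖) = Real.pi * (2 * τ) := by rw [hznorm]; ring
    rw [h3] at h2
    have h4 := h.grow Real.pi (2 * τ) (by linarith) (by linarith)
    have h5 : N * Ω (Real.pi * (2 * τ)) ≤ N * (Ca * Real.pi * B) :=
      mul_le_mul_of_nonneg_left h4 (by linarith)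
    have h6 : 0 ≤ Real.pi * N * Ca * B := by positivity
    nlinarith
  push Not at hc1
  set X := a / (2 * Real.pi * N * Ca * B) with hX
  have hD : 0 < 2 * Real.pi * N * Ca * B := by positivity
  by_cases hc2 : X < 1
  · apply triv
    rw [hX, div_lt_one hD] at hc2
    exact hc2.le
  push Not at hc2
  have hX0 : 0 < X := by linarith
  have haX : a = X * (2 * Real.pi * N * Ca * B) := by
    rw [hX]; field_simp
  have ha0' : 0 < a := by rw [haX]; positivity
  set ρ := X * τ with hρ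
  have hρ0 : 0 < ρ := by positivity
  have hρτ : τ ≤ ρ := by rw [hρ]; nlinarith
  obtain ⟨hs1, hs2⟩ := hf.sub_const (ext f z)
  obtain ⟨hu1, hu2⟩ := hs1.mul_analytic (R := 1 + ρ) (by linarith) (KA_diff x₀ hρ0)
  have hKc : Continuous fun θ => KA x₀ ρ (cp θ) := by
    rw [continuous_iff_continuousAt]
    intro θ
    have : ContinuousAt (KA x₀ ρ) (cp θ) := ((KA_diff x₀ hρ0).differentiableAt
      (isOpen_ball.mem_nhds (by rw [mem_ball_zero_iff, norm_cp]; linarith))).continuousAt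
    exact this.comp continuous_cp.continuousAt
  have husq : IntervalIntegrable (fun θ => ‖(f (cp θ) - ext f z) * KA x₀ ρ (cp θ)‖^2) volume
      0 (2 * Real.pi) := by
    have := (h.sq_int (ext f z) 0 (2 * Real.pi)).mul_continuousOn
      (g := fun θ => ‖KA x₀ ρ (cp θ)‖^2) (hKc.norm.pow 2).continuousOn
    exact this.congr (fun θ _ => by
      rw [norm_mul, mul_pow])
  obtain ⟨H1, hH1d, hH1r⟩ := herglotz (ψ := fun ζ => ‖(f ζ - ext f z) * KA x₀ ρ ζ‖^2) husq
  have hH1ge : ∀ w : ℂ, ‖w‖ < 1 → ‖(ext f w - ext f z) * KA x₀ ρ w‖^2 ≤ (H1 w).re := by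
    intro w hw
    rw [hH1r w hw]
    have := ext_sq hu1.1 husq hw
    rw [hu2 w hw, hs2 w hw] at this
    exact this
  set H : ℂ → ℂ := fun w => ((16 / a^2 : ℝ) : ℂ) * H1 w + ((2:ℝ) : ℂ) * (AA x₀ w / ((ρ : ℂ) + AA x₀ w))
    with hH
  have hHd : DifferentiableOn ℂ H (ball 0 1) := by
    simp only [hH]
    exact (hH1d.const_mul _).add ((H2_diff x₀ hρ0).const_mul _)
  have hHre : ∀ w, (H w).re = 16 / a^2 * (H1 w).re + 2 * (AA x₀ w / ((ρ : ℂ) + AA x₀ w)).re := by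
    intro w
    simp only [hH]
    rw [Complex.add_re, Complex.re_ofReal_mul, Complex.re_ofReal_mul]
  have hH0 : ∀ w, ‖w‖ < 1 → 0 ≤ (H w).re := by
    intro w hw
    rw [hHre w]
    have e1 := (re_quot hρ0 (AA_re_nonneg x₀ hw.le)).1
    have e2 := (sq_nonneg _).trans (hH1ge w hw)
    positivity
  have hHge : ∀ w, ‖w‖ < 1 → ‖Θ w‖ ≤ ε' → 1 ≤ (H w).re := by
    intro w hw hTw
    rw [hHre w]
    by_cases hcase : ρ ≤ ‖AA x₀ w‖
    · have e1 := (re_quot hρ0 (AA_re_nonneg x₀ hw.le)).2 hcase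
      have e2 := (sq_nonneg _).trans (hH1ge w hw)
      have e3 : 0 ≤ 16 / a^2 * (H1 w).re := by positivity
      linarith
    · push Not at hcase
      have e1 := (re_quot hρ0 (AA_re_nonneg x₀ hw.le)).1
      have e2 := KA_ge_half hρ0 hw.le hcase.le
      have e3 := hiii w hw (by linarith)
      have e4 := AA_norm_ge x₀ w
      have e5 : Ω (2 * Real.pi * (1 - ‖w‖)) ≤ Ca * (Real.pi * X) * B := by
        refine (h.mono _ (Real.pi * X * (2 * τ)) ?_ ?_).trans (h.grow (Real.pi * X) (2 * τ) ?_ (by linarith))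
        · have : 0 < 1 - ‖w‖ := by linarith
          positivity
        · have : 1 - ‖w‖ ≤ X * τ := by rw [← hρ]; linarith
          nlinarith
        · nlinarith
      have e6 : ‖ext f w‖ ≤ a / 2 := by
        calc _ ≤ N * (Ca * (Real.pi * X) * B) :=
              e3.trans (mul_le_mul_of_nonneg_left e5 (by linarith))
          _ = a / 2 := by rw [haX]; ring
      have e7 : a / 2 ≤ ‖ext f w - ext f z‖ := by
        have := norm_sub_norm_le (ext f z) (ext f w)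
        rw [norm_sub_rev] at this
        linarith
      have e8 : a / 4 ≤ ‖(ext f w - ext f z) * KA x₀ ρ w‖ := by
        rw [norm_mul]
        calc a / 4 = a / 2 * (1 / 2) := by ring
          _ ≤ _ := mul_le_mul e7 e2 (by norm_num) (norm_nonneg _)
      have e9 : (a / 4)^2 ≤ (H1 w).re := (pow_le_pow_left₀ (by positivity) e8 2).trans (hH1ge w hw)
      have e10 : 1 ≤ 16 / a^2 * (H1 w).re := by
        rw [div_mul_eq_mul_div, le_div_iff₀ (by positivity)]
        nlinarith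
      linarith
  have hmp := max_pr hΘ hε'0 hε'1 hHd hH0 hHge hz1 hc1
  rw [← hL] at hmp
  have hTpos : 0 < ‖Θ z‖ := by linarith
  have hlog : 1 - ‖Θ z‖ ≤ Real.log (1 / ‖Θ z‖) := by
    rw [one_div, Real.log_inv]
    have := Real.log_le_sub_one_of_pos hTpos
    linarith
  -- the value at z
  have hv1 : (H1 z).re ≤ 54000000 * X * (M * Ca * B)^2 := by
    rw [hH1r z hz1]
    have := l2_eval hf h (x₀ := x₀) h0 h1 hρτ
    have e : ρ / τ = X := by rw [hρ]; field_simp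
    rw [e] at this
    exact this
  have hv2 : (AA x₀ z / ((ρ : ℂ) + AA x₀ z)).re ≤ 1 / X := by
    rw [hz, AA_zp, ← Complex.ofReal_add, ← Complex.ofReal_div, Complex.ofReal_re]
    rw [div_le_div_iff₀ (by positivity) hX0]
    rw [hρ]
    nlinarith
  have hv : (H z).re ≤ 16 / a^2 * (54000000 * X * (M * Ca * B)^2) + 2 * (1 / X) := by
    rw [hHre z]
    exact add_le_add (mul_le_mul_of_nonneg_left hv1 (by positivity))
      (mul_le_mul_of_nonneg_left hv2 (by norm_num))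
  have hfin : a * (16 / a^2 * (54000000 * X * (M * Ca * B)^2) + 2 * (1 / X)) ≤
      (864000000 * M^2 * Ca + 4 * Real.pi * N * Ca) * B := by
    have e1 : a * (2 * (1 / X)) = 4 * Real.pi * N * Ca * B := by
      rw [haX]; field_simp; ring
    have e2 : a * (16 / a^2 * (54000000 * X * (M * Ca * B)^2)) =
        864000000 * M^2 * Ca * B / (2 * Real.pi * N) := by
      have : a * (16 / a^2 * (54000000 * X * (M * Ca * B)^2)) =
        864000000 * X * (M * Ca * B)^2 / a := by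
        field_simp
        ring
      rw [this, haX]
      have hN0 : N ≠ 0 := by linarith
      have hCa0 : Ca ≠ 0 := by linarith
      field_simp
    have e3 : 864000000 * M^2 * Ca * B / (2 * Real.pi * N) ≤ 864000000 * M^2 * Ca * B := by
      apply div_le_self (by positivity)
      nlinarith
    rw [mul_add, e1, e2]
    nlinarith
  calc a * (1 - ‖Θ z‖) ≤ a * (L * (H z).re) :=
        mul_le_mul_of_nonneg_left (hlog.trans hmp) ha0
    _ ≤ a * (L * (16 / a^2 * (54000000 * X * (M * Ca * B)^2) + 2 * (1 / X))) := by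
        apply mul_le_mul_of_nonneg_left _ ha0
        exact mul_le_mul_of_nonneg_left hv hL0
    _ = L * (a * (16 / a^2 * (54000000 * X * (M * Ca * B)^2) + 2 * (1 / X))) := by ring
    _ ≤ L * ((864000000 * M^2 * Ca + 4 * Real.pi * N * Ca) * B) :=
        mul_le_mul_of_nonneg_left hfin hL0
    _ ≤ _ := by nlinarith

end Pool.Agent.Helper34.Bmo
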