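import Pool.Agent.Helper34.Bmo.Star

set_option autoImplicit false

namespace Pool.Agent.Helper34.Bmo

open Complex Metric Set Filter Topology MeasureTheory ComplexConjugate

lemma l1_point {f : ℂ → ℂ} (hf : IsH1 f) {Ω : ℝ → ℝ} {M Ca : ℝ}
    (h : RB (fun θ => f (cp θ)) Ω M Ca) {x₀ τ : ℝ} (h0 : 0 < τ) (h1 : τ ≤ 1/2) :
    ∫ θ in (x₀ - τ)..(x₀ + τ), ‖f (cp θ) - ext f (zp x₀ τ)‖ ≤
      (5120 * Ca + 1) * M * Ω (2 * τ) * (2 * τ) := by
  set φ : ℝ → ℂ := fun θ => f (cp θ) with hφ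
  set c := mean φ (x₀ - τ) (x₀ + τ) with hc
  have hpe := point_eval hf h (x₀ := x₀) h0 h1
  rw [← hφ, ← hc] at hpe
  have hosc := h.osc (x₀ - τ) (x₀ + τ) (by linarith)
  rw [← hc] at hosc
  have e1 : x₀ + τ - (x₀ - τ) = 2 * τ := by ring
  rw [e1] at hosc
  have e2 : ∫ θ in (x₀ - τ)..(x₀ + τ), ‖f (cp θ) - ext f (zp x₀ τ)‖ ≤
      ∫ θ in (x₀ - τ)..(x₀ + τ), (‖φ θ - c‖ + ‖ext f (zp x₀ τ) - c‖) := by
    apply intervalIntegral.integral_mono_on (by linarith) (h.li.sub_norm _ _ _)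
      ((h.li.sub_norm _ _ _).add intervalIntegrable_const)
    intro θ _
    have e : f (cp θ) - ext f (zp x₀ τ) = (φ θ - c) - (ext f (zp x₀ τ) - c) := by
      simp only [hφ]; ring
    rw [e]; exact norm_sub_le _ _
  rw [intervalIntegral.integral_add (h.li.sub_norm _ _ _) intervalIntegrable_const,
    intervalIntegral.integral_const, smul_eq_mul, e1] at e2
  have e3 : 2 * τ * ‖ext f (zp x₀ τ) - c‖ ≤ 2 * τ * (5120 * M * Ca * Ω (2 * τ)) :=
    mul_le_mul_of_nonneg_left hpe (by linarith)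
  linarith

/-- bounded mean oscillation of `f` and `fΘ` gives the pointwise condition -/
lemma star_of_bmo {f Θ : ℂ → ℂ} (hf : IsH1 f) (hΘ : IsInner Θ) {Ω : ℝ → ℝ} {M M' Ca : ℝ}
    (h : RB (fun θ => f (cp θ)) Ω M Ca) (h' : RB (fun θ => f (cp θ) * Θ (cp θ)) Ω M' Ca)
    {x₀ τ : ℝ} (h0 : 0 < τ) (h1 : τ ≤ 1/2) :
    ‖ext f (zp x₀ τ)‖ * (1 - ‖Θ (zp x₀ τ)‖) ≤ (5120 * Ca + 1) * (M + M') * Ω (2 * τ) := by
  obtain ⟨hG1, hG2⟩ := hf.mul_inner hΘ
  have hz1 : ‖zp x₀ τ‖ < 1 := norm_zp_lt h0 (by linarith)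
  have a1 := l1_point hf h (x₀ := x₀) h0 h1
  have a2 := l1_point hG1 h' (x₀ := x₀) h0 h1
  rw [hG2 _ hz1] at a2
  set F := ext f (zp x₀ τ) with hF
  set c := Θ (zp x₀ τ) with hc
  have hI1 : IntervalIntegrable (fun θ => ‖f (cp θ) - F‖) volume (x₀ - τ) (x₀ + τ) :=
    h.li.sub_norm _ _ _
  have hI2 : IntervalIntegrable (fun θ => ‖f (cp θ) * Θ (cp θ) - F * c‖) volume (x₀ - τ) (x₀ + τ) :=
    h'.li.sub_norm _ _ _
  have e1 : ∫ _θ in (x₀ - τ)..(x₀ + τ), ‖F‖ * (1 - ‖c‖) ≤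
      ∫ θ in (x₀ - τ)..(x₀ + τ), (‖f (cp θ) - F‖ + ‖f (cp θ) * Θ (cp θ) - F * c‖) := by
    apply intervalIntegral.integral_mono_ae (by linarith) intervalIntegrable_const (hI1.add hI2)
    filter_upwards [hΘ.bdry] with θ hθ
    have hb := hθ.1
    have k1 : 1 - ‖c‖ ≤ ‖Θ (cp θ) - c‖ := by
      have := norm_sub_norm_le (Θ (cp θ)) c
      rw [hb] at this; exact this
    calc ‖F‖ * (1 - ‖c‖) ≤ ‖F‖ * ‖Θ (cp θ) - c‖ := mul_le_mul_of_nonneg_left k1 (norm_nonneg _)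
      _ = ‖-((f (cp θ) - F) * Θ (cp θ)) + (f (cp θ) * Θ (cp θ) - F * c)‖ := by
          rw [← norm_mul]; congr 1; ring
      _ ≤ ‖(f (cp θ) - F) * Θ (cp θ)‖ + ‖f (cp θ) * Θ (cp θ) - F * c‖ := by
          refine (norm_add_le _ _).trans ?_
          rw [norm_neg]
      _ = _ := by rw [norm_mul, hb, mul_one]
  rw [intervalIntegral.integral_const, intervalIntegral.integral_add hI1 hI2, smul_eq_mul] at e1
  have e2 : (x₀ + τ - (x₀ - τ)) * (‖F‖ * (1 - ‖c‖)) = ‖F‖ * (1 - ‖c‖) * (2 * τ) := by ring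
  rw [e2] at e1
  have e3 : ‖F‖ * (1 - ‖c‖) * (2 * τ) ≤ (5120 * Ca + 1) * (M + M') * Ω (2 * τ) * (2 * τ) := by
    calc _ ≤ (5120 * Ca + 1) * M * Ω (2 * τ) * (2 * τ) + (5120 * Ca + 1) * M' * Ω (2 * τ) * (2 * τ) :=
          e1.trans (add_le_add a1 a2)
      _ = _ := by ring
  exact le_of_mul_le_mul_right e3 (by linarith)

lemma LI.sqrt_int {φ : ℝ → ℂ} (h : LI φ) (c : ℂ) (a b : ℝ) :
    IntervalIntegrable (fun x => √‖φ x - c‖) volume a b := by
  have h1 : IntervalIntegrable (fun x => 1 + ‖φ x - c‖) volume a b :=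
    intervalIntegrable_const.add (h.sub_norm c a b)
  apply h1.mono_fun
  · exact ((intervalIntegrable_iff.1 (h.sub_norm c a b)).aestronglyMeasurable.aemeasurable.sqrt).aestronglyMeasurable
  · filter_upwards with x
    have h0 : 0 ≤ ‖φ x - c‖ := norm_nonneg _
    rw [Real.norm_eq_abs, Real.norm_eq_abs, abs_of_nonneg (Real.sqrt_nonneg _),
      abs_of_nonneg (by positivity)]
    have := Real.sq_sqrt h0
    nlinarith [sq_nonneg (√‖φ x - c‖ - 1), Real.sqrt_nonneg ‖φ x - c‖]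

/-- `‖v^{1/2}‖ ≤ √2 Re v^{1/2}` on the right half-plane -/
lemma half_pow {v : ℂ} (hv : 0 < v.re) :
    ‖v ^ ((1/2 : ℂ))‖ = √‖v‖ ∧ √‖v‖ ≤ √2 * (v ^ ((1/2 : ℂ))).re := by
  have hv0 : v ≠ 0 := by
    intro h; rw [h] at hv; simp at hv
  set s := v ^ ((1/2 : ℂ)) with hs
  have hs2 : s * s = v := by
    rw [hs, ← Complex.cpow_add _ _ hv0]
    norm_num
  have hn : ‖s‖ * ‖s‖ = ‖v‖ := by rw [← norm_mul, hs2]
  have hns : ‖s‖ = √‖v‖ := by
    rw [← hn, Real.sqrt_mul_self (norm_nonneg _)]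
  have hre : 0 ≤ s.re := by
    rw [hs, Complex.cpow_def_of_ne_zero hv0, Complex.exp_re]
    apply mul_nonneg (Real.exp_pos _).le
    apply Real.cos_nonneg_of_mem_Icc
    have h1 : (Complex.log v * (1/2)).im = arg v / 2 := by
      have : Complex.log v * (1/2) = ((1/2 : ℝ) : ℂ) * Complex.log v := by push_cast; ring
      rw [this, Complex.im_ofReal_mul, Complex.log_im]; ring
    rw [h1]
    have h2 := Complex.neg_pi_lt_arg v
    have h3 := Complex.arg_le_pi v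
    constructor <;> linarith [Real.pi_pos]
  refine ⟨hns, ?_⟩
  have hre2 : v.re = s.re * s.re - s.im * s.im := by rw [← hs2, Complex.mul_re]
  have hn2 : ‖s‖^2 = s.re^2 + s.im^2 := by
    rw [← Complex.normSq_eq_norm_sq, normSq_apply]; ring
  rw [← hns]
  have h4 : ‖s‖^2 ≤ (√2 * s.re)^2 := by
    rw [mul_pow, Real.sq_sqrt (by norm_num : (0:ℝ) ≤ 2), hn2]
    nlinarith
  exact (pow_le_pow_iff_left₀ (norm_nonneg _) (by positivity) (by norm_num)).1 h4

/-- the Poisson mean of `√‖b - Θ(z)‖` -/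
lemma inner_dev {Θ : ℂ → ℂ} (hΘ : IsInner Θ) {z : ℂ} (hz : ‖z‖ < 1) :
    ∫ θ in (0:ℝ)..(2 * Real.pi), pk z θ * √‖Θ (cp θ) - Θ z‖ ≤
      4 * Real.pi * √(1 - ‖Θ z‖) := by
  have hpi := Real.pi_pos
  set c := Θ z with hc
  have hc1 : ‖c‖ ≤ 1 := hΘ.norm_le_one hz
  have hΘli : LI (fun θ => Θ (cp θ)) := by
    apply InL1.li
    have h1 : IntervalIntegrable (fun _ : ℝ => (1:ℝ)) volume 0 (2 * Real.pi) := intervalIntegrable_const
    apply h1.mono_fun
    · exact hΘ.meas.restrict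
    · filter_upwards [ae_restrict_of_ae hΘ.bdry] with θ hθ
      rw [hθ.1]; norm_num
  have key : ∀ δ : ℝ, 0 < δ → ∫ θ in (0:ℝ)..(2 * Real.pi), pk z θ * √‖Θ (cp θ) - Θ z‖ ≤
      2 * Real.pi * (√2 * √(1 + δ - ‖c‖^2)) := by
    intro δ hδ
    set Ψ : ℂ → ℂ := fun w => (((1 + δ : ℝ) : ℂ) - conj c * Θ w) ^ ((1/2 : ℂ)) with hΨ
    have hre : ∀ t : ℂ, ‖t‖ ≤ 1 → δ ≤ (((1 + δ : ℝ) : ℂ) - conj c * t).re := by
      intro t ht
      rw [Complex.sub_re, Complex.ofReal_re]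
      have h1 : (conj c * t).re ≤ ‖conj c * t‖ := Complex.re_le_norm _
      have h2 : ‖conj c * t‖ ≤ 1 := by
        rw [norm_mul, RCLike.norm_conj]
        exact mul_le_one₀ hc1 (norm_nonneg _) ht
      linarith
    have hre' : ∀ t : ℂ, ‖t‖ ≤ 1 → 0 < (((1 + δ : ℝ) : ℂ) - conj c * t).re := fun t ht =>
      lt_of_lt_of_le hδ (hre t ht)
    have hslit : ∀ t : ℂ, ‖t‖ ≤ 1 → (((1 + δ : ℝ) : ℂ) - conj c * t) ∈ slitPlane := fun t ht =>
      Or.inl (hre' t ht)
    have hd : DifferentiableOn ℂ Ψ (ball 0 1) := by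
      simp only [hΨ]
      apply DifferentiableOn.cpow _ (differentiableOn_const _)
      · intro w hw
        rw [mem_ball_zero_iff] at hw
        exact hslit _ (hΘ.norm_le_one hw)
      · exact (differentiableOn_const _).sub ((differentiableOn_const _).mul hΘ.diff)
    have hb : ∀ w ∈ ball (0:ℂ) 1, ‖Ψ w‖ ≤ √(2 + δ) := by
      intro w hw
      rw [mem_ball_zero_iff] at hw
      have h1 := hΘ.norm_le_one hw
      simp only [hΨ]
      rw [(half_pow (hre' _ h1)).1]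
      apply Real.sqrt_le_sqrt
      refine (norm_sub_le _ _).trans ?_
      have h2 : ‖conj c * Θ w‖ ≤ 1 := by
        rw [norm_mul, RCLike.norm_conj]
        exact mul_le_one₀ hc1 (norm_nonneg _) h1
      rw [Complex.norm_real, Real.norm_eq_abs, abs_of_pos (by linarith)]
      linarith
    have hlim : ∀ᵐ θ : ℝ, Tendsto (fun r : ℝ => Ψ (r * cp θ)) (𝓝[<] 1)
        (𝓝 ((((1 + δ : ℝ) : ℂ) - conj c * Θ (cp θ)) ^ ((1/2 : ℂ)))) := by
      filter_upwards [hΘ.bdry] with θ hθ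
      have h1 : Tendsto (fun r : ℝ => ((1 + δ : ℝ) : ℂ) - conj c * Θ (r * cp θ)) (𝓝[<] 1)
          (𝓝 (((1 + δ : ℝ) : ℂ) - conj c * Θ (cp θ))) :=
        tendsto_const_nhds.sub (hθ.2.const_mul _)
      have h2 : ContinuousAt (fun v : ℂ => v ^ ((1/2 : ℂ))) (((1 + δ : ℝ) : ℂ) - conj c * Θ (cp θ)) :=
        continuousAt_id.cpow continuousAt_const (hslit _ hθ.1.le)
      exact h2.tendsto.comp h1
    have hrep := repro hd hb hlim hz
    set ψ : ℝ → ℂ := fun θ => (((1 + δ : ℝ) : ℂ) - conj c * Θ (cp θ)) ^ ((1/2 : ℂ)) with hψ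
    -- the value at z
    have hval : (Ψ z).re ≤ √(1 + δ - ‖c‖^2) := by
      have h1 : Ψ z = ((1 + δ - ‖c‖^2 : ℝ) : ℂ) ^ ((1/2 : ℂ)) := by
        simp only [hΨ]
        congr 1
        rw [← hc, ← Complex.normSq_eq_conj_mul_self, Complex.normSq_eq_norm_sq]
        push_cast; ring
      have h2 : 0 < 1 + δ - ‖c‖^2 := by
        have : ‖c‖^2 ≤ 1 := pow_le_one₀ (norm_nonneg _) hc1
        linarith
      have h3 := (half_pow (v := ((1 + δ - ‖c‖^2 : ℝ) : ℂ)) (by rw [Complex.ofReal_re]; exact h2)).1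
      rw [h1]
      refine (Complex.re_le_norm _).trans ?_
      rw [h3, Complex.norm_real, Real.norm_eq_abs, abs_of_pos h2]
    -- measurability and integrability
    have hψm : AEStronglyMeasurable ψ volume := by
      simp only [hψ]
      have h1 : AEMeasurable (fun θ : ℝ => ((1 + δ : ℝ) : ℂ) - conj c * Θ (cp θ)) volume :=
        (aemeasurable_const.sub (hΘ.meas.aemeasurable.const_mul _))
      exact (h1.pow_const _).aestronglyMeasurable
    have hψb : ∀ᵐ θ : ℝ, ‖ψ θ‖ ≤ √(2 + δ) := by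
      filter_upwards [hΘ.bdry] with θ hθ
      simp only [hψ]
      rw [(half_pow (hre' _ hθ.1.le)).1]
      apply Real.sqrt_le_sqrt
      refine (norm_sub_le _ _).trans ?_
      have h2 : ‖conj c * Θ (cp θ)‖ ≤ 1 := by
        rw [norm_mul, RCLike.norm_conj]
        exact mul_le_one₀ hc1 (norm_nonneg _) hθ.1.le
      rw [Complex.norm_real, Real.norm_eq_abs, abs_of_pos (by linarith)]
      linarith
    have hψli : LI ψ := by
      intro a b
      have h1 : IntervalIntegrable (fun _ : ℝ => √(2 + δ)) volume a b := intervalIntegrable_const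
      apply h1.mono_fun
      · exact hψm.restrict
      · filter_upwards [ae_restrict_of_ae hψb] with θ hθ
        rw [Real.norm_eq_abs, abs_of_nonneg (Real.sqrt_nonneg _)]
        exact hθ
    have hpψ := hψli.pk_mul hz 0 (2 * Real.pi)
    have hreint : IntervalIntegrable (fun θ => pk z θ * (ψ θ).re) volume 0 (2 * Real.pi) := by
      have := hpψ
      rw [intervalIntegrable_iff] at this ⊢
      have h2 := this.re
      refine h2.congr ?_
      filter_upwards with θ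
      simp
    have hre_rep : ∫ θ in (0:ℝ)..(2 * Real.pi), pk z θ * (ψ θ).re = 2 * Real.pi * (Ψ z).re := by
      have h1 := congrArg Complex.re hrep
      rw [Complex.re_ofReal_mul] at h1
      have h2 : (∫ θ in (0:ℝ)..(2 * Real.pi), ((pk z θ : ℝ) : ℂ) * ψ θ).re =
          ∫ θ in (0:ℝ)..(2 * Real.pi), pk z θ * (ψ θ).re := by
        have h3 := Complex.reCLM.intervalIntegral_comp_comm hpψ
        rw [Complex.reCLM_apply] at h3
        rw [← h3]
        apply intervalIntegral.integral_congr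
        intro θ _
        simp
      rw [h2] at h1
      rw [← h1]
      field_simp
    have hL : IntervalIntegrable (fun θ => pk z θ * √‖Θ (cp θ) - Θ z‖) volume 0 (2 * Real.pi) := by
      have := (hΘli.sqrt_int (Θ z) 0 (2 * Real.pi)).mul_continuousOn (g := pk z)
        (continuous_pk hz).continuousOn
      exact this.congr (fun θ _ => by ring)
    have hmain : ∫ θ in (0:ℝ)..(2 * Real.pi), pk z θ * √‖Θ (cp θ) - Θ z‖ ≤
        ∫ θ in (0:ℝ)..(2 * Real.pi), √2 * (pk z θ * (ψ θ).re) := by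
      apply intervalIntegral.integral_mono_ae (by linarith) hL (hreint.const_mul _)
      filter_upwards [hΘ.bdry] with θ hθ
      have hbθ := hθ.1
      have k1 : ‖Θ (cp θ) - Θ z‖ = ‖1 - conj c * Θ (cp θ)‖ := by
        have e1 : Θ (cp θ) * conj (Θ (cp θ)) = 1 := by
          rw [Complex.mul_conj, Complex.normSq_eq_norm_sq, hbθ]; norm_num
        have e2 : Θ (cp θ) - c = Θ (cp θ) * (1 - c * conj (Θ (cp θ))) := by
          calc Θ (cp θ) - c = Θ (cp θ) - c * (Θ (cp θ) * conj (Θ (cp θ))) := by rw [e1, mul_one]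
            _ = _ := by ring
        rw [← hc, e2, norm_mul, hbθ, one_mul, ← RCLike.norm_conj (1 - c * conj (Θ (cp θ)))]
        congr 1
        simp
      have k2 : ‖1 - conj c * Θ (cp θ)‖ ≤ ‖((1 + δ : ℝ) : ℂ) - conj c * Θ (cp θ)‖ := by
        have e0 : 0 ≤ (1 - conj c * Θ (cp θ)).re := by
          have := hre (Θ (cp θ)) hbθ.le
          simp only [Complex.sub_re, Complex.ofReal_re] at this
          simp only [Complex.sub_re, Complex.one_re]
          linarith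
        have e1 : ((1 + δ : ℝ) : ℂ) - conj c * Θ (cp θ) = (δ : ℂ) + (1 - conj c * Θ (cp θ)) := by
          push_cast; ring
        rw [e1]
        have e2 := add_norm_sq hδ.le e0
        have e3 : ‖1 - conj c * Θ (cp θ)‖^2 ≤ ‖(δ : ℂ) + (1 - conj c * Θ (cp θ))‖^2 := by
          have : 0 ≤ δ^2 := by positivity
          linarith
        exact (pow_le_pow_iff_left₀ (norm_nonneg _) (norm_nonneg _) (by norm_num)).1 e3
      have k3 : √‖Θ (cp θ) - Θ z‖ ≤ √2 * (ψ θ).re := by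
        rw [k1]
        exact (Real.sqrt_le_sqrt k2).trans (half_pow (hre' _ hbθ.le)).2
      calc pk z θ * √‖Θ (cp θ) - Θ z‖ ≤ pk z θ * (√2 * (ψ θ).re) :=
            mul_le_mul_of_nonneg_left k3 (pk_nonneg hz θ)
        _ = _ := by ring
    rw [intervalIntegral.integral_const_mul, hre_rep] at hmain
    calc _ ≤ √2 * (2 * Real.pi * (Ψ z).re) := hmain
      _ ≤ √2 * (2 * Real.pi * √(1 + δ - ‖c‖^2)) := by
          apply mul_le_mul_of_nonneg_left _ (Real.sqrt_nonneg _)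
          exact mul_le_mul_of_nonneg_left hval (by positivity)
      _ = _ := by ring
  -- limit δ → 0
  have hlimδ : Tendsto (fun δ : ℝ => 2 * Real.pi * (√2 * √(1 + δ - ‖c‖^2))) (𝓝[>] 0)
      (𝓝 (2 * Real.pi * (√2 * √(1 + 0 - ‖c‖^2)))) := by
    have : Continuous fun δ : ℝ => 2 * Real.pi * (√2 * √(1 + δ - ‖c‖^2)) := by fun_prop
    exact (this.tendsto 0).mono_left nhdsWithin_le_nhds
  have hle : ∫ θ in (0:ℝ)..(2 * Real.pi), pk z θ * √‖Θ (cp θ) - Θ z‖ ≤
      2 * Real.pi * (√2 * √(1 + 0 - ‖c‖^2)) := by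
    apply ge_of_tendsto hlimδ
    filter_upwards [self_mem_nhdsWithin] with δ hδ
    exact key δ hδ
  refine hle.trans ?_
  have e1 : √2 * √(1 + 0 - ‖c‖^2) ≤ 2 * √(1 - ‖c‖) := by
    rw [← Real.sqrt_mul (by norm_num : (0:ℝ) ≤ 2)]
    have : (2:ℝ) * √(1 - ‖c‖) = √(4 * (1 - ‖c‖)) := by
      rw [Real.sqrt_mul (by norm_num : (0:ℝ) ≤ 4)]
      congr 1
      rw [show (4:ℝ) = 2^2 by norm_num, Real.sqrt_sq (by norm_num)]
    rw [this]
    apply Real.sqrt_le_sqrt
    nlinarith [norm_nonneg c]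
  nlinarith

end Pool.Agent.Helper34.Bmo
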