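import Pool.Agent.Helper34.Bmo.Suff

set_option autoImplicit false

namespace Pool.Agent.Helper34.Bmo

open Complex Metric Set Filter Topology MeasureTheory ComplexConjugate

lemma abs_sqrt_sub_sqrt_le {x y : ℝ} (hx : 0 ≤ x) (hy : 0 ≤ y) : |√x - √y| ≤ √|x - y| := by
  wlog h : y ≤ x generalizing x y
  · rw [abs_sub_comm, abs_sub_comm x y]
    exact this hy hx (by linarith)
  rw [abs_of_nonneg (sub_nonneg.2 (Real.sqrt_le_sqrt h)), abs_of_nonneg (sub_nonneg.2 h)]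
  apply Real.le_sqrt_of_sq_le
  have h1 := Real.sq_sqrt hx
  have h2 := Real.sq_sqrt hy
  have h3 := Real.sqrt_le_sqrt h
  nlinarith [Real.sqrt_nonneg y, Real.sqrt_nonneg x]

lemma sqrt_add_le' {x y : ℝ} (hx : 0 ≤ x) (hy : 0 ≤ y) : √(x + y) ≤ √x + √y := by
  apply Real.sqrt_le_left (by positivity) |>.2 ?_ |>.trans le_rfl
  have h1 := Real.sq_sqrt hx
  have h2 := Real.sq_sqrt hy
  nlinarith [mul_nonneg (Real.sqrt_nonneg x) (Real.sqrt_nonneg y)]

lemma LI.sqrt_li {φ : ℝ → ℂ} (h : LI φ) (c : ℂ) : LI (fun x => ((√‖φ x - c‖ : ℝ) : ℂ)) := by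
  intro a b
  have h1 := h.sqrt_int c a b
  rw [intervalIntegrable_iff] at h1 ⊢
  exact h1.ofReal

/-- mean of square roots around the point value -/
lemma sqrt_mean {f Θ : ℂ → ℂ} (hf : IsH1 f) (hΘ : IsInner Θ) {Ω : ℝ → ℝ} {M Ca C : ℝ}
    (h : RB (fun θ => f (cp θ)) Ω M Ca) {x₀ τ : ℝ} (h0 : 0 < τ) (h1 : τ ≤ 1/2)
    (hC : ‖ext f (zp x₀ τ)‖ * (1 - ‖Θ (zp x₀ τ)‖) ≤ C * Ω (2 * τ)) :
    ∫ θ in (x₀ - τ)..(x₀ + τ), √‖f (cp θ) * Θ (cp θ) - ext f (zp x₀ τ) * Θ (zp x₀ τ)‖ ≤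
      (√((5120 * Ca + 1) * M) + 4 * Real.pi * √C) * √(Ω (2 * τ)) * (2 * τ) := by
  have hpi := Real.pi_pos
  obtain ⟨hG1, -⟩ := hf.mul_inner hΘ
  have hM := h.M0
  have hCa := h.Ca1
  have hz1 : ‖zp x₀ τ‖ < 1 := norm_zp_lt h0 (by linarith)
  have a1 := l1_point hf h (x₀ := x₀) h0 h1
  have hB0 : 0 < Ω (2 * τ) := h.pos (2 * τ) (by linarith)
  set B := Ω (2 * τ) with hB
  set z := zp x₀ τ with hz
  set F := ext f z with hF
  set c := Θ z with hc
  have hΘli : LI (fun θ => Θ (cp θ)) := by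
    apply InL1.li
    have h1 : IntervalIntegrable (fun _ : ℝ => (1:ℝ)) volume 0 (2 * Real.pi) := intervalIntegrable_const
    apply h1.mono_fun
    · exact hΘ.meas.restrict
    · filter_upwards [ae_restrict_of_ae hΘ.bdry] with θ hθ
      rw [hθ.1]; norm_num
  have hGli : LI (fun θ => f (cp θ) * Θ (cp θ)) := hG1.1.li
  -- the first part
  set m₁ := (5120 * Ca + 1) * M * B with hm₁
  have hm₁0 : 0 < m₁ := by positivity
  have p1 : ∫ θ in (x₀ - τ)..(x₀ + τ), √‖f (cp θ) - F‖ ≤ √m₁ * (2 * τ) := by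
    have hs : 0 < √m₁ := Real.sqrt_pos.2 hm₁0
    have hss : √m₁ * √m₁ = m₁ := Real.mul_self_sqrt hm₁0.le
    have e1 : ∫ θ in (x₀ - τ)..(x₀ + τ), √‖f (cp θ) - F‖ ≤
        ∫ θ in (x₀ - τ)..(x₀ + τ), ((2 * √m₁)⁻¹ * ‖f (cp θ) - F‖ + √m₁ / 2) := by
      apply intervalIntegral.integral_mono_on (by linarith) (h.li.sqrt_int _ _ _)
        (((h.li.sub_norm F _ _).const_mul _).add intervalIntegrable_const)
      intro θ _
      have k0 : 0 ≤ ‖f (cp θ) - F‖ := norm_nonneg _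
      have k1 := Real.sq_sqrt k0
      have k2 := sq_nonneg (√‖f (cp θ) - F‖ - √m₁)
      have k3 : (2 * √m₁)⁻¹ * ‖f (cp θ) - F‖ + √m₁ / 2 - √‖f (cp θ) - F‖ =
          (√‖f (cp θ) - F‖ - √m₁)^2 / (2 * √m₁) := by
        field_simp
        nlinarith
      have k4 : 0 ≤ (√‖f (cp θ) - F‖ - √m₁)^2 / (2 * √m₁) := by positivity
      linarith
    rw [intervalIntegral.integral_add ((h.li.sub_norm F _ _).const_mul _) intervalIntegrable_const,
      intervalIntegral.integral_const_mul, intervalIntegral.integral_const, smul_eq_mul] at e1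
    have e2 : (2 * √m₁)⁻¹ * ∫ θ in (x₀ - τ)..(x₀ + τ), ‖f (cp θ) - F‖ ≤
        (2 * √m₁)⁻¹ * (m₁ * (2 * τ)) := mul_le_mul_of_nonneg_left a1 (by positivity)
    have e3 : (2 * √m₁)⁻¹ * (m₁ * (2 * τ)) = √m₁ * τ := by
      rw [← hss]; field_simp
      rw [Real.sqrt_sq hs.le]
    rw [e3] at e2
    calc _ ≤ √m₁ * τ + (x₀ + τ - (x₀ - τ)) * (√m₁ / 2) := by linarith
      _ = _ := by ring
  -- the second part
  have p2 : ∫ θ in (x₀ - τ)..(x₀ + τ), √‖Θ (cp θ) - c‖ ≤ 4 * Real.pi * √(1 - ‖c‖) * (2 * τ) := by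
    have hL : ∀ a b, IntervalIntegrable (fun θ => pk z θ * √‖Θ (cp θ) - c‖) volume a b := by
      intro a b
      have := (hΘli.sqrt_int c a b).mul_continuousOn (g := pk z) (continuous_pk hz1).continuousOn
      exact this.congr (fun θ _ => by ring)
    have e1 : ∫ θ in (x₀ - τ)..(x₀ + τ), √‖Θ (cp θ) - c‖ ≤
        ∫ θ in (x₀ - τ)..(x₀ + τ), (2 * τ) * (pk z θ * √‖Θ (cp θ) - c‖) := by
      apply intervalIntegral.integral_mono_on (by linarith) (hΘli.sqrt_int _ _ _)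
        ((hL _ _).const_mul _)
      intro θ hθ
      have k1 := pk_zp_ge (x₀ := x₀) h0 h1 (θ := θ) (by
        rw [abs_le]; constructor <;> linarith [hθ.1, hθ.2])
      rw [← hz] at k1
      have k2 : 1 ≤ (2 * τ) * pk z θ := by
        rw [div_le_iff₀ (by linarith)] at k1
        linarith
      calc √‖Θ (cp θ) - c‖ = 1 * √‖Θ (cp θ) - c‖ := (one_mul _).symm
        _ ≤ ((2 * τ) * pk z θ) * √‖Θ (cp θ) - c‖ :=
            mul_le_mul_of_nonneg_right k2 (Real.sqrt_nonneg _)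
        _ = _ := by ring
    rw [intervalIntegral.integral_const_mul] at e1
    have e2 : ∫ θ in (x₀ - τ)..(x₀ + τ), pk z θ * √‖Θ (cp θ) - c‖ ≤
        ∫ θ in (x₀ - Real.pi)..(x₀ + Real.pi), pk z θ * √‖Θ (cp θ) - c‖ :=
      integral_subset_le hL (fun θ => mul_nonneg (pk_nonneg hz1 θ) (Real.sqrt_nonneg _))
        (by linarith [Real.pi_gt_three]) (by linarith) (by linarith [Real.pi_gt_three])
    have hper : Function.Periodic (fun θ => pk z θ * √‖Θ (cp θ) - c‖) (2 * Real.pi) := by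
      intro θ
      simp only
      rw [pk_periodic z θ, cp_periodic θ]
    have e3 := inner_dev hΘ hz1
    rw [← hc, int_shift hper x₀] at e3
    calc _ ≤ 2 * τ * ∫ θ in (x₀ - τ)..(x₀ + τ), pk z θ * √‖Θ (cp θ) - c‖ := e1
      _ ≤ 2 * τ * (4 * Real.pi * √(1 - ‖c‖)) :=
          mul_le_mul_of_nonneg_left (e2.trans e3) (by linarith)
      _ = _ := by ring
  have hC0 : 0 ≤ C * B := (mul_nonneg (norm_nonneg _)
    (by linarith [hΘ.norm_le_one hz1] : (0:ℝ) ≤ 1 - ‖c‖)).trans hC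
  have p3 : √‖F‖ * √(1 - ‖c‖) ≤ √C * √B := by
    have hC1 : 0 ≤ C := by
      by_contra hneg
      push Not at hneg
      nlinarith
    rw [← Real.sqrt_mul (norm_nonneg _), ← Real.sqrt_mul hC1]
    exact Real.sqrt_le_sqrt hC
  have e1 : ∫ θ in (x₀ - τ)..(x₀ + τ), √‖f (cp θ) * Θ (cp θ) - F * c‖ ≤
      ∫ θ in (x₀ - τ)..(x₀ + τ), (√‖f (cp θ) - F‖ + √‖F‖ * √‖Θ (cp θ) - c‖) := by
    apply intervalIntegral.integral_mono_ae (by linarith) (hGli.sqrt_int _ _ _)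
      ((h.li.sqrt_int _ _ _).add ((hΘli.sqrt_int _ _ _).const_mul _))
    filter_upwards [hΘ.bdry] with θ hθ
    have hb := hθ.1
    have k1 : ‖f (cp θ) * Θ (cp θ) - F * c‖ ≤ ‖f (cp θ) - F‖ + ‖F‖ * ‖Θ (cp θ) - c‖ := by
      have : f (cp θ) * Θ (cp θ) - F * c = (f (cp θ) - F) * Θ (cp θ) + F * (Θ (cp θ) - c) := by ring
      rw [this]
      refine (norm_add_le _ _).trans ?_
      rw [norm_mul, norm_mul, hb, mul_one]
    calc √‖f (cp θ) * Θ (cp θ) - F * c‖ ≤ √(‖f (cp θ) - F‖ + ‖F‖ * ‖Θ (cp θ) - c‖) :=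
          Real.sqrt_le_sqrt k1
      _ ≤ √‖f (cp θ) - F‖ + √(‖F‖ * ‖Θ (cp θ) - c‖) := sqrt_add_le' (norm_nonneg _) (by positivity)
      _ = _ := by rw [Real.sqrt_mul (norm_nonneg _)]
  rw [intervalIntegral.integral_add (h.li.sqrt_int _ _ _) ((hΘli.sqrt_int _ _ _).const_mul _),
    intervalIntegral.integral_const_mul] at e1
  have e2 : √‖F‖ * ∫ θ in (x₀ - τ)..(x₀ + τ), √‖Θ (cp θ) - c‖ ≤
      4 * Real.pi * √C * √B * (2 * τ) := by
    calc _ ≤ √‖F‖ * (4 * Real.pi * √(1 - ‖c‖) * (2 * τ)) :=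
          mul_le_mul_of_nonneg_left p2 (Real.sqrt_nonneg _)
      _ = 4 * Real.pi * (√‖F‖ * √(1 - ‖c‖)) * (2 * τ) := by ring
      _ ≤ 4 * Real.pi * (√C * √B) * (2 * τ) := by
          apply mul_le_mul_of_nonneg_right _ (by linarith)
          exact mul_le_mul_of_nonneg_left p3 (by positivity)
      _ = _ := by ring
  have e3 : √m₁ = √((5120 * Ca + 1) * M) * √B := by
    rw [hm₁, Real.sqrt_mul (by positivity)]
  rw [e3] at p1
  calc _ ≤ √((5120 * Ca + 1) * M) * √B * (2 * τ) + 4 * Real.pi * √C * √B * (2 * τ) := by linarith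
    _ = _ := by ring

/-- the pointwise condition gives bounded mean oscillation of `fΘ` -/
lemma bmo_of_star {f Θ : ℂ → ℂ} (hf : IsH1 f) (hΘ : IsInner Θ) {Ω : ℝ → ℝ} {M Ca C : ℝ}
    (h : RB (fun θ => f (cp θ)) Ω M Ca) (hC0 : 0 ≤ C)
    (hstar : ∀ x₀ τ : ℝ, 0 < τ → τ ≤ 1/2 →
      ‖ext f (zp x₀ τ)‖ * (1 - ‖Θ (zp x₀ τ)‖) ≤ C * Ω (2 * τ)) :
    ∃ C' : ℝ, 0 ≤ C' ∧ ∀ a b : ℝ, a < b → b - a ≤ 1 →
      ∫ x in a..b, ‖f (cp x) * Θ (cp x) - mean (fun θ => f (cp θ) * Θ (cp θ)) a b‖ ≤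
        C' * Ω (b - a) * (b - a) := by
  have hpi := Real.pi_pos
  obtain ⟨hG1, -⟩ := hf.mul_inner hΘ
  have hM := h.M0
  have hCa := h.Ca1
  set G : ℝ → ℂ := fun θ => f (cp θ) * Θ (cp θ) with hG
  have hGli : LI G := hG1.1.li
  set D := √((5120 * Ca + 1) * M) + 4 * Real.pi * √C with hD
  have hD0 : 0 < D := by
    have : 0 < √((5120 * Ca + 1) * M) := Real.sqrt_pos.2 (by positivity)
    positivity
  refine ⟨1540 * D^2, by positivity, ?_⟩
  intro a b hab hab1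
  -- point values
  set P : ℝ → ℝ → ℂ := fun c d => ext f (zp ((c+d)/2) ((d-c)/2)) * Θ (zp ((c+d)/2) ((d-c)/2)) with hP
  have hPJ : ∀ c d, a ≤ c → c < d → d ≤ b → ∫ x in c..d, √‖G x - P c d‖ ≤ D * √(Ω (b - a)) * (d - c) := by
    intro c d hc hcd hd
    have h0 : 0 < (d - c) / 2 := by linarith
    have h1 : (d - c) / 2 ≤ 1/2 := by linarith
    have := sqrt_mean hf hΘ h (x₀ := (c+d)/2) h0 h1 (hstar _ _ h0 h1)
    have e1 : (c + d) / 2 - (d - c) / 2 = c := by ring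
    have e2 : (c + d) / 2 + (d - c) / 2 = d := by ring
    have e3 : 2 * ((d - c) / 2) = d - c := by ring
    rw [e1, e2, e3, ← hD] at this
    refine this.trans ?_
    apply mul_le_mul_of_nonneg_right _ (by linarith)
    apply mul_le_mul_of_nonneg_left _ hD0.le
    exact Real.sqrt_le_sqrt (h.mono _ _ (by linarith) (by linarith))
  have hΩ0 : 0 < Ω (b - a) := h.pos _ (by linarith)
  set q := P a b with hq
  set S₀ := √(Ω (b - a)) with hS
  have hS0 : 0 < S₀ := Real.sqrt_pos.2 hΩ0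
  have hSS : S₀ * S₀ = Ω (b - a) := Real.mul_self_sqrt hΩ0.le
  set ψ : ℝ → ℂ := fun x => ((√‖G x - q‖ : ℝ) : ℂ) with hψ
  have hψli : LI ψ := hGli.sqrt_li q
  have hosc : ∀ c d, a ≤ c → c < d → d ≤ b → ∫ x in c..d, ‖ψ x - mean ψ c d‖ ≤ (2 * D * S₀) * (d - c) := by
    intro c d hc hcd hd
    have e1 := osc_le_two hψli hcd ((√‖P c d - q‖ : ℝ) : ℂ)
    have e2 : ∫ x in c..d, ‖ψ x - ((√‖P c d - q‖ : ℝ) : ℂ)‖ ≤ ∫ x in c..d, √‖G x - P c d‖ := by
      apply intervalIntegral.integral_mono_on hcd.le (hψli.sub_norm _ _ _) (hGli.sqrt_int _ _ _)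
      intro x _
      simp only [hψ]
      rw [← Complex.ofReal_sub, Complex.norm_real, Real.norm_eq_abs]
      refine (abs_sqrt_sub_sqrt_le (norm_nonneg _) (norm_nonneg _)).trans ?_
      apply Real.sqrt_le_sqrt
      refine (abs_norm_sub_norm_le _ _).trans ?_
      apply le_of_eq
      congr 1
      ring
    have e3 := hPJ c d hc hcd hd
    nlinarith
  obtain ⟨hj1, hj2⟩ := jn_l2 hψli hab (m := 2 * D * S₀) (by positivity) hosc
  set μ := mean ψ a b with hμ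
  have hμb : ‖μ‖ ≤ D * S₀ := by
    have e1 := mean_sub_le hψli hab 0
    simp only [sub_zero] at e1
    have e2 : ∫ x in a..b, ‖ψ x‖ = ∫ x in a..b, √‖G x - q‖ := by
      apply intervalIntegral.integral_congr
      intro x _
      simp only [hψ]
      rw [Complex.norm_real, Real.norm_eq_abs, abs_of_nonneg (Real.sqrt_nonneg _)]
    rw [e2] at e1
    have e3 := hPJ a b le_rfl hab le_rfl
    exact le_of_mul_le_mul_right (e1.trans e3) (by linarith)
  have hfin : ∫ x in a..b, ‖G x - q‖ ≤ ∫ x in a..b, (2 * ‖ψ x - μ‖^2 + 2 * ‖μ‖^2) := by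
    apply intervalIntegral.integral_mono_on hab.le (hGli.sub_norm _ _ _)
      ((hj1.const_mul 2).add intervalIntegrable_const)
    intro x _
    have k1 : ‖G x - q‖ = ‖ψ x‖^2 := by
      simp only [hψ]
      rw [Complex.norm_real, Real.norm_eq_abs, abs_of_nonneg (Real.sqrt_nonneg _),
        Real.sq_sqrt (norm_nonneg _)]
    rw [k1]
    have k2 : ‖ψ x‖ ≤ ‖ψ x - μ‖ + ‖μ‖ := by
      have : ψ x = (ψ x - μ) + μ := by ring
      conv_lhs => rw [this]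
      exact norm_add_le _ _
    have k3 := pow_le_pow_left₀ (norm_nonneg _) k2 2
    nlinarith [sq_nonneg (‖ψ x - μ‖ - ‖μ‖)]
  rw [intervalIntegral.integral_add (hj1.const_mul 2) intervalIntegrable_const,
    intervalIntegral.integral_const_mul, intervalIntegral.integral_const, smul_eq_mul] at hfin
  have hμ2 : ‖μ‖^2 ≤ D^2 * Ω (b - a) := by
    have := pow_le_pow_left₀ (norm_nonneg _) hμb 2
    rw [← hSS]
    nlinarith
  have hba : 0 < b - a := by linarith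
  have hosc2 := osc_le_two hGli hab q
  have hj3 : ∫ x in a..b, ‖ψ x - μ‖^2 ≤ 384 * D^2 * Ω (b - a) * (b - a) := by
    refine hj2.trans (le_of_eq ?_)
    rw [← hSS]; ring
  have hk : (b - a) * (2 * ‖μ‖^2) ≤ 2 * D^2 * Ω (b - a) * (b - a) := by nlinarith
  nlinarith

end Pool.Agent.Helper34.Bmo
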